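import Mathlib

namespace Pool.Agent.Helper868.DHJ

open Finset Function
open scoped BigOperators

noncomputable section

/-- Indicator function of a set, real valued. -/
def ind {X : Type} (A : Set X) (x : X) : ℝ := by
  classical exact if x ∈ A then 1 else 0

section Ind
variable {X : Type} {A B : Set X} {x : X}

lemma ind_mem (h : x ∈ A) : ind A x = 1 := by simp [ind, h]
lemma ind_not_mem (h : x ∉ A) : ind A x = 0 := by simp [ind, h]
lemma ind_nonneg (A : Set X) (x : X) : 0 ≤ ind A x := by
  by_cases h : x ∈ A <;> simp [ind, h]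
lemma ind_le_one (A : Set X) (x : X) : ind A x ≤ 1 := by
  by_cases h : x ∈ A <;> simp [ind, h]
lemma ind_compl (A : Set X) (x : X) : ind Aᶜ x = 1 - ind A x := by
  by_cases h : x ∈ A <;> simp [ind, h]
lemma ind_mono (h : x ∈ A → x ∈ B) : ind A x ≤ ind B x := by
  by_cases h1 : x ∈ A
  · simp [ind_mem h1, ind_mem (h h1)]
  · simp [ind_not_mem h1, ind_nonneg]
lemma mem_of_ind_pos (h : 0 < ind A x) : x ∈ A := by
  by_contra h1
  simp [ind_not_mem h1] at h
lemma ind_congr {Y : Type} {B : Set Y} {y : Y} (h : x ∈ A ↔ y ∈ B) : ind A x = ind B y := by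
  by_cases h1 : x ∈ A
  · rw [ind_mem h1, ind_mem (h.1 h1)]
  · rw [ind_not_mem h1, ind_not_mem (fun h2 => h1 (h.2 h2))]
end Ind

/-- Average of a real function over a finite type. -/
def av {X : Type} [Fintype X] (f : X → ℝ) : ℝ := 𝔼 x, f x

section Av
variable {X Y : Type} [Fintype X] [Fintype Y]

lemma av_add (f g : X → ℝ) : av (fun x => f x + g x) = av f + av g := by
  simp [av, Finset.expect_add_distrib]

lemma av_sub (f g : X → ℝ) : av (fun x => f x - g x) = av f - av g := by
  simp [av, Finset.expect_sub_distrib]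

lemma av_sum {J : Type} (s : Finset J) (f : J → X → ℝ) :
    av (fun x => ∑ j ∈ s, f j x) = ∑ j ∈ s, av (f j) := by
  simp [av, Finset.expect_sum_comm]

lemma av_mul_const (f : X → ℝ) (c : ℝ) : av (fun x => f x * c) = av f * c := by
  simp [av, Finset.expect_mul]

lemma av_const_mul (f : X → ℝ) (c : ℝ) : av (fun x => c * f x) = c * av f := by
  simp [av, Finset.mul_expect]

lemma av_const [Nonempty X] (c : ℝ) : av (fun _ : X => c) = c := by
  simp [av]

lemma av_mono {f g : X → ℝ} (h : ∀ x, f x ≤ g x) : av f ≤ av g :=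
  Finset.expect_le_expect fun x _ => h x

lemma av_nonneg {f : X → ℝ} (h : ∀ x, 0 ≤ f x) : 0 ≤ av f :=
  Finset.expect_nonneg fun x _ => h x

lemma av_le_of_le [Nonempty X] {f : X → ℝ} {c : ℝ} (h : ∀ x, f x ≤ c) : av f ≤ c := by
  calc av f ≤ av (fun _ : X => c) := av_mono h
    _ = c := av_const c

lemma av_equiv (e : X ≃ Y) (f : Y → ℝ) : av (fun x => f (e x)) = av f :=
  Fintype.expect_equiv e _ _ fun _ => rfl

lemma av_prod (f : X × Y → ℝ) : av f = av (fun x => av fun y => f (x, y)) := by
  unfold av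
  rw [← Finset.univ_product_univ, Finset.expect_product]

lemma av_comm (f : X → Y → ℝ) : av (fun x => av fun y => f x y) = av (fun y => av fun x => f x y) := by
  unfold av
  exact Finset.expect_comm _ _ _

lemma exists_le_of_le_av [Nonempty X] {f : X → ℝ} {c : ℝ} (h : c ≤ av f) : ∃ x, c ≤ f x := by
  obtain ⟨x, -, hx⟩ := Finset.exists_le_of_le_expect (Finset.univ_nonempty) h
  exact ⟨x, hx⟩

lemma exists_lt_of_av_lt [Nonempty X] {f : X → ℝ} {c : ℝ} (h : av f < c) : ∃ x, f x < c := by
  obtain ⟨x, -, hx⟩ := Finset.exists_lt_of_expect_lt (Finset.univ_nonempty) h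
  exact ⟨x, hx⟩

lemma av_eq_sum (f : X → ℝ) : av f = (∑ x, f x) / Fintype.card X := by
  unfold av
  exact Fintype.expect_eq_sum_div_card f

end Av

/-- Density of a set in a finite type. -/
def dens {X : Type} [Fintype X] (A : Set X) : ℝ := av (ind A)

section Dens
variable {X : Type} [Fintype X]

lemma dens_nonneg (A : Set X) : 0 ≤ dens A := av_nonneg (ind_nonneg A)

lemma dens_le_one (A : Set X) : dens A ≤ 1 := by
  cases isEmpty_or_nonempty X
  · simp [dens, av]
  · exact av_le_of_le (ind_le_one A)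

end Dens

/-- Evaluation of a parameter word. -/
def ev {β η ι : Type} (σ : ι → β ⊕ η) (t : η → β) : ι → β := fun i => Sum.elim id t (σ i)

/-- A parameter word is proper if all its parameters occur. -/
def Proper {β η ι : Type} (σ : ι → β ⊕ η) : Prop := ∀ e, ∃ i, σ i = Sum.inr e

/-- Composition of parameter words. -/
def cmp {β η θ ι : Type} (σ : ι → β ⊕ η) (τ : η → β ⊕ θ) : ι → β ⊕ θ :=
  fun i => Sum.elim Sum.inl τ (σ i)

section Words
variable {β η θ ι : Type}

lemma ev_cmp (σ : ι → β ⊕ η) (τ : η → β ⊕ θ) (t : θ → β) :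
    ev (cmp σ τ) t = ev σ (ev τ t) := by
  funext i
  unfold ev cmp
  cases σ i <;> simp

lemma Proper.cmp {σ : ι → β ⊕ η} {τ : η → β ⊕ θ} (hσ : Proper σ) (hτ : Proper τ) :
    Proper (cmp σ τ) := by
  intro e
  obtain ⟨j, hj⟩ := hτ e
  obtain ⟨i, hi⟩ := hσ j
  exact ⟨i, by simp [DHJ.cmp, hi, hj]⟩

lemma ev_injective {σ : ι → β ⊕ η} (hσ : Proper σ) : Injective (ev σ) := by
  intro s t h
  funext e
  obtain ⟨i, hi⟩ := hσ e
  have := congrFun h i
  simpa [ev, hi] using this

/-- The point of a one-parameter word. -/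
def pt (u : ι → Option β) (b : β) : ι → β := fun i => (u i).getD b

/-- A set without combinatorial lines. -/
def LineFree (A : Set (ι → β)) : Prop :=
  ∀ u : ι → Option β, (∃ i, u i = none) → ∃ b, pt u b ∉ A

lemma LineFree.pull {A : Set (ι → β)} (hA : LineFree A) {σ : ι → β ⊕ η} (hσ : Proper σ) :
    LineFree {t | ev σ t ∈ A} := by
  intro u hu
  obtain ⟨e, he⟩ := hu
  obtain ⟨i, hi⟩ := hσ e
  obtain ⟨b, hb⟩ := hA (fun i => Sum.elim some u (σ i)) ⟨i, by simp [hi, he]⟩
  refine ⟨b, ?_⟩
  have h : ev σ (pt u b) = pt (fun i => Sum.elim some u (σ i)) b := by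
    funext i
    unfold ev pt
    cases hσi : σ i <;> simp [hσi]
  simpa [h] using hb

end Words

/-- Gluing two partial functions. -/
def glue {β ι : Type} (p : ι → Prop) [DecidablePred p] (t : {i // p i} → β)
    (y : {i // ¬ p i} → β) : ι → β := fun i => if h : p i then t ⟨i, h⟩ else y ⟨i, h⟩

/-- Word of the section obtained by fixing the coordinates outside `p`. -/
def secW {β ι : Type} (p : ι → Prop) [DecidablePred p] (y : {i // ¬ p i} → β) :
    ι → β ⊕ {i // p i} := fun i => if h : p i then Sum.inr ⟨i, h⟩ else Sum.inl (y ⟨i, h⟩)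

/-- Word of the section obtained by fixing the coordinates in `p`. -/
def secW' {β ι : Type} (p : ι → Prop) [DecidablePred p] (t : {i // p i} → β) :
    ι → β ⊕ {i // ¬ p i} := fun i => if h : p i then Sum.inl (t ⟨i, h⟩) else Sum.inr ⟨i, h⟩

section Glue
variable {β ι : Type} (p : ι → Prop) [DecidablePred p]

lemma ev_secW (t : {i // p i} → β) (y : {i // ¬ p i} → β) : ev (secW p y) t = glue p t y := by
  funext i
  by_cases h : p i <;> simp [ev, secW, glue, h]

lemma ev_secW' (t : {i // p i} → β) (y : {i // ¬ p i} → β) : ev (secW' p t) y = glue p t y := by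
  funext i
  by_cases h : p i <;> simp [ev, secW', glue, h]

lemma proper_secW (y : {i // ¬ p i} → β) : Proper (secW p y) := by
  rintro ⟨i, hi⟩
  exact ⟨i, by simp [secW, hi]⟩

lemma proper_secW' (t : {i // p i} → β) : Proper (secW' p t) := by
  rintro ⟨i, hi⟩
  exact ⟨i, by simp [secW', hi]⟩

lemma av_glue [Fintype ι] [DecidableEq ι] [Fintype β] (f : (ι → β) → ℝ) :
    av f = av (fun y : {i // ¬ p i} → β => av fun t : {i // p i} → β => f (glue p t y)) := by
  rw [av_comm, ← av_prod (f := fun z : ({i // p i} → β) × ({i // ¬ p i} → β) => f (glue p z.1 z.2))]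
  rw [← av_equiv (Equiv.piEquivPiSubtypeProd p (fun _ => β)).symm f]
  rfl

end Glue

section Rows

lemma exists_rows {ι : Type} [Fintype ι] (m M : ℕ) (hm : 0 < m)
    (h : m * M ≤ Fintype.card ι) :
    ∃ row : ι → Fin m, ∀ r, ∃ g : Fin M → ι, Injective g ∧ ∀ j, row (g j) = r := by
  classical
  have h1 : Fintype.card (Fin m × Fin M) ≤ Fintype.card ι := by simpa using h
  obtain ⟨g⟩ := Function.Embedding.nonempty_of_card_le h1
  refine ⟨Function.extend g Prod.fst (fun _ => ⟨0, hm⟩), fun r => ⟨fun j => g (r, j), ?_, ?_⟩⟩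
  · intro j j' hj
    have := g.injective hj
    simpa using this
  · intro j
    rw [g.injective.extend_apply]

lemma av_prod_coord {β κ : Type} [Fintype β] [Fintype κ] [DecidableEq κ] (T : Set β) :
    dens {x : κ → β | ∀ i, x i ∈ T} = (dens T) ^ (Fintype.card κ) := by
  classical
  have h1 : ∀ x : κ → β, ind {x : κ → β | ∀ i, x i ∈ T} x = ∏ i, ind T (x i) := by
    intro x
    by_cases h : ∀ i, x i ∈ T
    · rw [ind_mem (by exact h)]
      symm
      exact Finset.prod_eq_one fun i _ => ind_mem (h i)
    · rw [ind_not_mem (by exact h)]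
      push Not at h
      obtain ⟨i, hi⟩ := h
      symm
      exact Finset.prod_eq_zero (Finset.mem_univ i) (ind_not_mem hi)
  unfold dens
  rw [av_eq_sum, av_eq_sum, div_pow]
  congr 1
  · simp_rw [h1]
    rw [← Finset.card_univ, ← Finset.prod_const, Finset.prod_univ_sum]
    simp
  · simp

lemma dens_p_eq {β ι : Type} [Fintype β] [Nonempty β] [Fintype ι] [DecidableEq ι] (T : Set β)
    (p : ι → Prop) [DecidablePred p] :
    dens {x : ι → β | ∀ i, p i → x i ∈ T} = (dens T) ^ (Fintype.card {i // p i}) := by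
  have h2 : dens {x : ι → β | ∀ i, p i → x i ∈ T} =
      av (fun _ : {i // ¬ p i} → β => dens {t : {i // p i} → β | ∀ i, t i ∈ T}) := by
    unfold dens
    rw [av_glue p]
    congr 1
    funext y
    congr 1
    funext t
    apply ind_congr
    constructor
    · intro h i
      have := h i.1 i.2
      simpa [glue, i.2] using this
    · intro h i hi
      have := h ⟨i, hi⟩
      have e : glue p t y i = t ⟨i, hi⟩ := by
        unfold glue
        rw [dif_pos hi]
      rw [e]
      exact this
  rw [h2, av_const, av_prod_coord]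

/-- Upper bound for the probability that all coordinates in a row fall in `T`. -/
lemma dens_row_le {β ι : Type} [Fintype β] [Nonempty β] [Fintype ι] [DecidableEq ι] (T : Set β)
    (q : ι → Prop) (M : ℕ) (g : Fin M → ι) (hg : Injective g) (hq : ∀ j, q (g j)) :
    dens {x : ι → β | ∀ i, q i → x i ∈ T} ≤ (dens T) ^ M := by
  have h1 : dens {x : ι → β | ∀ i, q i → x i ∈ T} ≤
      dens {x : ι → β | ∀ i, i ∈ Finset.univ.image g → x i ∈ T} := by
    refine av_mono fun x => ind_mono fun h => ?_
    intro i hi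
    obtain ⟨j, -, rfl⟩ := Finset.mem_image.1 hi
    exact h _ (hq j)
  refine h1.trans (le_of_eq ?_)
  rw [dens_p_eq]
  congr 1
  rw [Fintype.card_coe, Finset.card_image_of_injective _ hg]
  simp

lemma dens_rows_le {β ι : Type} [Fintype β] [Nonempty β] [Fintype ι] [DecidableEq ι] (T : Set β)
    (m M : ℕ) (row : ι → Fin m)
    (hrow : ∀ r, ∃ g : Fin M → ι, Injective g ∧ ∀ j, row (g j) = r) :
    dens {x : ι → β | ∃ r, ∀ i, row i = r → x i ∈ T} ≤ m * (dens T) ^ M := by
  classical
  calc dens {x : ι → β | ∃ r, ∀ i, row i = r → x i ∈ T}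
      ≤ av (fun x => ∑ r : Fin m, ind {x : ι → β | ∀ i, row i = r → x i ∈ T} x) := by
        refine av_mono fun x => ?_
        by_cases h : x ∈ {x : ι → β | ∃ r, ∀ i, row i = r → x i ∈ T}
        · obtain ⟨r, hr⟩ := h
          refine (ind_le_one _ _).trans ?_
          calc (1:ℝ) = ind {x : ι → β | ∀ i, row i = r → x i ∈ T} x :=
                (ind_mem (A := {x : ι → β | ∀ i, row i = r → x i ∈ T}) hr).symm
            _ ≤ _ := Finset.single_le_sum (f := fun r => ind {x : ι → β | ∀ i, row i = r → x i ∈ T} x)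
                (fun r _ => ind_nonneg _ _) (Finset.mem_univ r)
        · rw [ind_not_mem h]
          exact Finset.sum_nonneg fun r _ => ind_nonneg _ _
    _ = ∑ r : Fin m, dens {x : ι → β | ∀ i, row i = r → x i ∈ T} := av_sum _ _
    _ ≤ ∑ r : Fin m, (dens T) ^ M := by
        refine Finset.sum_le_sum fun r _ => ?_
        obtain ⟨g, hg, hg'⟩ := hrow r
        exact dens_row_le T _ M g hg hg'
    _ = m * (dens T) ^ M := by simp

lemma dens_lt_one {β : Type} [Fintype β] {T : Set β} {b : β} (hb : b ∉ T) : dens T < 1 := by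
  classical
  unfold dens
  rw [av_eq_sum, div_lt_one (by exact_mod_cast Fintype.card_pos_iff.2 ⟨b⟩)]
  calc ∑ x, ind T x < ∑ _x : β, (1:ℝ) := by
        refine Finset.sum_lt_sum (fun x _ => ind_le_one _ _) ⟨b, Finset.mem_univ b, ?_⟩
        rw [ind_not_mem hb]
        exact one_pos
    _ = Fintype.card β := by simp

lemma exists_pow_small {ρ ε : ℝ} (C : ℝ) (h0 : 0 ≤ ρ) (h1 : ρ < 1) (hε : 0 < ε) :
    ∃ M0 : ℕ, ∀ M, M0 ≤ M → C * ρ ^ M < ε := by
  have h := (tendsto_pow_atTop_nhds_zero_of_lt_one h0 h1).const_mul C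
  rw [mul_zero] at h
  have h2 := (h.eventually (gt_mem_nhds hε))
  rw [Filter.eventually_atTop] at h2
  exact h2

end Rows

/-- The density Hales-Jewett property of an alphabet. -/
def DensityHJ (β : Type) [Fintype β] : Prop := ∀ δ : ℝ, 0 < δ → ∃ N : ℕ, ∀ (ι : Type) [Fintype ι]
  [DecidableEq ι], N ≤ Fintype.card ι → ∀ A : Set (ι → β), LineFree A → dens A < δ

lemma exists_finset_card {ι : Type} [Fintype ι] (n m : ℕ) (h : n + m ≤ Fintype.card ι) :
    ∃ p : ι → Prop, ∃ _ : DecidablePred p, Fintype.card {i // p i} = n ∧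
      m ≤ Fintype.card {i // ¬ p i} := by
  classical
  obtain ⟨s, -, hs⟩ := Finset.exists_subset_card_eq (s := (Finset.univ : Finset ι)) (n := n)
    (by rw [Finset.card_univ]; omega)
  refine ⟨fun i => i ∈ s, inferInstance, by simp [hs], ?_⟩
  rw [Fintype.card_subtype_compl]
  simp only [Fintype.card_coe, hs]
  omega

section Mdhj
variable {α : Type} [Fintype α]

/-- The multidimensional version. -/
lemma mdhj (h : DensityHJ α) (m : ℕ) : ∀ δ : ℝ, 0 < δ → ∃ N : ℕ, ∀ (ι : Type) [Fintype ι]
    [DecidableEq ι], N ≤ Fintype.card ι → ∀ A : Set (ι → α), δ ≤ dens A →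
    ∃ σ : ι → α ⊕ Fin m, Proper σ ∧ ∀ t, ev σ t ∈ A := by
  induction m with
  | zero =>
    intro δ hδ
    refine ⟨0, fun ι _ _ _ A hA => ?_⟩
    have : ∃ x, x ∈ A := by
      by_contra hne
      push Not at hne
      have h0 : dens A = av (fun _ : ι → α => (0:ℝ)) := by
        unfold dens
        congr 1
        funext x
        exact ind_not_mem (hne x)
      have h1 : av (fun _ : ι → α => (0:ℝ)) = 0 := by simp [av]
      linarith
    obtain ⟨x, hx⟩ := this
    exact ⟨fun i => Sum.inl (x i), fun e => e.elim0, fun t => hx⟩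
  | succ m ih =>
    intro δ hδ
    obtain ⟨N1, hN1⟩ := h (δ/2) (half_pos hδ)
    set L : ℝ := (Fintype.card (Fin N1 → Option α) : ℝ) with hL
    have hLpos : 0 < L := by
      rw [hL]; exact_mod_cast Fintype.card_pos
    obtain ⟨N2, hN2⟩ := ih (δ/2/L) (by positivity)
    refine ⟨N1 + N2, fun ι _ _ hι A hA => ?_⟩
    obtain ⟨p, _, hp1, hp2⟩ := exists_finset_card N1 N2 hι
    let Ay : ({i // ¬ p i} → α) → Set ({i // p i} → α) := fun y => {t | glue p t y ∈ A}
    let B : ({i // p i} → Option α) → Set ({i // ¬ p i} → α) :=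
      fun u => {y | (∃ i, u i = none) ∧ ∀ b, pt u b ∈ Ay y}
    have h1 : δ ≤ av (fun y => dens (Ay y)) := by
      refine hA.trans (le_of_eq ?_)
      unfold dens
      rw [av_glue p]
      rfl
    have h2 : ∀ y, dens (Ay y) ≤ δ/2 + ∑ u, ind (B u) y := by
      intro y
      by_cases hy : δ/2 ≤ dens (Ay y)
      · have h3 : ¬ LineFree (Ay y) := by
          intro hlf
          have := hN1 _ (le_of_eq hp1.symm) _ hlf
          linarith
        unfold LineFree at h3
        push Not at h3
        obtain ⟨u, hu1, hu2⟩ := h3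
        have h4 : (1:ℝ) ≤ ∑ u, ind (B u) y := by
          calc (1:ℝ) = ind (B u) y := (ind_mem (A := B u) ⟨hu1, hu2⟩).symm
            _ ≤ _ := Finset.single_le_sum (f := fun u => ind (B u) y)
                (fun r _ => ind_nonneg _ _) (Finset.mem_univ u)
        have := dens_le_one (Ay y)
        linarith
      · have h4 : (0:ℝ) ≤ ∑ u, ind (B u) y := Finset.sum_nonneg fun _ _ => ind_nonneg _ _
        linarith
    have hne : Nonempty ({i // ¬ p i} → α) := by
      by_contra hemp
      rw [not_nonempty_iff] at hemp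
      have : av (fun y => dens (Ay y)) = 0 := by simp [av]
      linarith
    have h5 : δ/2 ≤ ∑ u, dens (B u) := by
      have h6 := av_mono h2
      rw [av_add, av_const, av_sum] at h6
      have h7 : ∑ j, av (ind (B j)) = ∑ u, dens (B u) := rfl
      have h8 : av (fun x => dens (Ay x)) = av (fun y => dens (Ay y)) := rfl
      rw [h7] at h6
      linarith
    have h9 : ∃ u, δ/2/L ≤ dens (B u) := by
      by_contra hcon
      push Not at hcon
      have h10 : ∑ u, dens (B u) < ∑ _u : ({i // p i} → Option α), δ/2/L :=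
        Finset.sum_lt_sum_of_nonempty Finset.univ_nonempty fun u _ => hcon u
      rw [Finset.sum_const, Finset.card_univ] at h10
      have h11 : (Fintype.card ({i // p i} → Option α) : ℝ) = L := by
        rw [hL]; simp [hp1]
      rw [nsmul_eq_mul, h11] at h10
      have h12 : L * (δ/2/L) = δ/2 := by field_simp
      linarith
    obtain ⟨u, hu⟩ := h9
    obtain ⟨τ, hτ1, hτ2⟩ := hN2 _ hp2 (B u) hu
    have huB : ∃ i, u i = none := by
      by_contra hcon
      have : dens (B u) = 0 := by
        have : ∀ y, ind (B u) y = 0 := fun y => ind_not_mem fun hy => hcon hy.1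
        unfold dens
        have e : ind (B u) = fun _ => 0 := funext this
        rw [e]; simp [av]
      have : 0 < δ/2/L := by positivity
      linarith
    refine ⟨fun i => if hi : p i then (match u ⟨i, hi⟩ with
        | some a => Sum.inl a
        | none => Sum.inr 0) else Sum.map id Fin.succ (τ ⟨i, hi⟩), ?_, ?_⟩
    · intro e
      refine Fin.cases ?_ (fun e => ?_) e
      · obtain ⟨⟨i, hi⟩, hui⟩ := huB
        refine ⟨i, ?_⟩
        simp [hi, hui]
      · obtain ⟨⟨i, hi⟩, hui⟩ := hτ1 e
        refine ⟨i, ?_⟩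
        simp [hi, hui]
    · intro t
      have h13 := (hτ2 (fun e => t e.succ)).2 (t 0)
      have h14 : glue p (pt u (t 0)) (ev τ (fun e => t e.succ)) ∈ A := h13
      convert h14 using 1
      funext i
      unfold ev glue pt
      by_cases hi : p i
      · simp only [hi, dif_pos]
        cases hui : u ⟨i, hi⟩ <;> simp
      · simp only [hi, dif_neg, not_false_eq_true]
        cases hui : τ ⟨i, hi⟩ <;> simp

end Mdhj

section Insens
variable {α : Type}

/-- Replace every occurrence of the last letter by `a`. -/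
def rep {ι : Type} (a : α) (x : ι → Option α) : ι → Option α := fun i => some ((x i).getD a)

/-- Sets which do not distinguish the letters `a` and `none`. -/
def Ins {ι : Type} (a : α) (D : Set (ι → Option α)) : Prop := ∀ x, rep a x ∈ D ↔ x ∈ D

lemma rep_ev {ι η : Type} (a : α) (σ : ι → Option α ⊕ η) (t : η → Option α) :
    rep a (ev σ (rep a t)) = rep a (ev σ t) := by
  funext i
  unfold rep ev
  cases h : σ i <;> simp

lemma Ins.pull {ι η : Type} {a : α} {D : Set (ι → Option α)} (h : Ins a D)
    (σ : ι → Option α ⊕ η) : Ins a {t | ev σ t ∈ D} := by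
  intro t
  change ev σ (rep a t) ∈ D ↔ ev σ t ∈ D
  rw [← h (ev σ (rep a t)), rep_ev, h]

lemma Ins.compl {ι : Type} {a : α} {D : Set (ι → Option α)} (h : Ins a D) : Ins a Dᶜ := by
  intro t
  rw [Set.mem_compl_iff, Set.mem_compl_iff, h t]

/-- Mixing a pattern and a word. -/
def mix {ι : Type} (c : ι → Option α) (y : ι → α) : ι → Option α := fun i => (c i).map fun _ => y i

/-- The swap involution. -/
def swp {ι : Type} (z : (ι → Option α) × (ι → α)) : (ι → Option α) × (ι → α) :=
  (mix z.1 z.2, fun i => (z.1 i).getD (z.2 i))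

lemma swp_invol {ι : Type} : Involutive (swp (α := α) (ι := ι)) := by
  rintro ⟨c, y⟩
  unfold swp mix
  ext i
  · cases h : c i <;> simp [h]
  · cases h : c i <;> simp [h]

variable [Fintype α]

lemma av_mix [Nonempty α] {ι : Type} [Fintype ι] [DecidableEq ι] (g : (ι → Option α) → ℝ) :
    av (fun c : ι → Option α => av fun y : ι → α => g (mix c y)) = av g := by
  rw [← av_prod (f := fun z : (ι → Option α) × (ι → α) => g (mix z.1 z.2))]
  have h := av_equiv (swp_invol (α := α) (ι := ι)).toPerm
    (fun z : (ι → Option α) × (ι → α) => g z.1)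
  have h2 : av (fun z : (ι → Option α) × (ι → α) => g z.1) = av g := by
    rw [av_prod]
    congr 1
    funext x
    exact av_const (X := ι → α) (g x)
  rw [← h2, ← h]
  rfl

lemma dens_none_lt [Nonempty α] : dens ({none} : Set (Option α)) < 1 := by
  obtain ⟨a⟩ := ‹Nonempty α›
  exact dens_lt_one (b := some a) (by simp)

/-- Finding a subspace in an insensitive dense set. -/
lemma exists_subspace_ins (h : DensityHJ α) [Nonempty α] (m : ℕ) (ε : ℝ) (hε : 0 < ε) :
    ∃ N : ℕ, ∀ (ι : Type) [Fintype ι] [DecidableEq ι], N ≤ Fintype.card ι →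
    ∀ (a : α) (D : Set (ι → Option α)), Ins a D → ε ≤ dens D →
    ∃ σ : ι → Option α ⊕ Fin m, Proper σ ∧ ∀ t, ev σ t ∈ D := by
  obtain ⟨M, hM⟩ := mdhj h m (ε/2) (half_pos hε)
  obtain ⟨l, hl⟩ := exists_pow_small ((M+1 : ℕ) : ℝ) (dens_nonneg ({none} : Set (Option α)))
    dens_none_lt (half_pos hε)
  have hl := hl l le_rfl
  refine ⟨(M+1) * l, fun ι _ _ hι a D hD hd => ?_⟩
  obtain ⟨row, hrow⟩ := exists_rows (M+1) l (Nat.succ_pos M) hι
  let Bad : Set (ι → Option α) := {x | ∃ r, ∀ i, row i = r → x i ∈ ({none} : Set (Option α))}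
  have hBad : dens Bad < ε/2 := lt_of_le_of_lt (dens_rows_le _ (M+1) l row hrow) hl
  have h1 : ε/2 ≤ av (fun c => av fun y : ι → α => ind (D \ Bad) (mix c y)) := by
    rw [av_mix]
    have h2 : dens D ≤ av (ind (D \ Bad)) + dens Bad := by
      unfold dens
      rw [← av_add]
      refine av_mono fun x => ?_
      by_cases hx : x ∈ D
      · by_cases hx2 : x ∈ Bad
        · rw [ind_mem hx, ind_mem hx2, ind_not_mem (fun h => h.2 hx2)]; norm_num
        · rw [ind_mem hx, ind_not_mem hx2, ind_mem (A := D \ Bad) ⟨hx, hx2⟩]; norm_num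
      · rw [ind_not_mem hx]
        exact add_nonneg (ind_nonneg _ _) (ind_nonneg _ _)
    linarith
  obtain ⟨c, hc⟩ := exists_le_of_le_av h1
  have hbadmix : ∀ y : ι → α, (mix c y ∈ Bad ↔ c ∈ Bad) := by
    intro y
    simp [Bad, mix]
  have hcb : c ∉ Bad := by
    intro hcb
    have : av (fun y : ι → α => ind (D \ Bad) (mix c y)) = 0 := by
      have e : (fun y : ι → α => ind (D \ Bad) (mix c y)) = fun _ => 0 := by
        funext y
        exact ind_not_mem fun h => h.2 ((hbadmix y).2 hcb)
      rw [e]; simp [av]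
    linarith
  let p : ι → Prop := fun i => (c i).isSome = true
  have hcard : M ≤ Fintype.card {i // p i} := by
    have h3 : ∀ r : Fin (M+1), ∃ i, row i = r ∧ p i := by
      intro r
      by_contra hcon
      push Not at hcon
      refine hcb ⟨r, fun i hi => ?_⟩
      have := hcon i hi
      simpa [p] using this
    choose g hg1 hg2 using h3
    have h4 : Injective (fun r => (⟨g r, hg2 r⟩ : {i // p i})) := by
      intro r r' hr
      have : g r = g r' := by simpa using hr
      rw [← hg1 r, ← hg1 r', this]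
    have := Fintype.card_le_of_injective _ h4
    simp only [Fintype.card_fin] at this
    omega
  have h5 : ε/2 ≤ av (fun y'' : {i // ¬ p i} → α => av fun y' : {i // p i} → α =>
      ind (D \ Bad) (mix c (glue p y' y''))) := by
    rw [← av_glue p (fun y => ind (D \ Bad) (mix c y))]
    exact hc
  obtain ⟨y'', hy''⟩ := exists_le_of_le_av h5
  have h6 : ε/2 ≤ dens {y' : {i // p i} → α | mix c (glue p y' y'') ∈ D} := by
    refine hy''.trans (av_mono fun y' => ?_)
    by_cases hx : mix c (glue p y' y'') ∈ D \ Bad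
    · rw [ind_mem hx, ind_mem (by exact hx.1)]
    · rw [ind_not_mem hx]; exact ind_nonneg _ _
  obtain ⟨τ, hτ1, hτ2⟩ := hM _ hcard _ h6
  refine ⟨fun i => if hi : p i then Sum.map some id (τ ⟨i, hi⟩) else Sum.inl none, ?_, ?_⟩
  · intro e
    obtain ⟨⟨i, hi⟩, hi2⟩ := hτ1 e
    refine ⟨i, ?_⟩
    simp [hi, hi2]
  · intro t
    have h7 := hτ2 (fun e => (t e).getD a)
    have h8 : mix c (glue p (ev τ (fun e => (t e).getD a)) y'') ∈ D := h7
    rw [← hD] at h8 ⊢
    convert h8 using 1
    funext i
    unfold rep ev mix glue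
    by_cases hi : p i
    · obtain ⟨b, hb⟩ := Option.isSome_iff_exists.1 hi
      simp only [hi, dif_pos, hb]
      cases hui : τ ⟨i, hi⟩ <;> simp
    · have hb : c i = none := by simpa [p] using hi
      simp [hb, p]


omit [Fintype α] in
lemma glue_rep {ι : Type} (p : ι → Prop) [DecidablePred p] (a : α) {D : Set (ι → Option α)}
    (hD : Ins a D) (t : {i // p i} → Option α) (y : {i // ¬ p i} → Option α) :
    glue p t (rep a y) ∈ D ↔ glue p t y ∈ D := by
  have h := hD.pull (secW' p t) y
  simpa [ev_secW'] using h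

/-- Sums over subspaces. -/
lemma sum_range {κ η : Type} [Fintype κ] [DecidableEq κ] [Fintype η] [DecidableEq η]
    {β : Type} [Fintype β] [Nonempty β]
    (σ : κ → β ⊕ η) (hσ : Proper σ) (f : (κ → β) → ℝ) (h : av (fun t => f (ev σ t)) ≤ 0) :
    av (fun x => f x * ind (Set.range (ev σ)) x) ≤ 0 := by
  classical
  rw [av_eq_sum] at h ⊢
  have h1 : ∑ t, f (ev σ t) ≤ 0 := by
    have h2 : (0:ℝ) < Fintype.card (η → β) := by exact_mod_cast Fintype.card_pos
    by_contra hcon
    push Not at hcon
    have := div_pos hcon h2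
    linarith
  refine div_nonpos_of_nonpos_of_nonneg ?_ (by positivity)
  refine le_trans (le_of_eq ?_) h1
  have h3 : ∀ x, f x * ind (Set.range (ev σ)) x = if x ∈ Finset.univ.image (ev σ) then f x else 0 := by
    intro x
    by_cases hx : x ∈ Set.range (ev σ)
    · rw [ind_mem hx, if_pos (by simpa using hx), mul_one]
    · rw [ind_not_mem hx, if_neg (by simpa using hx), mul_zero]
  simp_rw [h3]
  rw [Finset.sum_ite_mem, Finset.univ_inter, Finset.sum_image]
  intro x _ y _ hxy
  exact ev_injective hσ hxy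

lemma dens_pos_of_mem {X : Type} [Fintype X] {A : Set X} {x : X} (hx : x ∈ A) :
    1 / (Fintype.card X : ℝ) ≤ dens A := by
  classical
  unfold dens
  rw [av_eq_sum]
  have h0 : (0:ℝ) < Fintype.card X := by exact_mod_cast Fintype.card_pos_iff.2 ⟨x⟩
  rw [div_le_div_iff_of_pos_right h0]
  calc (1:ℝ) = ind A x := (ind_mem hx).symm
    _ ≤ _ := Finset.single_le_sum (f := fun u => ind A u) (fun r _ => ind_nonneg _ _)
      (Finset.mem_univ x)

/-- Inductive form of the partition lemma for one insensitive set. -/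
lemma single_aux [Nonempty α] (a : α) (m n0 : ℕ) (ε : ℝ) (hε : 0 < ε)
    (hn0 : ∀ (ι : Type) [Fintype ι] [DecidableEq ι], n0 ≤ Fintype.card ι →
      ∀ (D : Set (ι → Option α)), Ins a D → ε ≤ dens D →
      ∃ σ : ι → Option α ⊕ Fin m, Proper σ ∧ ∀ t, ev σ t ∈ D) (c : ℝ)
    (hc : c = 1 / ((Fintype.card (Option α) : ℝ) ^ n0)) (r : ℕ) :
    ∀ (ι : Type) [Fintype ι] [DecidableEq ι], r * n0 ≤ Fintype.card ι →
      ∀ (D : Set (ι → Option α)), Ins a D → ∀ f : (ι → Option α) → ℝ, (∀ x, f x ≤ 1) →
      (∀ σ : ι → Option α ⊕ Fin m, Proper σ → av (fun t => f (ev σ t)) ≤ 0) →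
      av (fun x => f x * ind D x) ≤ (1 - c) ^ r * (dens D - ε) + ε := by
  have hK : (1:ℝ) ≤ (Fintype.card (Option α) : ℝ) ^ n0 := by
    refine one_le_pow₀ ?_
    exact_mod_cast Fintype.card_pos
  have hc0 : 0 ≤ c := by rw [hc]; positivity
  have hc1 : c ≤ 1 := by rw [hc, div_le_one (by linarith)]; exact hK
  induction r with
  | zero =>
    intro ι _ _ _ D hD f hf _
    rw [pow_zero, one_mul, sub_add_cancel]
    refine av_mono fun x => ?_
    calc f x * ind D x ≤ 1 * ind D x := mul_le_mul_of_nonneg_right (hf x) (ind_nonneg _ _)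
      _ = ind D x := one_mul _
  | succ r ih =>
    intro ι _ _ hι D hD f hf hσ
    obtain ⟨p, _, hp1, hp2⟩ := exists_finset_card (ι := ι) n0 (r * n0) (by
      calc n0 + r * n0 = (r+1) * n0 := by ring
        _ ≤ _ := hι)
    -- choice of subspaces
    have hex : ∀ B : Set ({i // p i} → Option α), ∃ V : Set ({i // p i} → Option α),
        (Ins a B → ε ≤ dens B → (V ⊆ B ∧ c ≤ dens V ∧ ∃ σ : {i // p i} → Option α ⊕ Fin m,
          Proper σ ∧ V = Set.range (ev σ))) ∧ (¬ (Ins a B ∧ ε ≤ dens B) → V = ∅) := by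
      intro B
      by_cases hB : Ins a B ∧ ε ≤ dens B
      · obtain ⟨σ, hσ1, hσ2⟩ := hn0 _ (le_of_eq hp1.symm) B hB.1 hB.2
        refine ⟨Set.range (ev σ), fun _ _ => ⟨?_, ?_, σ, hσ1, rfl⟩, fun h => absurd hB h⟩
        · rintro _ ⟨t, rfl⟩
          exact hσ2 t
        · have := dens_pos_of_mem (A := Set.range (ev σ)) (x := ev σ (fun _ => none)) ⟨_, rfl⟩
          rw [hc]
          refine le_trans (le_of_eq ?_) this
          simp [hp1]
      · exact ⟨∅, fun h1 h2 => absurd ⟨h1, h2⟩ hB, fun _ => rfl⟩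
    choose V hV1 hV2 using hex
    let S : ({i // ¬ p i} → Option α) → Set ({i // p i} → Option α) := fun y => {t | glue p t y ∈ D}
    have hSins : ∀ y, Ins a (S y) := by
      intro y
      have := hD.pull (secW p y)
      simpa [S, ev_secW] using this
    have hSrep : ∀ y, S (rep a y) = S y := by
      intro y
      ext t
      exact glue_rep p a hD t y
    let D' : ({i // p i} → Option α) → Set ({i // ¬ p i} → Option α) :=
      fun t => {y | t ∈ S y \ V (S y)}
    have hD'ins : ∀ t, Ins a (D' t) := by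
      intro t y
      change t ∈ S (rep a y) \ V (S (rep a y)) ↔ t ∈ S y \ V (S y)
      rw [hSrep]
    -- pointwise bound on each section
    have hsec : ∀ y, dens (S y \ V (S y)) ≤ (1 - c) * dens (S y) + c * ε := by
      intro y
      by_cases hy : ε ≤ dens (S y)
      · obtain ⟨h1, h2, -⟩ := hV1 (S y) (hSins y) hy
        have h3 : dens (S y \ V (S y)) = dens (S y) - dens (V (S y)) := by
          unfold dens
          rw [← av_sub]
          congr 1
          funext t
          by_cases ht : t ∈ V (S y)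
          · rw [ind_not_mem (fun h => h.2 ht), ind_mem ht, ind_mem (h1 ht)]; ring
          · rw [ind_not_mem ht, sub_zero]
            exact ind_congr ⟨fun h => h.1, fun h => ⟨h, ht⟩⟩
        have h4 := dens_le_one (S y)
        rw [h3]
        nlinarith
      · have h0 : ¬ (Ins a (S y) ∧ ε ≤ dens (S y)) := fun h => hy h.2
        rw [hV2 _ h0, Set.sdiff_empty]
        push Not at hy
        nlinarith
    have hdens : av (fun t => dens (D' t)) ≤ (1 - c) * dens D + c * ε := by
      have e1 : av (fun t => dens (D' t)) = av (fun y => dens (S y \ V (S y))) := by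
        unfold dens
        rw [av_comm]
        rfl
      have e2 : dens D = av (fun y => dens (S y)) := by
        unfold dens
        rw [av_glue p]
        rfl
      rw [e1, e2, ← av_const_mul]
      have hne : Nonempty ({i // ¬ p i} → Option α) := inferInstance
      calc av (fun y => dens (S y \ V (S y))) ≤ av (fun y => (1 - c) * dens (S y) + c * ε) :=
            av_mono hsec
        _ = _ := by rw [av_add, av_const]
    -- splitting
    have hsplit : av (fun x => f x * ind D x) ≤
        av (fun t => av fun y => f (glue p t y) * ind (D' t) y) := by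
      rw [av_glue p, av_comm (fun t y => f (glue p t y) * ind (D' t) y)]
      refine av_mono fun y => ?_
      have h1 : av (fun t => f (glue p t y) * ind (V (S y)) t) ≤ 0 := by
        by_cases hy : ε ≤ dens (S y)
        · obtain ⟨-, -, σ, hσ1, hσ2⟩ := hV1 (S y) (hSins y) hy
          rw [hσ2]
          refine sum_range σ hσ1 (fun t => f (glue p t y)) ?_
          have := hσ (cmp (secW p y) σ) ((proper_secW p y).cmp hσ1)
          simpa [ev_cmp, ev_secW] using this
        · have h0 : ¬ (Ins a (S y) ∧ ε ≤ dens (S y)) := fun h => hy h.2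
          rw [hV2 _ h0]
          have : (fun t => f (glue p t y) * ind (∅ : Set ({i // p i} → Option α)) t) = fun _ => 0 := by
            funext t
            rw [ind_not_mem (by simp), mul_zero]
          rw [this]; simp [av]
      have h2 : av (fun t => f (glue p t y) * ind D (glue p t y)) =
          av (fun t => f (glue p t y) * ind (V (S y)) t) +
          av (fun t => f (glue p t y) * ind (D' t) y) := by
        rw [← av_add]
        congr 1
        funext t
        rw [← mul_add]
        congr 1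
        by_cases ht : t ∈ V (S y)
        · have hsub : V (S y) ⊆ S y := by
            by_cases hy : ε ≤ dens (S y)
            · exact (hV1 (S y) (hSins y) hy).1
            · rw [hV2 _ (fun h => hy h.2)]; exact Set.empty_subset _
          have h3 : glue p t y ∈ D := hsub ht
          rw [ind_mem h3, ind_mem ht, ind_not_mem (A := D' t) (fun h => h.2 ht)]; ring
        · rw [ind_not_mem ht, zero_add]
          exact ind_congr (A := D) (B := D' t) ⟨fun h => ⟨h, ht⟩, fun h => h.1⟩
      rw [h2]
      linarith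
    refine hsplit.trans ?_
    have hih : ∀ t, av (fun y => f (glue p t y) * ind (D' t) y) ≤
        (1 - c) ^ r * (dens (D' t) - ε) + ε := by
      intro t
      refine ih _ hp2 (D' t) (hD'ins t) (fun y => f (glue p t y)) (fun y => hf _) ?_
      intro σ hσ1
      have := hσ (cmp (secW' p t) σ) ((proper_secW' p t).cmp hσ1)
      simpa [ev_cmp, ev_secW'] using this
    have hpow : 0 ≤ (1 - c) ^ r := pow_nonneg (by linarith) r
    calc av (fun t => av fun y => f (glue p t y) * ind (D' t) y)
        ≤ av (fun t => (1 - c) ^ r * (dens (D' t) - ε) + ε) := av_mono hih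
      _ = (1 - c) ^ r * (av (fun t => dens (D' t)) - ε) + ε := by
          rw [av_add, av_const_mul, av_sub, av_const]
      _ ≤ (1 - c) ^ r * (((1 - c) * dens D + c * ε) - ε) + ε := by
          have := mul_le_mul_of_nonneg_left (sub_le_sub_right hdens ε) hpow
          linarith
      _ = (1 - c) ^ (r+1) * (dens D - ε) + ε := by ring

/-- The partition lemma for one insensitive set. -/
lemma single (h : DensityHJ α) [Nonempty α] (m : ℕ) (ε : ℝ) (hε : 0 < ε) :
    ∃ N : ℕ, ∀ (ι : Type) [Fintype ι] [DecidableEq ι], N ≤ Fintype.card ι →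
      ∀ (a : α) (D : Set (ι → Option α)), Ins a D → ∀ f : (ι → Option α) → ℝ, (∀ x, f x ≤ 1) →
      (∀ σ : ι → Option α ⊕ Fin m, Proper σ → av (fun t => f (ev σ t)) ≤ 0) →
      av (fun x => f x * ind D x) ≤ ε := by
  obtain ⟨n0, hn0⟩ := exists_subspace_ins h m (ε/2) (half_pos hε)
  have hK : (1:ℝ) ≤ (Fintype.card (Option α) : ℝ) ^ n0 := by
    refine one_le_pow₀ ?_
    exact_mod_cast Fintype.card_pos
  set c : ℝ := 1 / ((Fintype.card (Option α) : ℝ) ^ n0) with hc
  have hc0 : 0 < c := by rw [hc]; positivity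
  have hc1 : c ≤ 1 := by rw [hc, div_le_one (by linarith)]; exact hK
  obtain ⟨r, hr⟩ := exists_pow_small 1 (ρ := 1 - c) (by linarith) (by linarith) (half_pos hε)
  have hr := hr r le_rfl
  refine ⟨r * n0, fun ι _ _ hι a D hD f hf hσ => ?_⟩
  have h1 := single_aux a m n0 (ε/2) (half_pos hε) (fun ι _ _ hι D hD hd => hn0 ι hι a D hD hd)
    c hc r ι hι D hD f hf hσ
  have h2 : (1 - c) ^ r * (dens D - ε/2) ≤ (1 - c) ^ r * 1 := by
    refine mul_le_mul_of_nonneg_left ?_ (pow_nonneg (by linarith) r)
    have := dens_le_one D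
    linarith
  linarith

omit [Fintype α] in
lemma prod_ind_nonneg {ι : Type} (S : Finset α) (D : α → Set (ι → Option α)) (x : ι → Option α) :
    0 ≤ ∏ b ∈ S, ind (D b) x := Finset.prod_nonneg fun _ _ => ind_nonneg _ _

omit [Fintype α] in
lemma prod_ind_le_one {ι : Type} (S : Finset α) (D : α → Set (ι → Option α)) (x : ι → Option α) :
    ∏ b ∈ S, ind (D b) x ≤ 1 := Finset.prod_le_one (fun _ _ => ind_nonneg _ _) fun _ _ => ind_le_one _ _

/-- The partition lemma for intersections of insensitive sets. -/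
lemma multi (h : DensityHJ α) [Nonempty α] [DecidableEq α] (S : Finset α) : ∀ (m : ℕ) (ε : ℝ), 0 < ε →
    ∃ N : ℕ, ∀ (ι : Type) [Fintype ι] [DecidableEq ι], N ≤ Fintype.card ι →
      ∀ (D : α → Set (ι → Option α)), (∀ a ∈ S, Ins a (D a)) →
      ∀ f : (ι → Option α) → ℝ, (∀ x, f x ≤ 1) →
      (∀ σ : ι → Option α ⊕ Fin m, Proper σ → av (fun t => f (ev σ t)) ≤ 0) →
      av (fun x => f x * ∏ b ∈ S, ind (D b) x) ≤ ε := by
  induction S using Finset.induction_on with
  | empty =>
    intro m ε hε
    obtain ⟨N, hN⟩ := single h m ε hε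
    refine ⟨N, fun ι _ _ hι D hD f hf hσ => ?_⟩
    obtain ⟨a⟩ := ‹Nonempty α›
    have := hN ι hι a Set.univ (fun _ => by simp) f hf hσ
    refine le_trans (le_of_eq ?_) this
    congr 1
    funext x
    rw [Finset.prod_empty, ind_mem (Set.mem_univ x)]
  | insert a S ha ih =>
    intro m ε hε
    obtain ⟨m1, hm1⟩ := ih m (ε/2) (half_pos hε)
    obtain ⟨N, hN⟩ := single h m1 (ε/2) (half_pos hε)
    refine ⟨N, fun ι _ _ hι D hD f hf hσ => ?_⟩
    have h1 := hN ι hι a (D a) (hD a (Finset.mem_insert_self _ _))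
      (fun x => f x * (∏ b ∈ S, ind (D b) x) - ε/2) (fun x => by
        have h2 := prod_ind_nonneg S D x
        have h3 := prod_ind_le_one S D x
        have h4 := hf x
        have h5 : f x * ∏ b ∈ S, ind (D b) x ≤ 1 * ∏ b ∈ S, ind (D b) x :=
          mul_le_mul_of_nonneg_right h4 h2
        linarith)
      (fun σ hσ1 => by
        have h2 := hm1 (Fin m1) (by simp) (fun b => {t | ev σ t ∈ D b})
          (fun b hb => (hD b (Finset.mem_insert_of_mem hb)).pull σ) (fun t => f (ev σ t))
          (fun t => hf _) (fun τ hτ => by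
            have := hσ (cmp σ τ) (hσ1.cmp hτ)
            simpa [ev_cmp] using this)
        rw [av_sub, av_const]
        have h3 : av (fun t => f (ev σ t) * ∏ b ∈ S, ind (D b) (ev σ t)) ≤ ε/2 := h2
        linarith)
    have h2 : av (fun x => f x * ∏ b ∈ insert a S, ind (D b) x) =
        av (fun x => (f x * (∏ b ∈ S, ind (D b) x) - ε/2) * ind (D a) x) + ε/2 * dens (D a) := by
      unfold dens
      rw [← av_const_mul, ← av_add]
      congr 1
      funext x
      rw [Finset.prod_insert ha]
      ring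
    rw [h2]
    have h3 : ε/2 * dens (D a) ≤ ε/2 * 1 := mul_le_mul_of_nonneg_left (dens_le_one _) (by linarith)
    linarith

/-- The partition lemma for complements of intersections of insensitive sets. -/
lemma multi_compl (h : DensityHJ α) [Nonempty α] [DecidableEq α] (S : Finset α) :
    ∀ (m : ℕ) (ε : ℝ), 0 < ε →
    ∃ N : ℕ, ∀ (ι : Type) [Fintype ι] [DecidableEq ι], N ≤ Fintype.card ι →
      ∀ (D : α → Set (ι → Option α)), (∀ a ∈ S, Ins a (D a)) →
      ∀ f : (ι → Option α) → ℝ, (∀ x, f x ≤ 1) →
      (∀ σ : ι → Option α ⊕ Fin m, Proper σ → av (fun t => f (ev σ t)) ≤ 0) →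
      av (fun x => f x * (1 - ∏ b ∈ S, ind (D b) x)) ≤ ε := by
  induction S using Finset.induction_on with
  | empty =>
    intro m ε hε
    refine ⟨0, fun ι _ _ hι D hD f hf hσ => ?_⟩
    have : (fun x => f x * (1 - ∏ b ∈ (∅ : Finset α), ind (D b) x)) = fun _ => 0 := by
      funext x; simp
    rw [this, av_const]
    exact hε.le
  | insert a S ha ih =>
    intro m ε hε
    obtain ⟨N1, hN1⟩ := ih m (ε/2) (half_pos hε)
    obtain ⟨N2, hN2⟩ := multi h (insert a S) m (ε/2) (half_pos hε)
    refine ⟨max N1 N2, fun ι _ _ hι D hD f hf hσ => ?_⟩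
    have h1 := hN1 ι ((le_max_left _ _).trans hι) D (fun b hb => hD b (Finset.mem_insert_of_mem hb))
      f hf hσ
    have h2 := hN2 ι ((le_max_right _ _).trans hι) (Function.update D a (D a)ᶜ) (fun b hb => by
        by_cases hba : b = a
        · subst hba
          simpa using (hD b hb).compl
        · rw [Function.update_of_ne hba]
          exact hD b hb) f hf hσ
    have h3 : av (fun x => f x * (1 - ∏ b ∈ insert a S, ind (D b) x)) =
        av (fun x => f x * (1 - ∏ b ∈ S, ind (D b) x)) +
        av (fun x => f x * ∏ b ∈ insert a S, ind (Function.update D a (D a)ᶜ b) x) := by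
      rw [← av_add]
      congr 1
      funext x
      rw [Finset.prod_insert ha, Finset.prod_insert ha]
      have h4 : ∏ b ∈ S, ind (Function.update D a (D a)ᶜ b) x = ∏ b ∈ S, ind (D b) x := by
        refine Finset.prod_congr rfl fun b hb => ?_
        rw [Function.update_of_ne (fun hba : b = a => ha (by rw [← hba]; exact hb))]
      rw [h4, Function.update_self, ind_compl]
      ring
    rw [h3]
    linarith

/-- Supersaturation: from one good line in every small subspace to many good lines. -/
lemma supersat [Nonempty α] (m0 M : ℕ)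
    (hM : (m0 : ℝ) * (dens ({none}ᶜ : Set (Option α))) ^ M < 1/2)
    (ι : Type) [Fintype ι] [DecidableEq ι] (row : ι → Fin m0)
    (hrow : ∀ r, ∃ g : Fin M → ι, Injective g ∧ ∀ j, row (g j) = r)
    (G : Set (ι → Option α))
    (hG : ∀ σ : ι → Option α ⊕ Fin m0, Proper σ → (∀ i, σ i ≠ Sum.inl none) →
      ∃ u : Fin m0 → Option α, (∃ r, u r = none) ∧ ev σ u ∈ G) :
    ∃ p : ι → Prop, ∃ _ : DecidablePred p, M ≤ Fintype.card {i // p i} ∧
      ∃ y : {i // ¬ p i} → α, 1 / (2 * (Fintype.card (Fin m0 → Option α) : ℝ)) ≤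
        av (fun t : {i // p i} → Option α => ind G (glue p t (fun i => some (y i)))) := by
  classical
  by_contra hcon
  push Not at hcon
  set L : ℝ := (Fintype.card (Fin m0 → Option α) : ℝ) with hL
  have hLpos : 0 < L := by rw [hL]; exact_mod_cast Fintype.card_pos
  let W : (ι → Option α) → ι → Option α ⊕ Fin m0 := fun c i =>
    match c i with
    | none => Sum.inr (row i)
    | some b => Sum.inl (some b)
  have hbound : ∀ u : Fin m0 → Option α, av (fun c => if (∃ r, u r = none) then ind G (ev (W c) u) else 0) ≤ 1 / (2 * L) := by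
    intro u
    by_cases hu : ∃ r, u r = none
    · simp only [hu, if_true]
      let p : ι → Prop := fun i => u (row i) = none
      have hcard : M ≤ Fintype.card {i // p i} := by
        obtain ⟨r, hr⟩ := hu
        obtain ⟨g, hg1, hg2⟩ := hrow r
        have h4 : Injective (fun j => (⟨g j, by simp [p, hg2, hr]⟩ : {i // p i})) := by
          intro j j' hj
          exact hg1 (by simpa using hj)
        have := Fintype.card_le_of_injective _ h4
        simpa using this
      have hlt := hcon p inferInstance hcard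
      rw [av_glue p]
      have hne : Nonempty ({i // ¬ p i} → Option α) := inferInstance
      refine av_le_of_le fun y'' => ?_
      obtain ⟨a0⟩ := ‹Nonempty α›
      have h5 := hlt (fun i => (y'' i).getD ((u (row i.1)).getD a0))
      refine le_trans (le_of_eq ?_) h5.le
      congr 1
      funext t
      congr 1
      funext i
      by_cases hi : p i
      · have hi' : u (row i) = none := hi
        cases ht : t ⟨i, hi⟩ <;> simp [ev, W, glue, hi, ht, hi']
      · have hi' : u (row i) ≠ none := hi
        obtain ⟨b, hb⟩ := Option.ne_none_iff_exists'.1 hi'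
        cases ht : y'' ⟨i, hi⟩ <;> simp [ev, W, glue, hi, ht, hb]
    · simp only [hu, if_false]
      rw [av_const]
      positivity
  have hB := dens_rows_le (ι := ι) ({none}ᶜ : Set (Option α)) m0 M row hrow
  set Bad : Set (ι → Option α) := {x | ∃ r, ∀ i, row i = r → x i ∈ ({none}ᶜ : Set (Option α))} with hBad
  have htot : av (fun c => (∑ u : Fin m0 → Option α, if (∃ r, u r = none) then ind G (ev (W c) u) else 0)
      + ind Bad c) < 1 := by
    rw [av_add, av_sum]
    have h1 : ∑ u : Fin m0 → Option α, av (fun c => if (∃ r, u r = none) then ind G (ev (W c) u) else 0)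
        ≤ ∑ _u : Fin m0 → Option α, 1 / (2 * L) := Finset.sum_le_sum fun u _ => hbound u
    rw [Finset.sum_const, Finset.card_univ, nsmul_eq_mul, ← hL] at h1
    have h2 : L * (1 / (2 * L)) = 1/2 := by field_simp
    have h3 : av (ind Bad) = dens Bad := rfl
    rw [h3]
    linarith
  obtain ⟨c, hc⟩ := exists_lt_of_av_lt htot
  have hnn : ∀ u : Fin m0 → Option α, 0 ≤ (if (∃ r, u r = none) then ind G (ev (W c) u) else 0) := by
    intro u
    split_ifs
    · exact ind_nonneg _ _
    · exact le_rfl
  have hcB : c ∉ Bad := by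
    intro hcB
    rw [ind_mem hcB] at hc
    have := Finset.sum_nonneg (s := Finset.univ) fun u _ => hnn u
    linarith
  have hproper : Proper (W c) := by
    intro r
    have h1 : ¬ ∀ i, row i = r → c i ∈ ({none}ᶜ : Set (Option α)) := fun h => hcB ⟨r, h⟩
    push Not at h1
    obtain ⟨i, hi1, hi2⟩ := h1
    have hi3 : c i = none := by simpa using hi2
    exact ⟨i, by simp [W, hi3, hi1]⟩
  obtain ⟨u, hu1, hu2⟩ := hG (W c) hproper (by
    intro i
    cases h : c i <;> simp [W, h])
  have h6 : (1:ℝ) ≤ ∑ u : Fin m0 → Option α, if (∃ r, u r = none) then ind G (ev (W c) u) else 0 := by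
    calc (1:ℝ) = (if (∃ r, u r = none) then ind G (ev (W c) u) else 0) := by
          rw [if_pos hu1, ind_mem hu2]
      _ ≤ _ := Finset.single_le_sum (f := fun u => if (∃ r, u r = none) then ind G (ev (W c) u) else 0)
            (fun u _ => hnn u) (Finset.mem_univ u)
  have := ind_nonneg Bad c
  linarith

omit [Fintype α] in
lemma ev_sum_left {ι κ β : Type} (t : ι → β) (x : κ → β) :
    ev (Sum.elim (fun i => Sum.inl (t i)) Sum.inr : ι ⊕ κ → β ⊕ κ) x = Sum.elim t x := by
  funext i
  cases i <;> simp [ev]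

omit [Fintype α] in
lemma ev_sum_right {ι κ β : Type} (t : ι → β) (x : κ → β) :
    ev (Sum.elim Sum.inr (fun i => Sum.inl (x i)) : ι ⊕ κ → β ⊕ ι) t = Sum.elim t x := by
  funext i
  cases i <;> simp [ev]

omit [Fintype α] in
lemma av_sum_elim {ι κ β : Type} [Fintype ι] [DecidableEq ι] [Fintype κ] [DecidableEq κ] [Fintype β]
    (f : (ι ⊕ κ → β) → ℝ) :
    av f = av (fun t : ι → β => av fun x : κ → β => f (Sum.elim t x)) := by
  rw [← av_prod (f := fun z : (ι → β) × (κ → β) => f (Sum.elim z.1 z.2))]
  rw [← av_equiv (Equiv.sumArrowEquivProdArrow ι κ β).symm f]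
  rfl

/-- The heart of the induction step. -/
lemma core (h : DensityHJ α) [Nonempty α] [DecidableEq α] (δ : ℝ) (hδ : 0 < δ)
    (H1 : ∀ γ : ℝ, 0 < γ → ∃ m : ℕ, ∀ (ι : Type) [Fintype ι] [DecidableEq ι], m ≤ Fintype.card ι →
      ∀ A : Set (ι → Option α), LineFree A → dens A ≤ δ + γ)
    (H2 : ∀ γ : ℝ, 0 < γ → ∀ (ι : Type) [Fintype ι] [DecidableEq ι],
      ∃ A : Set (ι → Option α), LineFree A ∧ δ - γ < dens A) : False := by
  obtain ⟨m0', hm0'⟩ := h (δ/4) (by positivity)
  set m0 := m0' + 1 with hm0
  set L : ℝ := (Fintype.card (Fin m0 → Option α) : ℝ) with hL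
  have hLpos : 0 < L := by rw [hL]; exact_mod_cast Fintype.card_pos
  set θ : ℝ := δ / 4 / L with hθ
  set θ' : ℝ := 1 / (2 * L) with hθ'
  have hθpos : 0 < θ := by positivity
  have hθ'pos : 0 < θ' := by positivity
  set η0 : ℝ := δ * θ * θ' with hη0
  have hη0pos : 0 < η0 := by positivity
  obtain ⟨γ, hγpos, hγ1, hγ2⟩ : ∃ γ : ℝ, 0 < γ ∧ γ ≤ η0/8 ∧ γ ≤ δ/2 :=
    ⟨min (η0/8) (δ/2), by positivity, min_le_left _ _, min_le_right _ _⟩
  set ε : ℝ := η0/8 with hε
  have hεpos : 0 < ε := by positivity
  obtain ⟨m', hm'⟩ := H1 γ hγpos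
  obtain ⟨Nc, hNc⟩ := multi_compl h (Finset.univ : Finset α) m' ε hεpos
  set ρ : ℝ := dens ({none}ᶜ : Set (Option α)) with hρ
  have hρ0 : 0 ≤ ρ := dens_nonneg _
  have hρ1 : ρ < 1 := dens_lt_one (b := none) (by simp)
  obtain ⟨M1, hM1⟩ := exists_pow_small (m0 : ℝ) hρ0 hρ1 (ε := 1/2) (by norm_num)
  obtain ⟨M2, hM2⟩ := exists_pow_small 1 hρ0 hρ1 hεpos
  obtain ⟨M, hMm, hMN, hMM1, hMM2⟩ : ∃ M, m' ≤ M ∧ Nc ≤ M ∧ M1 ≤ M ∧ M2 ≤ M :=
    ⟨m' + Nc + M1 + M2, by omega, by omega, by omega, by omega⟩
  let ι := Fin (m0 * M)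
  obtain ⟨row, hrow⟩ := exists_rows (ι := ι) m0 M (Nat.succ_pos _) (by simp [ι])
  set Kn : ℝ := (Fintype.card (ι → Option α) : ℝ) with hKn
  have hKnpos : 0 < Kn := by rw [hKn]; exact_mod_cast Fintype.card_pos
  set γ2 : ℝ := γ / (2 * Kn) with hγ2'
  have hγ2pos : 0 < γ2 := by positivity
  obtain ⟨n2, hn2⟩ := H1 γ2 hγ2pos
  let κ := Fin n2
  obtain ⟨A, hA, hAd⟩ := H2 γ2 hγ2pos (ι ⊕ κ)
  let At : (ι → Option α) → Set (κ → Option α) := fun t => {x | Sum.elim t x ∈ A}
  have hAtfree : ∀ t, LineFree (At t) := by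
    intro t
    have hp : Proper (Sum.elim (fun i => Sum.inl (t i)) Sum.inr : ι ⊕ κ → Option α ⊕ κ) :=
      fun e => ⟨Sum.inr e, rfl⟩
    have := hA.pull hp
    simpa only [ev_sum_left] using this
  have hAtle : ∀ t, dens (At t) ≤ δ + γ2 := fun t => hn2 κ (by simp [κ]) _ (hAtfree t)
  have hAtav : av (fun t => dens (At t)) = dens A := by
    unfold dens
    rw [av_sum_elim]
    rfl
  have hAtge : ∀ t, δ - γ ≤ dens (At t) := by
    intro t
    have h1 : δ + γ2 - dens (At t) ≤ ∑ s, (δ + γ2 - dens (At s)) :=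
      Finset.single_le_sum (f := fun s => δ + γ2 - dens (At s))
        (fun s _ => by have := hAtle s; linarith) (Finset.mem_univ t)
    have h2 : ∑ s, (δ + γ2 - dens (At s)) = Kn * (δ + γ2 - dens A) := by
      rw [Finset.sum_sub_distrib, Finset.sum_const, Finset.card_univ, nsmul_eq_mul, ← hKn,
        ← hAtav, av_eq_sum, ← hKn]
      field_simp
    have h3 : Kn * (δ + γ2 - dens A) ≤ Kn * (2 * γ2) :=
      mul_le_mul_of_nonneg_left (by linarith) hKnpos.le
    have h4 : Kn * (2 * γ2) = γ := by rw [hγ2']; field_simp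
    linarith
  let G : Set (ι → Option α) := {u | θ ≤ dens {x : κ → Option α | ∀ a : α, Sum.elim (rep a u) x ∈ A}}
  have hG : ∀ σ : ι → Option α ⊕ Fin m0, Proper σ → (∀ i, σ i ≠ Sum.inl none) →
      ∃ u : Fin m0 → Option α, (∃ r, u r = none) ∧ ev σ u ∈ G := by
    intro σ hσ1 hσ2
    let B : (κ → Option α) → Set (Fin m0 → α) := fun x => {s | Sum.elim (ev σ (fun i => some (s i))) x ∈ A}
    have h1 : δ/2 ≤ av (fun x => dens (B x)) := by
      have h2 : av (fun x => dens (B x)) = av (fun s : Fin m0 → α => dens (At (ev σ (fun i => some (s i))))) := by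
        unfold dens
        rw [av_comm]
        rfl
      rw [h2]
      calc δ/2 ≤ δ - γ := by linarith
        _ = av (fun _ : Fin m0 → α => δ - γ) := (av_const _).symm
        _ ≤ _ := av_mono fun s => hAtge _
    let Q : (Fin m0 → Option α) → Set (κ → Option α) := fun u => {x | (∃ r, u r = none) ∧ ∀ a, pt u a ∈ B x}
    have h2 : ∀ x, dens (B x) ≤ δ/4 + ∑ u, ind (Q u) x := by
      intro x
      by_cases hx : δ/4 ≤ dens (B x)
      · have h3 : ¬ LineFree (B x) := by
          intro hlf
          have := hm0' (Fin m0) (by simp [hm0]) _ hlf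
          linarith
        unfold LineFree at h3
        push Not at h3
        obtain ⟨u, hu1, hu2⟩ := h3
        have h4 : (1:ℝ) ≤ ∑ u, ind (Q u) x := by
          calc (1:ℝ) = ind (Q u) x := (ind_mem (A := Q u) ⟨hu1, hu2⟩).symm
            _ ≤ _ := Finset.single_le_sum (f := fun u => ind (Q u) x)
                (fun r _ => ind_nonneg _ _) (Finset.mem_univ u)
        have := dens_le_one (B x)
        linarith
      · have h4 : (0:ℝ) ≤ ∑ u, ind (Q u) x := Finset.sum_nonneg fun _ _ => ind_nonneg _ _
        linarith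
    have h5 : δ/4 ≤ ∑ u, dens (Q u) := by
      have h6 := av_mono h2
      rw [av_add, av_const, av_sum] at h6
      have h7 : ∑ j, av (ind (Q j)) = ∑ u, dens (Q u) := rfl
      have h8 : av (fun x => dens (B x)) = av (fun y => dens (B y)) := rfl
      rw [h7] at h6
      linarith
    have h9 : ∃ u, θ ≤ dens (Q u) := by
      by_contra hcon
      push Not at hcon
      have h10 : ∑ u, dens (Q u) < ∑ _u : (Fin m0 → Option α), θ :=
        Finset.sum_lt_sum_of_nonempty Finset.univ_nonempty fun u _ => hcon u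
      rw [Finset.sum_const, Finset.card_univ, nsmul_eq_mul, ← hL] at h10
      have h12 : L * θ = δ/4 := by rw [hθ]; field_simp
      linarith
    obtain ⟨u, hu⟩ := h9
    have huB : ∃ i, u i = none := by
      by_contra hcon
      have h0 : ∀ y, ind (Q u) y = 0 := fun y => ind_not_mem fun hy => hcon hy.1
      have : dens (Q u) = 0 := by
        unfold dens
        have e : ind (Q u) = fun _ => 0 := funext h0
        rw [e]; simp [av]
      linarith
    refine ⟨u, huB, hu.trans (av_mono fun x => ind_mono fun hx a => ?_)⟩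
    have h13 : Sum.elim (ev σ (fun i => some (pt u a i))) x ∈ A := hx.2 a
    convert h13 using 2
    funext i
    unfold rep ev pt
    cases hi : σ i with
    | inl c =>
      cases c with
      | none => exact absurd hi (hσ2 i)
      | some b => simp
    | inr e => simp
  obtain ⟨p, _, hpM, y, hy⟩ := supersat m0 M (hM1 M hMM1) ι row hrow G hG
  let Wt : ({i // p i} → Option α) → ι → Option α := fun t => glue p t (fun i => some (y i))
  have hWrep : ∀ a t, rep a (Wt t) = Wt (rep a t) := by
    intro a t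
    funext i
    by_cases hi : p i <;> simp [rep, Wt, glue, hi]
  let Ax : (κ → Option α) → Set ({i // p i} → Option α) := fun x => {t | Sum.elim (Wt t) x ∈ A}
  have hAxfree : ∀ x, LineFree (Ax x) := by
    intro x
    have hp : Proper (Sum.elim Sum.inr (fun i => Sum.inl (x i)) : ι ⊕ κ → Option α ⊕ ι) :=
      fun e => ⟨Sum.inl e, rfl⟩
    have h1 := hA.pull hp
    simp only [ev_sum_right] at h1
    have h2 := h1.pull (proper_secW p (fun i => some (y i)))
    simp only [ev_secW] at h2
    exact h2
  have hAxle : ∀ x, dens (Ax x) ≤ δ + γ := fun x => hm' _ (hMm.trans hpM) _ (hAxfree x)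
  let D : (κ → Option α) → α → Set ({i // p i} → Option α) := fun x a => {t | rep a t ∈ Ax x}
  have hDins : ∀ x a, Ins a (D x a) := by
    intro x a t
    change rep a (rep a t) ∈ Ax x ↔ rep a t ∈ Ax x
    have : rep a (rep a t) = rep a t := by funext i; simp [rep]
    rw [this]
  let P : (κ → Option α) → ({i // p i} → Option α) → ℝ := fun x t => ∏ a, ind (D x a) t
  have hP : ∀ x t, P x t = ind {x : κ → Option α | ∀ a : α, Sum.elim (rep a (Wt t)) x ∈ A} x := by
    intro x t
    by_cases hx : ∀ a : α, Sum.elim (rep a (Wt t)) x ∈ A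
    · rw [ind_mem (by exact hx)]
      refine Finset.prod_eq_one fun a _ => ind_mem ?_
      have := hx a
      rw [hWrep] at this
      exact this
    · rw [ind_not_mem (by exact hx)]
      push Not at hx
      obtain ⟨a, ha⟩ := hx
      refine Finset.prod_eq_zero (Finset.mem_univ a) (ind_not_mem ?_)
      rw [hWrep] at ha
      exact ha
  have hAxP : ∀ x t, ind (Ax x) t * P x t ≤ ind {t : {i // p i} → Option α | ∀ i, t i ∈ ({none}ᶜ : Set (Option α))} t := by
    intro x t
    by_cases ht : ∀ i, t i ∈ ({none}ᶜ : Set (Option α))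
    · rw [ind_mem (A := {t : {i // p i} → Option α | ∀ i, t i ∈ ({none}ᶜ : Set (Option α))}) ht]
      have h1 := ind_le_one (Ax x) t
      have h2 := prod_ind_nonneg Finset.univ (D x) t
      have h3 := prod_ind_le_one Finset.univ (D x) t
      calc ind (Ax x) t * P x t ≤ 1 * 1 := mul_le_mul h1 h3 h2 zero_le_one
        _ = 1 := one_mul 1
    · rw [ind_not_mem (A := {t : {i // p i} → Option α | ∀ i, t i ∈ ({none}ᶜ : Set (Option α))}) ht]
      push Not at ht
      obtain ⟨i, hi⟩ := ht
      have hi : t i = none := by simpa using hi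
      obtain ⟨c, hc⟩ := hAxfree x (fun i => (t i).map some) ⟨i, by simp [hi]⟩
      cases c with
      | none =>
        have e : pt (fun i => (t i).map some) none = t := by
          funext j
          cases hj : t j <;> simp [pt, hj]
        rw [e] at hc
        rw [ind_not_mem hc, zero_mul]
      | some a =>
        have e : pt (fun i => (t i).map some) (some a) = rep a t := by
          funext j
          cases hj : t j <;> simp [pt, rep, hj]
        rw [e] at hc
        have : P x t = 0 := Finset.prod_eq_zero (Finset.mem_univ a) (ind_not_mem hc)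
        rw [this, mul_zero]
  have hsmall : dens {t : {i // p i} → Option α | ∀ i, t i ∈ ({none}ᶜ : Set (Option α))} ≤ ε := by
    rw [av_prod_coord]
    have := hM2 (Fintype.card {i // p i}) (hMM2.trans hpM)
    rw [one_mul] at this
    exact this.le
  have hkey : ∀ x, dens (Ax x) ≤ (δ + γ) * (1 - av (P x)) + ε + ε := by
    intro x
    have h1 := hNc {i // p i} (hMN.trans hpM) (D x) (fun a _ => hDins x a)
      (fun t => ind (Ax x) t - (δ + γ)) (fun t => by
        have := ind_le_one (Ax x) t
        linarith) (fun σ hσ => by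
        rw [av_sub, av_const]
        have h2 : dens {t | ev σ t ∈ Ax x} ≤ δ + γ := hm' (Fin m') (by simp) _ ((hAxfree x).pull hσ)
        have h3 : av (fun t => ind (Ax x) (ev σ t)) = dens {t | ev σ t ∈ Ax x} := rfl
        linarith)
    have h2 : av (fun t => ind (Ax x) t * P x t) ≤ ε := (av_mono (hAxP x)).trans hsmall
    have h3 : dens (Ax x) = av (fun t => (ind (Ax x) t - (δ + γ)) * (1 - P x t)) +
        av (fun t => ind (Ax x) t * P x t) + (δ + γ) * (1 - av (P x)) := by
      have h4 : (δ + γ) * (1 - av (P x)) = av (fun t => (δ + γ) * (1 - P x t)) := by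
        rw [av_const_mul, av_sub, av_const]
      rw [h4, ← av_add, ← av_add]
      unfold dens
      congr 1
      funext t
      ring
    have h5 : av (fun t => (ind (Ax x) t - (δ + γ)) * (1 - P x t)) ≤ ε := h1
    linarith
  have hfin := av_mono hkey
  have h1 : av (fun x => dens (Ax x)) = av (fun t => dens (At (Wt t))) := by
    unfold dens
    rw [av_comm]
    rfl
  have h2 : δ - γ ≤ av (fun x => dens (Ax x)) := by
    rw [h1]
    calc δ - γ = av (fun _ : {i // p i} → Option α => δ - γ) := (av_const _).symm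
      _ ≤ _ := av_mono fun t => hAtge _
  have h3 : θ * θ' ≤ av (fun x => av (P x)) := by
    rw [av_comm]
    calc θ * θ' ≤ θ * av (fun t => ind G (Wt t)) := mul_le_mul_of_nonneg_left hy hθpos.le
      _ = av (fun t => θ * ind G (Wt t)) := (av_const_mul _ _).symm
      _ ≤ _ := av_mono fun t => by
        by_cases ht : Wt t ∈ G
        · rw [ind_mem ht, mul_one]
          refine le_trans ht (le_of_eq ?_)
          unfold dens
          congr 1
          funext x
          exact (hP x t).symm
        · rw [ind_not_mem ht, mul_zero]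
          exact av_nonneg fun x => prod_ind_nonneg Finset.univ (D x) t
  have h4 : av (fun x => (δ + γ) * (1 - av (P x)) + ε + ε) =
      (δ + γ) * (1 - av (fun x => av (P x))) + ε + ε := by
    rw [av_add, av_add, av_const_mul, av_sub, av_const, av_const]
  have h5 : (δ + γ) * (1 - av (fun x => av (P x))) ≤ (δ + γ) * (1 - θ * θ') :=
    mul_le_mul_of_nonneg_left (by linarith) (by linarith)
  have h6 : δ - γ ≤ (δ + γ) * (1 - θ * θ') + ε + ε := by
    calc δ - γ ≤ _ := h2
      _ ≤ _ := hfin
      _ = _ := h4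
      _ ≤ _ := by linarith
  have h7 : 0 ≤ γ * (θ * θ') := by positivity
  have h8 : (δ + γ) * (1 - θ * θ') = δ + γ - η0 - γ * (θ * θ') := by rw [hη0]; ring
  rw [h8] at h6
  linarith

end Insens

section Final

lemma dens_congr_equiv {X Y : Type} [Fintype X] [Fintype Y] (e : X ≃ Y) (A : Set Y) :
    dens {x | e x ∈ A} = dens A := by
  unfold dens
  rw [← av_equiv e (ind A)]
  rfl

/-- Bounds for line-free sets pass to larger dimensions. -/
lemma lf_mono {β : Type} [Fintype β] [Nonempty β] (b : ℝ) (ι ι' : Type) [Fintype ι] [DecidableEq ι]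
    [Fintype ι'] [DecidableEq ι'] (hle : Fintype.card ι ≤ Fintype.card ι')
    (h : ∀ A : Set (ι → β), LineFree A → dens A ≤ b) (A : Set (ι' → β)) (hA : LineFree A) :
    dens A ≤ b := by
  obtain ⟨g⟩ := Function.Embedding.nonempty_of_card_le hle
  let p : ι' → Prop := fun i => i ∈ Finset.univ.image g
  have hp : Fintype.card ι = Fintype.card {i // p i} := by
    simp only [p]
    rw [Fintype.card_coe, Finset.card_image_of_injective _ g.injective, Finset.card_univ]
  obtain ⟨e⟩ := Fintype.card_eq.1 hp
  have h1 : dens A = av (fun y : {i // ¬ p i} → β => dens {t : {i // p i} → β | glue p t y ∈ A}) := by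
    unfold dens
    rw [av_glue p]
    rfl
  rw [h1]
  refine av_le_of_le fun y => ?_
  have h2 : LineFree {t : {i // p i} → β | glue p t y ∈ A} := by
    have := hA.pull (proper_secW p y)
    simpa only [ev_secW] using this
  rw [← dens_congr_equiv (e.arrowCongr (Equiv.refl β))]
  refine h _ ?_
  have h3 : Proper (fun j : {i // p i} => (Sum.inr (e.symm j) : β ⊕ ι)) := fun i => ⟨e i, by simp⟩
  exact h2.pull h3

lemma dhj_option {α : Type} [Fintype α] (h : DensityHJ α) : DensityHJ (Option α) := by
  classical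
  cases isEmpty_or_nonempty α with
  | inl hemp =>
    intro δ hδ
    refine ⟨1, fun ι _ _ hι A hA => ?_⟩
    have hne : Nonempty ι := Fintype.card_pos_iff.1 (by omega)
    obtain ⟨i0⟩ := hne
    obtain ⟨b, hb⟩ := hA (fun _ => none) ⟨i0, rfl⟩
    have hsub : ∀ x : ι → Option α, x ∉ A := by
      intro x
      have : x = pt (fun _ => none) b := by
        funext i
        cases hx : x i with
        | none =>
          cases b with
          | none => rfl
          | some a => exact hemp.elim a
        | some a => exact hemp.elim a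
      rw [this]
      exact hb
    have : dens A = 0 := by
      unfold dens
      have e : ind A = fun _ => 0 := funext fun x => ind_not_mem (hsub x)
      rw [e, av_const]
    linarith
  | inr hne =>
    let S : Set ℝ := {b | ∃ n : ℕ, ∀ (ι : Type) [Fintype ι] [DecidableEq ι], n ≤ Fintype.card ι →
      ∀ A : Set (ι → Option α), LineFree A → dens A ≤ b}
    have hSne : S.Nonempty := ⟨1, 0, fun ι _ _ _ A _ => dens_le_one A⟩
    have hSnn : ∀ b ∈ S, 0 ≤ b := by
      rintro b ⟨n, hn⟩
      have h1 := hn (Fin n) (by simp) ∅ (fun u _ => ⟨none, by simp⟩)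
      exact (dens_nonneg _).trans h1
    have hSbdd : BddBelow S := ⟨0, hSnn⟩
    have hinf : sInf S = 0 := by
      by_contra hcon
      have hpos : 0 < sInf S := lt_of_le_of_ne (le_csInf hSne hSnn) (Ne.symm hcon)
      refine core h (sInf S) hpos ?_ ?_
      · intro γ hγ
        obtain ⟨b, hb, hb2⟩ := exists_lt_of_csInf_lt hSne (show sInf S < sInf S + γ by linarith)
        obtain ⟨n, hn⟩ := hb
        exact ⟨n, fun ι _ _ hι A hA => (hn ι hι A hA).trans hb2.le⟩
      · intro γ hγ ι _ _
        by_contra hno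
        push Not at hno
        have : sInf S - γ ∈ S := by
          refine ⟨Fintype.card ι, fun ι' _ _ hι' A' hA' => ?_⟩
          exact lf_mono (sInf S - γ) ι ι' hι' hno A' hA'
        have := csInf_le hSbdd this
        linarith
    intro δ hδ
    obtain ⟨b, hb, hb2⟩ := exists_lt_of_csInf_lt hSne (show sInf S < δ by rw [hinf]; exact hδ)
    obtain ⟨n, hn⟩ := hb
    exact ⟨n, fun ι _ _ hι A hA => lt_of_le_of_lt (hn ι hι A hA) hb2⟩

lemma dhj_equiv {α β : Type} [Fintype α] [Fintype β] (e : α ≃ β) (h : DensityHJ α) :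
    DensityHJ β := by
  intro δ hδ
  obtain ⟨N, hN⟩ := h δ hδ
  refine ⟨N, fun ι _ _ hι A hA => ?_⟩
  rw [← dens_congr_equiv ((Equiv.refl ι).arrowCongr e)]
  refine hN ι hι _ ?_
  rintro u ⟨i, hi⟩
  obtain ⟨b, hb⟩ := hA (fun i => (u i).map e) ⟨i, by simp [hi]⟩
  refine ⟨e.symm b, ?_⟩
  have h1 : ((Equiv.refl ι).arrowCongr e) (pt u (e.symm b)) = pt (fun i => (u i).map e) b := by
    funext j
    cases hj : u j <;> simp [pt, hj]
  change ((Equiv.refl ι).arrowCongr e) (pt u (e.symm b)) ∉ A
  rw [h1]
  exact hb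

/-- The density Hales-Jewett theorem. -/
theorem density_hales_jewett (α : Type) [Fintype α] : DensityHJ α := by
  have : ∀ (β : Type) [Fintype β], DensityHJ β := by
    intro β _
    refine Fintype.induction_empty_option (P := fun β _ => DensityHJ β) ?_ ?_ ?_ β
    · intro α β _ e h
      let _ := Fintype.ofEquiv β e.symm
      have := dhj_equiv e h
      convert this
    · intro δ hδ
      refine ⟨1, fun ι _ _ hι A hA => ?_⟩
      have hne : Nonempty ι := Fintype.card_pos_iff.1 (by omega)
      have hemp : IsEmpty (ι → PEmpty.{1}) := ⟨fun f => (f (Classical.choice hne)).elim⟩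
      have h0 : dens A = 0 := by
        unfold dens
        rw [av_eq_sum]
        simp
      linarith
    · intro α _ h
      exact dhj_option h
  exact this α

end Final

end

end Pool.Agent.Helper868.DHJ
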