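import Mathlib

/-!
Two explicit finite group extensions used in the construction of a locally finite simple group
without nonabelian finite simple subgroups.
-/

namespace H868.LFS

open Finset Function

/-- The affine (permutational) extension: pairs (v, g) with v : Y → A, g : E. -/
@[ext] structure Aff (E Y A : Type) where
  v : Y → A
  g : E

section basic

variable {E Y A : Type} [Group E] [AddCommGroup A] [MulAction E Y]

instance : Mul (Aff E Y A) := ⟨fun a b => ⟨fun y => a.v y + b.v (a.g⁻¹ • y), a.g * b.g⟩⟩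
instance : One (Aff E Y A) := ⟨⟨fun _ => 0, 1⟩⟩
instance : Inv (Aff E Y A) := ⟨fun a => ⟨fun y => -(a.v (a.g • y)), a.g⁻¹⟩⟩

theorem mul_v (a b : Aff E Y A) (y : Y) : (a * b).v y = a.v y + b.v (a.g⁻¹ • y) := rfl
theorem mul_g (a b : Aff E Y A) : (a * b).g = a.g * b.g := rfl
theorem one_v (y : Y) : (1 : Aff E Y A).v y = 0 := rfl
theorem one_g : (1 : Aff E Y A).g = 1 := rfl
theorem inv_v (a : Aff E Y A) (y : Y) : (a⁻¹).v y = -(a.v (a.g • y)) := rfl
theorem inv_g (a : Aff E Y A) : (a⁻¹).g = a.g⁻¹ := rfl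

instance : Group (Aff E Y A) := Group.ofLeftAxioms
  (by
    intro a b c
    ext y
    · simp only [mul_v, mul_g, mul_inv_rev, mul_smul, add_assoc]
    · simp only [mul_g, mul_assoc])
  (by
    intro a
    ext y
    · simp only [mul_v, one_v, one_g, inv_one, one_smul, zero_add]
    · simp only [mul_g, one_g, one_mul])
  (by
    intro a
    ext y
    · simp only [mul_v, inv_v, inv_g, inv_inv, one_v]; abel
    · simp only [mul_g, inv_g, one_g, inv_mul_cancel])

theorem pow_g (a : Aff E Y A) (k : ℕ) : (a ^ k).g = a.g ^ k := by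
  induction k with
  | zero => simp [one_g]
  | succ k ih => rw [pow_succ, mul_g, ih, pow_succ]

theorem pow_v (a : Aff E Y A) (k : ℕ) (y : Y) :
    (a ^ k).v y = ∑ i ∈ range k, a.v ((a.g ^ i)⁻¹ • y) := by
  induction k with
  | zero => simp [one_v]
  | succ k ih => rw [pow_succ, mul_v, ih, Finset.sum_range_succ, pow_g]

/-- projection to E -/
def prj : Aff E Y A →* E where
  toFun a := a.g
  map_one' := rfl
  map_mul' _ _ := rfl

theorem finite_aff [Finite E] [Finite Y] [Finite A] : Finite (Aff E Y A) := by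
  apply Finite.of_injective (fun a : Aff E Y A => (a.v, a.g))
  intro a b h
  simp only [Prod.mk.injEq] at h
  exact Aff.ext h.1 h.2

end basic

/-- a fixed-point-free element of prime order admits an equivariant map to `ZMod p`. -/
theorem exists_alpha {E X : Type} [Group E] [MulAction E X] (g : E) (p : ℕ) (hp : p.Prime)
    (hg : g ^ p = 1) (hfree : ∀ x : X, g • x ≠ x) :
    ∃ α : X → ZMod p, ∀ x, α (g • x) = α x + 1 := by
  classical
  haveI : Fact p.Prime := ⟨hp⟩
  let S := MulAction.orbitRel (Subgroup.zpowers g) X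
  let r : X → X := fun x => (Quotient.mk S x).out
  have hr : ∀ x, ∃ k : ℤ, x = g ^ k • r x := by
    intro x
    have h1 : S (r x) x := Quotient.mk_out (s := S) x
    have h2 : r x ∈ MulAction.orbit (Subgroup.zpowers g) x := h1
    obtain ⟨⟨z, hz⟩, hz2⟩ := h2
    obtain ⟨k, hk⟩ := Subgroup.mem_zpowers_iff.1 hz
    refine ⟨-k, ?_⟩
    have : r x = g ^ k • x := by rw [hk]; exact hz2.symm
    rw [this, smul_smul, ← zpow_add]; simp
  choose κ hκ using hr
  have hrg : ∀ x, r (g • x) = r x := by
    intro x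
    have : Quotient.mk S (g • x) = Quotient.mk S x := by
      apply Quotient.sound
      change g • x ∈ MulAction.orbit (Subgroup.zpowers g) x
      exact ⟨⟨g, Subgroup.mem_zpowers g⟩, rfl⟩
    simp only [r, this]
  refine ⟨fun x => ((κ x : ℤ) : ZMod p), fun x => ?_⟩
  have h1 : g ^ (κ (g • x)) • r x = g ^ (κ x + 1) • r x := by
    have e1 := hκ (g • x)
    rw [hrg] at e1
    rw [← e1, add_comm, zpow_add, zpow_one, mul_smul, ← hκ x]
  have h2 : g ^ (κ (g • x) - (κ x + 1)) • r x = r x := by
    rw [sub_eq_neg_add, zpow_add, mul_smul, h1, ← mul_smul, ← zpow_add]; simp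
  by_contra hne
  have h3 : ¬ ((p : ℤ) ∣ (κ (g • x) - (κ x + 1))) := by
    intro hd
    apply hne
    have := (ZMod.intCast_zmod_eq_zero_iff_dvd (κ (g • x) - (κ x + 1)) p).2 hd
    push_cast at this
    exact sub_eq_zero.1 this
  have hcop : IsCoprime (p : ℤ) (κ (g • x) - (κ x + 1)) :=
    (Int.isCoprime_iff_gcd_eq_one.2 (by
      have := (Nat.prime_iff_prime_int.1 hp).coprime_iff_not_dvd.2 h3
      exact Int.isCoprime_iff_gcd_eq_one.1 this))
  obtain ⟨u, w, huw⟩ := hcop
  have hgp : (g : E) ^ (p : ℤ) = 1 := by exact_mod_cast hg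
  set m := κ (g • x) - (κ x + 1) with hm
  have h4 : g = (g ^ m) ^ w := by
    have : g = g ^ (u * p + w * m) := by rw [huw, zpow_one]
    calc g = g ^ (u * p + w * m) := this
      _ = (g ^ (p:ℤ)) ^ u * (g ^ m) ^ w := by
        rw [zpow_add, mul_comm u, zpow_mul, mul_comm w, zpow_mul]
      _ = (g ^ m) ^ w := by rw [hgp]; simp
  have h5 : (g ^ m) ^ w • r x = r x := by
    have : ∀ a : E, a • r x = r x → ∀ w : ℤ, a ^ w • r x = r x := by
      intro a ha w
      have hmem : a ∈ MulAction.stabilizer E (r x) := ha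
      exact (MulAction.stabilizer E (r x)).zpow_mem hmem w
    exact this _ h2 w
  exact hfree (r x) (by rw [← h4] at h5; exact h5)

end H868.LFS
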