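import Mathlib
import Pool.Agent.Helper868.LFS1

namespace H868.LFS

open Finset Function

set_option linter.unusedSectionVars false
set_option linter.style.haveILetI false

section cstep

variable {E : Type} [Group E] (H : Subgroup E) (n : ℕ) [Fintype (E ⧸ H)] [DecidableEq (E ⧸ H)]

/-- the subgroup of `(ZMod n)^(X × X) ⋊ E`, `X = E ⧸ H`, with zero row sums and column sums
`[y = g o] - [y = o]`. -/
def csub : Subgroup (Aff E ((E ⧸ H) × (E ⧸ H)) (ZMod n)) where
  carrier := {a | (∀ x, ∑ y, a.v (x, y) = 0) ∧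
    ∀ y, ∑ x, a.v (x, y) = (if y = a.g • ((1 : E) : E ⧸ H) then 1 else 0) -
      (if y = ((1 : E) : E ⧸ H) then 1 else 0)}
  one_mem' := by
    refine ⟨fun x => ?_, fun y => ?_⟩
    · simp [one_v]
    · simp [one_v, one_g]
  mul_mem' := by
    rintro a b ⟨ha1, ha2⟩ ⟨hb1, hb2⟩
    refine ⟨fun x => ?_, fun y => ?_⟩
    · simp only [mul_v, Prod.smul_mk, Finset.sum_add_distrib, ha1, zero_add]
      rw [← hb1 (a.g⁻¹ • x)]
      exact Equiv.sum_comp (MulAction.toPerm a.g⁻¹) (fun y => b.v (a.g⁻¹ • x, y))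
    · simp only [mul_v, Prod.smul_mk, Finset.sum_add_distrib, ha2]
      have h1 : ∑ x, b.v (a.g⁻¹ • x, a.g⁻¹ • y) = ∑ x, b.v (x, a.g⁻¹ • y) :=
        Equiv.sum_comp (MulAction.toPerm a.g⁻¹) (fun x => b.v (x, a.g⁻¹ • y))
      rw [h1, hb2]
      simp only [inv_smul_eq_iff, mul_g, mul_smul]
      ring
  inv_mem' := by
    rintro a ⟨ha1, ha2⟩
    refine ⟨fun x => ?_, fun y => ?_⟩
    · simp only [inv_v, Prod.smul_mk, Finset.sum_neg_distrib, neg_eq_zero]
      rw [← ha1 (a.g • x)]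
      exact Equiv.sum_comp (MulAction.toPerm a.g) (fun y => a.v (a.g • x, y))
    · simp only [inv_v, Prod.smul_mk, Finset.sum_neg_distrib]
      have h1 : ∑ x, a.v (a.g • x, a.g • y) = ∑ x, a.v (x, a.g • y) :=
        Equiv.sum_comp (MulAction.toPerm a.g) (fun x => a.v (x, a.g • y))
      rw [h1, ha2]
      simp only [inv_g, eq_inv_smul_iff, smul_left_cancel_iff]
      ring

theorem sum_range_ind (p : ℕ) [Fact p.Prime] (s t : ZMod p) :
    ∑ i ∈ range p, (s + (i : ZMod p)) * (if t + (i : ZMod p) = 0 then 1 else 0) = s - t := by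
  rw [Finset.sum_eq_single (-t).val]
  · rw [ZMod.natCast_zmod_val]; simp [sub_eq_add_neg]
  · intro i hi hne
    rw [if_neg, mul_zero]
    intro h
    apply hne
    have h2 : (i : ZMod p) = -t := by linear_combination h
    rw [← h2, ZMod.val_natCast, Nat.mod_eq_of_lt (Finset.mem_range.1 hi)]
  · intro h
    exact absurd (Finset.mem_range.2 (ZMod.val_lt (-t))) h

theorem csub_main (a : Aff E ((E ⧸ H) × (E ⧸ H)) (ZMod n)) (ha : a ∈ csub H n) (p : ℕ)
    (hp : p.Prime) (hpn : p ∣ n) (hap : a ^ p = 1) :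
    ∃ x : E ⧸ H, a.g • x = x := by
  by_contra hno
  push Not at hno
  haveI : Fact p.Prime := ⟨hp⟩
  obtain ⟨ha1, ha2⟩ := ha
  have hg : a.g ^ p = 1 := by rw [← pow_g, hap, one_g]
  obtain ⟨α, hα⟩ := exists_alpha a.g p hp hg hno
  let c : ZMod n →+* ZMod p := ZMod.castHom hpn (ZMod p)
  have hαi : ∀ (i : ℕ) x, α ((a.g ^ i) • x) = α x + i := by
    intro i
    induction i with
    | zero => intro x; simp
    | succ i ih => intro x; rw [pow_succ', mul_smul, hα, ih]; push_cast; ring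
  have hsum : ∀ x y : E ⧸ H, ∑ i ∈ range p, c (a.v ((a.g ^ i)⁻¹ • (x, y))) = 0 := by
    intro x y
    rw [← map_sum, ← pow_v, hap, one_v, map_zero]
  -- the functional
  have key : ∑ x : E ⧸ H, ∑ y : E ⧸ H, (∑ i ∈ range p, c (a.v ((a.g ^ i)⁻¹ • (x, y)))) *
      (α x * (if α y = 0 then 1 else 0)) = 0 := by
    apply Finset.sum_eq_zero; intro x _
    apply Finset.sum_eq_zero; intro y _
    rw [hsum, zero_mul]
  have e1 : ∑ x : E ⧸ H, ∑ y : E ⧸ H, (∑ i ∈ range p, c (a.v ((a.g ^ i)⁻¹ • (x, y)))) *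
      (α x * (if α y = 0 then 1 else 0)) =
      ∑ x : E ⧸ H, ∑ y : E ⧸ H, c (a.v (x, y)) * (α x - α y) := by
    calc _ = ∑ i ∈ range p, ∑ x : E ⧸ H, ∑ y : E ⧸ H, c (a.v ((a.g ^ i)⁻¹ • (x, y))) *
          (α x * (if α y = 0 then 1 else 0)) := by
          simp only [Finset.sum_mul]
          rw [Finset.sum_comm (s := range p)]
          apply Finset.sum_congr rfl; intro x _
          rw [Finset.sum_comm (s := range p)]
      _ = ∑ i ∈ range p, ∑ x : E ⧸ H, ∑ y : E ⧸ H, c (a.v (x, y)) *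
          ((α x + i) * (if α y + i = 0 then 1 else 0)) := by
          apply Finset.sum_congr rfl; intro i _
          rw [← Equiv.sum_comp (MulAction.toPerm (a.g ^ i))]
          apply Finset.sum_congr rfl; intro x _
          rw [← Equiv.sum_comp (MulAction.toPerm (a.g ^ i))]
          apply Finset.sum_congr rfl; intro y _
          simp only [MulAction.toPerm_apply, Prod.smul_mk, inv_smul_smul, hαi]
      _ = ∑ x : E ⧸ H, ∑ y : E ⧸ H, c (a.v (x, y)) *
          (∑ i ∈ range p, (α x + i) * (if α y + i = 0 then 1 else 0)) := by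
          rw [Finset.sum_comm]
          apply Finset.sum_congr rfl; intro x _
          rw [Finset.sum_comm]
          apply Finset.sum_congr rfl; intro y _
          rw [Finset.mul_sum]
      _ = _ := by
          apply Finset.sum_congr rfl; intro x _
          apply Finset.sum_congr rfl; intro y _
          congr 1
          exact sum_range_ind p (α x) (α y)
  rw [e1] at key
  have e2 : ∑ x : E ⧸ H, ∑ y : E ⧸ H, c (a.v (x, y)) * (α x - α y) = -1 := by
    have e3 : ∑ x : E ⧸ H, ∑ y : E ⧸ H, c (a.v (x, y)) * (α x - α y) =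
        ∑ x : E ⧸ H, (∑ y : E ⧸ H, c (a.v (x, y))) * α x -
        ∑ y : E ⧸ H, (∑ x : E ⧸ H, c (a.v (x, y))) * α y := by
      simp only [mul_sub, Finset.sum_sub_distrib, Finset.sum_mul]
      congr 1
      rw [Finset.sum_comm]
    rw [e3]
    have e4 : ∀ x : E ⧸ H, ∑ y : E ⧸ H, c (a.v (x, y)) = 0 := by
      intro x; rw [← map_sum, ha1, map_zero]
    have e5 : ∀ y : E ⧸ H, ∑ x : E ⧸ H, c (a.v (x, y)) =
        (if y = a.g • ((1 : E) : E ⧸ H) then 1 else 0) -
          (if y = ((1 : E) : E ⧸ H) then 1 else 0) := by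
      intro y; rw [← map_sum, ha2, map_sub]
      congr 1 <;> split_ifs <;> simp
    simp only [e4, e5, zero_mul, Finset.sum_const_zero, sub_mul, Finset.sum_sub_distrib, ite_mul,
      one_mul, Finset.sum_ite_eq', Finset.mem_univ, if_true]
    rw [hα]; ring
  rw [e2] at key
  exact one_ne_zero (neg_eq_zero.1 key)

end cstep

end H868.LFS
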