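import Mathlib
import Pool.Agent.Helper868.LFS2

namespace H868.LFS

open Finset Function

set_option linter.unusedSectionVars false
set_option linter.style.haveILetI false

section ustep

variable {E : Type} [Group E] (H : Subgroup E) (n : ℕ) [Fintype E] [DecidableEq (E ⧸ H)]

/-- the subgroup of `(ZMod n)^E ⋊ E` with coset sums `[c = o] - [c = g o]`. -/
def usub : Subgroup (Aff E E (ZMod n)) where
  carrier := {a | ∀ c : E ⧸ H, ∑ y : E, (if (y : E ⧸ H) = c then a.v y else 0) =
      (if c = ((1 : E) : E ⧸ H) then 1 else 0) - (if c = a.g • ((1 : E) : E ⧸ H) then 1 else 0)}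
  one_mem' := by
    intro c
    simp [one_v, one_g]
  mul_mem' := by
    rintro a b ha hb c
    have h1 : ∑ y : E, (if (y : E ⧸ H) = c then b.v (a.g⁻¹ • y) else 0) =
        ∑ y : E, (if (y : E ⧸ H) = a.g⁻¹ • c then b.v y else 0) := by
      rw [← Equiv.sum_comp (MulAction.toPerm a.g)]
      apply Finset.sum_congr rfl; intro y _
      simp only [MulAction.toPerm_apply, inv_smul_smul, eq_inv_smul_iff]
      rfl
    have h2 : ∑ y : E, (if (y : E ⧸ H) = c then (a * b).v y else 0) =
        ∑ y : E, (if (y : E ⧸ H) = c then a.v y else 0) +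
        ∑ y : E, (if (y : E ⧸ H) = c then b.v (a.g⁻¹ • y) else 0) := by
      rw [← Finset.sum_add_distrib]
      apply Finset.sum_congr rfl; intro y _
      split_ifs <;> simp [mul_v]
    rw [h2, ha c, h1, hb]
    simp only [inv_smul_eq_iff, mul_g, mul_smul]
    ring
  inv_mem' := by
    rintro a ha c
    have h1 : ∑ y : E, (if (y : E ⧸ H) = c then (a⁻¹).v y else 0) =
        - ∑ y : E, (if (y : E ⧸ H) = a.g • c then a.v y else 0) := by
      rw [← Finset.sum_neg_distrib, ← Equiv.sum_comp (MulAction.toPerm a.g) (fun y : E =>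
        -(if (y : E ⧸ H) = a.g • c then a.v y else 0))]
      apply Finset.sum_congr rfl; intro y _
      simp only [MulAction.toPerm_apply, inv_v]
      have : (((a.g • y : E)) : E ⧸ H) = a.g • (y : E ⧸ H) := rfl
      rw [this]
      simp only [smul_left_cancel_iff]
      split_ifs <;> simp
    rw [h1, ha]
    simp only [inv_g, eq_inv_smul_iff, smul_left_cancel_iff]
    ring

theorem usub_main (a : Aff E E (ZMod n)) (ha : a ∈ usub H n) (p : ℕ) (hp : p.Prime) (hpn : p ∣ n)
    (h : E) (hH : h ∈ H) (h1 : h ≠ 1) (hhp : h ^ p = 1) (hinv : ∀ y, a.v (h⁻¹ * y) = a.v y) :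
    a.g ∈ H := by
  haveI : Fact p.Prime := ⟨hp⟩
  obtain ⟨β, hβ⟩ := exists_alpha (X := E) h p hp hhp (by
    intro x hx
    apply h1
    simpa using hx)
  let c : ZMod n →+* ZMod p := ZMod.castHom hpn (ZMod p)
  let F : E → ZMod p := fun y => if (y : E ⧸ H) = ((1 : E) : E ⧸ H) then c (a.v y) else 0
  have hF : ∀ y, F (h • y) = F y := by
    intro y
    have e1 : (((h • y : E)) : E ⧸ H) = ((1 : E) : E ⧸ H) ↔ (y : E ⧸ H) = ((1 : E) : E ⧸ H) := by
      rw [QuotientGroup.eq, QuotientGroup.eq]
      simp only [smul_eq_mul, mul_inv_rev, mul_one, inv_mem_iff]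
      constructor
      · intro hh
        have := H.mul_mem (H.inv_mem hH) (H.inv_mem hh)
        simpa using this
      · intro hh
        have := H.mul_mem hH hh
        have := H.inv_mem this
        simpa using this
    have e2 : a.v (h • y) = a.v y := by
      rw [← hinv (h • y)]; simp
    simp only [F, e1, e2]
  have hsum : ∑ y, F y = 0 := by
    have e1 : ∑ y, F y * β y = ∑ y, F y * (β y + 1) := by
      rw [← Equiv.sum_comp (MulAction.toPerm h) (fun y => F y * β y)]
      apply Finset.sum_congr rfl; intro y _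
      simp only [MulAction.toPerm_apply, hF, hβ]
    simp only [mul_add, mul_one, Finset.sum_add_distrib] at e1
    simpa using e1
  have hsum2 : ∑ y, F y = c (1 - (if ((1 : E) : E ⧸ H) = a.g • ((1 : E) : E ⧸ H) then 1 else 0)) := by
    have := ha ((1 : E) : E ⧸ H)
    rw [if_pos rfl] at this
    rw [← this, map_sum]
    apply Finset.sum_congr rfl; intro y _
    simp only [F]
    split_ifs <;> simp
  rw [hsum] at hsum2
  by_contra hg
  have : ((1 : E) : E ⧸ H) ≠ a.g • ((1 : E) : E ⧸ H) := by
    intro h2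
    apply hg
    have h3 : ((1 : E) : E ⧸ H) = ((a.g * 1 : E) : E ⧸ H) := h2
    rw [QuotientGroup.eq] at h3
    simpa using h3
  rw [if_neg this] at hsum2
  simp at hsum2

end ustep

end H868.LFS
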