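import Mathlib
import Pool.Agent.Helper868.LFS3

namespace H868.LFS

open Finset Function

set_option linter.unusedSectionVars false
set_option linter.style.haveILetI false

/-- `(E', ι')` is an extension of `(E, ι)` with finite solvable kernel, split over `H`. -/
def IsUp {H E E' : Type} [Group H] [Group E] [Group E'] (ι : H →* E) (ι' : H →* E')
    (π : E' →* E) : Prop :=
  π.comp ι' = ι ∧ Surjective π ∧ Group.IsSolvable π.ker

theorem IsUp.trans {H E E' E'' : Type} [Group H] [Group E] [Group E'] [Group E'']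
    {ι : H →* E} {ι' : H →* E'} {ι'' : H →* E''} {π : E' →* E} {π' : E'' →* E'}
    (h : IsUp ι ι' π) (h' : IsUp ι' ι'' π') : IsUp ι ι'' (π.comp π') := by
  obtain ⟨a, b, c⟩ := h
  obtain ⟨a', b', c'⟩ := h'
  refine ⟨?_, b.comp b', ?_⟩
  · rw [MonoidHom.comp_assoc, a', a]
  · haveI := c; haveI := c'
    have hle : π'.ker ≤ (π.comp π').ker := by
      intro x hx
      rw [MonoidHom.mem_ker] at hx ⊢
      simp [hx]
    let g : (π.comp π').ker →* π.ker :=
      ((π'.comp (π.comp π').ker.subtype).codRestrict π.ker (fun x => by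
        have := x.2
        rw [MonoidHom.mem_ker] at this ⊢
        simpa using this))
    refine Group.isSolvable_of_ker_le_range (Subgroup.inclusion hle) g ?_
    intro x hx
    rw [MonoidHom.mem_ker] at hx
    have h1 : π' (x : E'') = 1 := by
      have := congrArg (Subtype.val) hx
      simpa [g] using this
    exact ⟨⟨x, by rw [MonoidHom.mem_ker]; exact h1⟩, by ext; rfl⟩

theorem IsUp.refl {H E : Type} [Group H] [Group E] (ι : H →* E) : IsUp ι ι (MonoidHom.id E) := by
  refine ⟨by ext; rfl, fun x => ⟨x, rfl⟩, ?_⟩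
  have : (MonoidHom.id E).ker = ⊥ := by
    ext x; rw [MonoidHom.mem_ker, Subgroup.mem_bot]; rfl
  rw [this]
  infer_instance

theorem fix_iff {E : Type} [Group E] (K : Subgroup E) (g γ : E) :
    g • ((γ : E) : E ⧸ K) = ((γ : E) : E ⧸ K) ↔ γ⁻¹ * g * γ ∈ K := by
  have : g • ((γ : E) : E ⧸ K) = ((g * γ : E) : E ⧸ K) := rfl
  rw [this, eq_comm, QuotientGroup.eq, mul_assoc]

theorem cstep {H E : Type} [Group H] [Group E] [Finite E] (ι : H →* E) :
    ∃ (E' : Type) (_ : Group E') (_ : Finite E') (ι' : H →* E') (π : E' →* E), IsUp ι ι' π ∧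
      ∀ (x : E') (p : ℕ), p.Prime → x ^ p = 1 → π x ≠ 1 → ∃ γ : E, γ⁻¹ * π x * γ ∈ ι.range := by
  classical
  letI : Fintype (E ⧸ ι.range) := Fintype.ofFinite _
  haveI : NeZero (Nat.card E) := ⟨Nat.card_pos.ne'⟩
  haveI : Finite (Aff E ((E ⧸ ι.range) × (E ⧸ ι.range)) (ZMod (Nat.card E))) := finite_aff
  let S := csub ι.range (Nat.card E)
  have hmem : ∀ h : H, (⟨fun _ => 0, ι h⟩ :
      Aff E ((E ⧸ ι.range) × (E ⧸ ι.range)) (ZMod (Nat.card E))) ∈ S := by
    intro h
    have h0 : ι h • ((1 : E) : E ⧸ ι.range) = ((1 : E) : E ⧸ ι.range) := by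
      rw [fix_iff]; simp
    refine ⟨fun x => by simp, fun y => ?_⟩
    simp [h0]
  let ι' : H →* S :=
    { toFun := fun h => ⟨⟨fun _ => 0, ι h⟩, hmem h⟩
      map_one' := by
        apply Subtype.ext
        apply Aff.ext
        · rfl
        · exact map_one ι
      map_mul' := by
        intro a b
        apply Subtype.ext
        apply Aff.ext
        · funext y
          change (0 : ZMod _) = 0 + 0
          simp
        · exact map_mul ι a b }
  let π : S →* E := prj.comp S.subtype
  refine ⟨S, inferInstance, inferInstance, ι', π, ⟨?_, ?_, ?_⟩, ?_⟩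
  · ext h; rfl
  · intro g
    refine ⟨⟨⟨fun q => if q.1 = ((1 : E) : E ⧸ ι.range) then
      ((if q.2 = g • ((1 : E) : E ⧸ ι.range) then 1 else 0) -
        (if q.2 = ((1 : E) : E ⧸ ι.range) then 1 else 0)) else 0, g⟩, ?_⟩, rfl⟩
    refine ⟨fun x => ?_, fun y => ?_⟩
    · by_cases hx : x = ((1 : E) : E ⧸ ι.range)
      · simp [hx, Finset.sum_sub_distrib]
      · simp [hx]
    · simp
  · apply Group.isSolvable_of_comm
    rintro ⟨⟨a, ha⟩, ha'⟩ ⟨⟨b, hb⟩, hb'⟩
    have ea : a.g = 1 := ha'
    have eb : b.g = 1 := hb'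
    apply Subtype.ext
    apply Subtype.ext
    apply Aff.ext
    · funext y
      change (a * b).v y = (b * a).v y
      rw [mul_v, mul_v, ea, eb]; simp [add_comm]
    · change (a * b).g = (b * a).g
      rw [mul_g, mul_g, ea, eb]
  · rintro ⟨a, ha⟩ p hp hap hne
    have hap' : a ^ p = 1 := congrArg Subtype.val hap
    have hg : a.g ^ p = 1 := by rw [← pow_g, hap', one_g]
    have hne' : a.g ≠ 1 := hne
    haveI : Fact p.Prime := ⟨hp⟩
    have hord : orderOf a.g = p := orderOf_eq_prime hg hne'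
    have hdvd : p ∣ Nat.card E := by rw [← hord]; exact orderOf_dvd_natCard a.g
    obtain ⟨x, hx⟩ := csub_main ι.range (Nat.card E) a ha p hp hdvd hap'
    obtain ⟨γ, rfl⟩ := QuotientGroup.mk_surjective x
    exact ⟨γ, (fix_iff _ _ _).1 hx⟩

theorem ustep {H E : Type} [Group H] [Group E] [Finite E] (ι : H →* E) :
    ∃ (E' : Type) (_ : Group E') (_ : Finite E') (ι' : H →* E') (π : E' →* E), IsUp ι ι' π ∧
      ∀ (h : H) (g : E'), ι' h ≠ 1 → g⁻¹ * ι' h * g ∈ ι'.range → π g ∈ ι.range := by
  classical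
  letI : Fintype E := Fintype.ofFinite _
  haveI : NeZero (Nat.card E) := ⟨Nat.card_pos.ne'⟩
  haveI : Finite (Aff E E (ZMod (Nat.card E))) := finite_aff
  let S := usub ι.range (Nat.card E)
  have hmem : ∀ h : H, (⟨fun _ => 0, ι h⟩ : Aff E E (ZMod (Nat.card E))) ∈ S := by
    intro h c
    have h0 : ι h • ((1 : E) : E ⧸ ι.range) = ((1 : E) : E ⧸ ι.range) := by
      rw [fix_iff]; simp
    simp [h0]
  let ι' : H →* S :=
    { toFun := fun h => ⟨⟨fun _ => 0, ι h⟩, hmem h⟩
      map_one' := by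
        apply Subtype.ext
        apply Aff.ext
        · rfl
        · exact map_one ι
      map_mul' := by
        intro a b
        apply Subtype.ext
        apply Aff.ext
        · funext y
          change (0 : ZMod _) = 0 + 0
          simp
        · exact map_mul ι a b }
  let π : S →* E := prj.comp S.subtype
  refine ⟨S, inferInstance, inferInstance, ι', π, ⟨?_, ?_, ?_⟩, ?_⟩
  · ext h; rfl
  · intro g
    refine ⟨⟨⟨fun y => (if y = 1 then 1 else 0) - (if y = g then 1 else 0), g⟩, ?_⟩, rfl⟩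
    intro c
    have e1 : ∀ y : E, (if (y : E ⧸ ι.range) = c then
        (((if y = 1 then 1 else 0) - (if y = g then 1 else 0) : ZMod (Nat.card E))) else 0) =
        (if y = 1 then (if ((1 : E) : E ⧸ ι.range) = c then 1 else 0) else 0) -
        (if y = g then (if ((g : E) : E ⧸ ι.range) = c then 1 else 0) else 0) := by
      intro y
      by_cases h1 : y = 1
      · subst h1
        by_cases h2 : (1 : E) = g
        · subst h2; simp
        · simp [h2]
      · by_cases h2 : y = g
        · subst h2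
          by_cases h3 : ((y : E) : E ⧸ ι.range) = c <;> simp [h1, h3]
        · simp [h1, h2]
    have e2 : g • ((1 : E) : E ⧸ ι.range) = ((g : E) : E ⧸ ι.range) := by
      change ((g * 1 : E) : E ⧸ ι.range) = _
      rw [mul_one]
    change ∑ y : E, (if (y : E ⧸ ι.range) = c then
        (((if y = 1 then 1 else 0) - (if y = g then 1 else 0) : ZMod (Nat.card E))) else 0) = _
    rw [Finset.sum_congr rfl (fun y _ => e1 y), Finset.sum_sub_distrib]
    simp only [Finset.sum_ite_eq', Finset.mem_univ, if_true, e2]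
    simp only [eq_comm]
  · apply Group.isSolvable_of_comm
    rintro ⟨⟨a, ha⟩, ha'⟩ ⟨⟨b, hb⟩, hb'⟩
    have ea : a.g = 1 := ha'
    have eb : b.g = 1 := hb'
    apply Subtype.ext
    apply Subtype.ext
    apply Aff.ext
    · funext y
      change (a * b).v y = (b * a).v y
      rw [mul_v, mul_v, ea, eb]; simp [add_comm]
    · change (a * b).g = (b * a).g
      rw [mul_g, mul_g, ea, eb]
  · rintro h g hne hconj
    -- reduce to prime order
    obtain ⟨p, hp, hpd⟩ := Nat.exists_prime_and_dvd (n := orderOf (ι' h)) (by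
      rw [Ne, orderOf_eq_one_iff]; exact hne)
    haveI : Fact p.Prime := ⟨hp⟩
    set m := orderOf (ι' h) / p with hm
    have hmp : m * p = orderOf (ι' h) := Nat.div_mul_cancel hpd
    have hm0 : 0 < m := by
      rcases Nat.eq_zero_or_pos m with h0 | h0
      · rw [h0, zero_mul] at hmp
        exact absurd hmp.symm (orderOf_pos (ι' h)).ne'
      · exact h0
    have hlt : m < orderOf (ι' h) := by
      rw [← hmp]
      exact lt_mul_of_one_lt_right hm0 hp.one_lt
    have h1ne : ι' (h ^ m) ≠ 1 := by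
      rw [map_pow]
      intro h0
      have := orderOf_dvd_of_pow_eq_one h0
      exact absurd (Nat.le_of_dvd hm0 this) (not_le.2 hlt)
    have h1p : ι' (h ^ m) ^ p = 1 := by
      rw [map_pow, ← pow_mul, hmp, pow_orderOf_eq_one]
    have hconj' : g⁻¹ * ι' (h ^ m) * g ∈ ι'.range := by
      have : g⁻¹ * ι' (h ^ m) * g = (g⁻¹ * ι' h * g) ^ m := by
        rw [map_pow]
        have := conj_pow (a := g⁻¹) (b := ι' h) (i := m)
        rw [inv_inv] at this
        exact this.symm
      rw [this]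
      exact ι'.range.pow_mem hconj m
    obtain ⟨k, hk⟩ := hconj'
    have hk2 : ι' (h ^ m) * g = g * ι' k := by
      rw [hk]; group
    obtain ⟨a, ha⟩ := g
    have hk3 : (⟨fun _ => 0, ι (h ^ m)⟩ : Aff E E (ZMod (Nat.card E))) * a =
        a * ⟨fun _ => 0, ι k⟩ := congrArg Subtype.val hk2
    have hinv : ∀ y, a.v ((ι (h ^ m))⁻¹ * y) = a.v y := by
      intro y
      have := congrArg (fun b => b.v y) hk3
      simp only [mul_v, smul_eq_mul, zero_add, add_zero] at this
      exact this
    have hne2 : ι (h ^ m) ≠ 1 := by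
      intro h0
      apply h1ne
      apply Subtype.ext
      apply Aff.ext
      · rfl
      · exact h0
    have hpp : ι (h ^ m) ^ p = 1 := by
      have := congrArg (fun b : S => (b : Aff E E (ZMod (Nat.card E))).g) h1p
      have e : ((ι' (h ^ m) ^ p : S) : Aff E E (ZMod (Nat.card E))).g = ι (h ^ m) ^ p := by
        rw [SubgroupClass.coe_pow, pow_g]
        rfl
      rw [← e]; exact this
    have hdvd : p ∣ Nat.card E := by
      rw [← orderOf_eq_prime hpp hne2]; exact orderOf_dvd_natCard _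
    exact usub_main ι.range (Nat.card E) a ha p hp hdvd (ι (h ^ m)) ⟨_, rfl⟩ hne2 hpp hinv

theorem step {H E : Type} [Group H] [Group E] [Finite E] (ι : H →* E) :
    ∃ (E' : Type) (_ : Group E') (_ : Finite E') (ι' : H →* E') (π : E' →* E), IsUp ι ι' π ∧
      (∀ (h : H) (g : E'), ι' h ≠ 1 → g⁻¹ * ι' h * g ∈ ι'.range → π g ∈ ι.range) ∧
      (∀ (x : E') (p : ℕ), p.Prime → x ^ p = 1 → π x ≠ 1 →
        ∃ γ : E, γ⁻¹ * π x * γ ∈ ι.range) := by
  obtain ⟨E1, _, _, ι1, π1, hup1, hC⟩ := cstep ι
  obtain ⟨E2, _, _, ι2, π2, hup2, hU⟩ := ustep ι1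
  refine ⟨E2, inferInstance, inferInstance, ι2, π1.comp π2, hup1.trans hup2, ?_, ?_⟩
  · intro h g hne hc
    obtain ⟨k, hk⟩ := hU h g hne hc
    refine ⟨k, ?_⟩
    rw [← hup1.1, MonoidHom.comp_apply, MonoidHom.comp_apply, hk]
  · intro x p hp hx hne
    exact hC (π2 x) p hp (by rw [← map_pow, hx, map_one]) hne

end H868.LFS
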