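import Mathlib
import Pool.Agent.Helper868.LFS4

namespace H868.LFS

open Finset Function

set_option linter.unusedSectionVars false
set_option linter.style.haveILetI false

/-- Burnside counting: if every nonidentity element fixes exactly one point and every point is
fixed by a nonidentity element, then there is a global fixed point. -/
theorem lemB (T Ξ : Type) [Group T] [Finite T] [MulAction T Ξ] [Finite Ξ] [Nonempty Ξ]
    (h1 : ∀ t : T, t ≠ 1 → ∃! ξ : Ξ, t • ξ = ξ) (h2 : ∀ ξ : Ξ, ∃ t : T, t ≠ 1 ∧ t • ξ = ξ) :
    ∃ ξ : Ξ, ∀ t : T, t • ξ = ξ := by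
  classical
  letI : Fintype T := Fintype.ofFinite _
  letI : Fintype Ξ := Fintype.ofFinite _
  have hB := MulAction.sum_card_fixedBy_eq_card_orbits_mul_card_group T Ξ
  have hone : Fintype.card (MulAction.fixedBy Ξ (1 : T)) = Fintype.card Ξ := by
    apply Fintype.card_congr
    exact (Equiv.subtypeUnivEquiv (fun x => one_smul T x))
  have hother : ∀ t : T, t ≠ 1 → Fintype.card (MulAction.fixedBy Ξ t) = 1 := by
    intro t ht
    obtain ⟨ξ, hξ, hu⟩ := h1 t ht
    rw [Fintype.card_eq_one_iff]
    exact ⟨⟨ξ, hξ⟩, fun y => Subtype.ext (hu y.1 y.2)⟩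
  have hsum : ∑ a : T, Fintype.card (MulAction.fixedBy Ξ a) =
      Fintype.card Ξ + (Fintype.card T - 1) := by
    rw [← Finset.add_sum_erase _ _ (Finset.mem_univ (1 : T)), hone]
    congr 1
    rw [Finset.sum_congr rfl (fun t ht => hother t (Finset.ne_of_mem_erase ht))]
    simp [Finset.card_erase_of_mem]
  rw [hsum] at hB
  have hcard := MulAction.card_eq_sum_card_group_div_card_stabilizer T Ξ
  have hle : 2 * Fintype.card Ξ ≤
      Fintype.card (Quotient (MulAction.orbitRel T Ξ)) * Fintype.card T := by
    rw [hcard, Finset.mul_sum]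
    calc _ ≤ ∑ ω : Quotient (MulAction.orbitRel T Ξ), Fintype.card T := by
          apply Finset.sum_le_sum
          intro ω _
          obtain ⟨t, ht, htξ⟩ := h2 (Quotient.out ω)
          have h3 : 2 ≤ Fintype.card (MulAction.stabilizer T (Quotient.out ω)) := by
            rw [Nat.succ_le_iff, Fintype.one_lt_card_iff]
            exact ⟨1, ⟨t, htξ⟩, fun h => ht (congrArg Subtype.val h).symm⟩
          calc 2 * (Fintype.card T / Fintype.card (MulAction.stabilizer T (Quotient.out ω)))
              ≤ Fintype.card (MulAction.stabilizer T (Quotient.out ω)) *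
                (Fintype.card T / Fintype.card (MulAction.stabilizer T (Quotient.out ω))) :=
                Nat.mul_le_mul_right _ h3
            _ ≤ Fintype.card T := Nat.mul_div_le _ _
      _ = _ := by simp
  set c := Fintype.card (Quotient (MulAction.orbitRel T Ξ)) with hc
  have hT : 0 < Fintype.card T := Fintype.card_pos
  have hcpos : 0 < c := by
    rw [hc]
    haveI : Nonempty (Quotient (MulAction.orbitRel T Ξ)) :=
      ⟨Quotient.mk _ (Classical.arbitrary Ξ)⟩
    exact Fintype.card_pos
  have hclt : c < 2 := by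
    by_contra hge
    push Not at hge
    have h3 : 2 * Fintype.card T ≤ c * Fintype.card T := Nat.mul_le_mul_right _ hge
    have e1 : Fintype.card Ξ + (Fintype.card T - 1) = c * Fintype.card T := hB
    omega
  have hc1 : c = 1 := by omega
  have hΞ : Fintype.card Ξ = 1 := by
    have e1 : Fintype.card Ξ + (Fintype.card T - 1) = c * Fintype.card T := hB
    rw [hc1] at e1
    omega
  obtain ⟨ξ, hξ⟩ := Fintype.card_eq_one_iff.1 hΞ
  exact ⟨ξ, fun t => hξ _⟩

end H868.LFS
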