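import Mathlib
import Pool.Agent.Helper868.LFS5

namespace H868.LFS

open Finset Function

set_option linter.unusedSectionVars false
set_option linter.style.haveILetI false

/-- `x` and `y` have a common fixed point on `E ⧸ range ι`. -/
def ComFix {T H E : Type} [Group T] [Group H] [Group E] (τ : T →* E) (ι : H →* E) (x y : T) :
    Prop := ∃ γ : E, γ⁻¹ * τ x * γ ∈ ι.range ∧ γ⁻¹ * τ y * γ ∈ ι.range

/-- number of pairs of nonidentity elements with a common fixed point -/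
noncomputable def sN {T H E : Type} [Group T] [Group H] [Group E] (τ : T →* E) (ι : H →* E) : ℕ :=
  Nat.card {q : T × T // q.1 ≠ 1 ∧ q.2 ≠ 1 ∧ ComFix τ ι q.1 q.2}

theorem conj_down {H E E' : Type} [Group H] [Group E] [Group E'] {ι : H →* E} {ι' : H →* E'}
    {π : E' →* E} (hup : IsUp ι ι' π) (g γ : E') (h : γ⁻¹ * g * γ ∈ ι'.range) :
    (π γ)⁻¹ * π g * π γ ∈ ι.range := by
  obtain ⟨k, hk⟩ := h
  refine ⟨k, ?_⟩
  rw [← hup.1, MonoidHom.comp_apply, hk]
  simp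

theorem ComFix.down {T H E E' : Type} [Group T] [Group H] [Group E] [Group E'] {ι : H →* E}
    {ι' : H →* E'} {π : E' →* E} (hup : IsUp ι ι' π) {τ : T →* E'} {x y : T}
    (h : ComFix τ ι' x y) : ComFix (π.comp τ) ι x y := by
  obtain ⟨γ, h1, h2⟩ := h
  exact ⟨π γ, conj_down hup _ _ h1, conj_down hup _ _ h2⟩

theorem sN_le {T H E E' : Type} [Group T] [Finite T] [Group H] [Group E] [Group E'] {ι : H →* E}
    {ι' : H →* E'} {π : E' →* E} (hup : IsUp ι ι' π) (τ : T →* E') :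
    sN τ ι' ≤ sN (π.comp τ) ι := by
  apply Nat.card_le_card_of_injective
    (fun q : {q : T × T // q.1 ≠ 1 ∧ q.2 ≠ 1 ∧ ComFix τ ι' q.1 q.2} =>
      (⟨q.1, q.2.1, q.2.2.1, q.2.2.2.down hup⟩ :
        {q : T × T // q.1 ≠ 1 ∧ q.2 ≠ 1 ∧ ComFix (π.comp τ) ι q.1 q.2}))
  intro a b h
  apply Subtype.ext
  have h2 := congrArg (fun z => z.1) h
  exact h2

theorem sN_eq_imp {T H E E' : Type} [Group T] [Finite T] [Group H] [Group E] [Group E']
    {ι : H →* E} {ι' : H →* E'} {π : E' →* E} (hup : IsUp ι ι' π) (τ : T →* E')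
    (heq : ¬ sN τ ι' < sN (π.comp τ) ι) (x y : T) (hx : x ≠ 1) (hy : y ≠ 1)
    (h : ComFix (π.comp τ) ι x y) : ComFix τ ι' x y := by
  by_contra hno
  apply heq
  unfold sN
  apply lt_of_not_ge
  intro hge
  let f : {q : T × T // q.1 ≠ 1 ∧ q.2 ≠ 1 ∧ ComFix τ ι' q.1 q.2} →
      {q : T × T // q.1 ≠ 1 ∧ q.2 ≠ 1 ∧ ComFix (π.comp τ) ι q.1 q.2} :=
    fun q => ⟨q.1, q.2.1, q.2.2.1, q.2.2.2.down hup⟩
  have hinj : Injective f := by
    intro a b h
    apply Subtype.ext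
    have h2 := congrArg (fun z => z.1) h
    exact h2
  have hbij : Bijective f := by
    rw [Nat.bijective_iff_injective_and_card]
    exact ⟨hinj, le_antisymm (Nat.card_le_card_of_injective f hinj) hge⟩
  obtain ⟨⟨q, hq⟩, hq2⟩ := hbij.2 ⟨(x, y), hx, hy, h⟩
  have : q = (x, y) := congrArg Subtype.val hq2
  subst this
  exact hno hq.2.2

/-- one round of three steps -/
theorem round {H E : Type} [Group H] [Group E] [Finite E] (ι : H →* E) :
    ∃ (E' : Type) (_ : Group E') (_ : Finite E') (ι' : H →* E') (π : E' →* E), IsUp ι ι' π ∧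
      ∀ (T : Type) [Group T] [Finite T] (τ : T →* E'), Injective (π.comp τ) →
        (∃ γ : E, ∀ x : T, γ⁻¹ * π (τ x) * γ ∈ ι.range) ∨ sN τ ι' < sN (π.comp τ) ι := by
  obtain ⟨E1, _, _, ι1, π0, hup0, hU0, hC0⟩ := step ι
  obtain ⟨E2, _, _, ι2, π1, hup1, hU1, hC1⟩ := step ι1
  obtain ⟨E3, _, _, ι3, π2, hup2, hU2, hC2⟩ := step ι2
  refine ⟨E3, inferInstance, inferInstance, ι3, (π0.comp π1).comp π2,
    (hup0.trans hup1).trans hup2, ?_⟩
  intro T _ _ τ hinj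
  set τ2 : T →* E2 := π2.comp τ with hτ2
  set τ1 : T →* E1 := π1.comp τ2 with hτ1
  set τ0 : T →* E := π0.comp τ1 with hτ0
  have hcomp : ((π0.comp π1).comp π2).comp τ = τ0 := by
    rw [hτ0, hτ1, hτ2, MonoidHom.comp_assoc, MonoidHom.comp_assoc]
  rw [hcomp] at hinj ⊢
  have hne0 : ∀ x : T, x ≠ 1 → τ0 x ≠ 1 := by
    intro x hx h
    exact hx (hinj (by rw [h, map_one]))
  have hne1 : ∀ x : T, x ≠ 1 → τ1 x ≠ 1 := by
    intro x hx h
    exact hne0 x hx (by rw [hτ0, MonoidHom.comp_apply, h, map_one])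
  have hne2 : ∀ x : T, x ≠ 1 → τ2 x ≠ 1 := by
    intro x hx h
    exact hne1 x hx (by rw [hτ1, MonoidHom.comp_apply, h, map_one])
  -- level 2, prime order
  have c2 : ∀ (x : T) (p : ℕ), p.Prime → x ≠ 1 → x ^ p = 1 →
      ∃ γ : E2, γ⁻¹ * τ2 x * γ ∈ ι2.range := by
    intro x p hp hx hxp
    have := hC2 (τ x) p hp (by rw [← map_pow, hxp, map_one]) (hne2 x hx)
    exact this
  -- level 1, all elements
  have c1 : ∀ x : T, x ≠ 1 → ∃ γ : E1, γ⁻¹ * τ1 x * γ ∈ ι1.range := by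
    intro x hx
    obtain ⟨p, hp, hpd⟩ := Nat.exists_prime_and_dvd (n := orderOf x) (by
      rw [Ne, orderOf_eq_one_iff]; exact hx)
    set m := orderOf x / p with hm
    have hmp : m * p = orderOf x := Nat.div_mul_cancel hpd
    have hm0 : 0 < m := by
      rcases Nat.eq_zero_or_pos m with h0 | h0
      · rw [h0, zero_mul] at hmp
        exact absurd hmp.symm (orderOf_pos x).ne'
      · exact h0
    have hlt : m < orderOf x := by
      rw [← hmp]
      exact lt_mul_of_one_lt_right hm0 hp.one_lt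
    have hy1 : x ^ m ≠ 1 := by
      intro h0
      exact absurd (Nat.le_of_dvd hm0 (orderOf_dvd_of_pow_eq_one h0)) (not_le.2 hlt)
    have hyp : (x ^ m) ^ p = 1 := by rw [← pow_mul, hmp, pow_orderOf_eq_one]
    obtain ⟨γ, h, hh⟩ := c2 (x ^ m) p hp hy1 hyp
    refine ⟨π1 γ, ?_⟩
    have hιne : ι2 h ≠ 1 := by
      intro h0
      rw [h0] at hh
      apply hne2 _ hy1
      have : τ2 (x ^ m) = γ * (γ⁻¹ * τ2 (x ^ m) * γ) * γ⁻¹ := by group
      rw [this, ← hh]; group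
    have hcomm : (γ⁻¹ * τ2 x * γ)⁻¹ * ι2 h * (γ⁻¹ * τ2 x * γ) = ι2 h := by
      rw [hh]
      have e1 : τ2 (x ^ m) = (τ2 x) ^ m := map_pow _ _ _
      have e2 : Commute (τ2 x) (τ2 x ^ m) := Commute.self_pow _ _
      rw [e1]
      have e3 : (τ2 x)⁻¹ * (τ2 x ^ m) * τ2 x = τ2 x ^ m := by
        rw [mul_assoc, ← e2.eq]; group
      calc (γ⁻¹ * τ2 x * γ)⁻¹ * (γ⁻¹ * τ2 x ^ m * γ) * (γ⁻¹ * τ2 x * γ)
          = γ⁻¹ * ((τ2 x)⁻¹ * (τ2 x ^ m) * τ2 x) * γ := by group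
        _ = _ := by rw [e3]
    have := hU1 h (γ⁻¹ * τ2 x * γ) hιne (by rw [hcomm]; exact ⟨h, rfl⟩)
    rw [map_mul, map_mul, map_inv] at this
    exact this
  -- uniqueness
  have u0 : ∀ x : T, x ≠ 1 → ∀ γ δ : E1, γ⁻¹ * τ1 x * γ ∈ ι1.range →
      δ⁻¹ * τ1 x * δ ∈ ι1.range → ((π0 γ : E) : E ⧸ ι.range) = ((π0 δ : E) : E ⧸ ι.range) := by
    intro x hx γ δ hγ hδ
    obtain ⟨h, hh⟩ := hγ
    rw [QuotientGroup.eq, ← map_inv, ← map_mul]
    apply hU0 h (γ⁻¹ * δ)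
    · intro h0
      apply hne1 x hx
      have : τ1 x = γ * (γ⁻¹ * τ1 x * γ) * γ⁻¹ := by group
      rw [this, ← hh, h0]; group
    · rw [hh]
      have : (γ⁻¹ * δ)⁻¹ * (γ⁻¹ * τ1 x * γ) * (γ⁻¹ * δ) = δ⁻¹ * τ1 x * δ := by group
      rw [this]; exact hδ
  by_cases hlt : sN τ ι3 < sN τ0 ι
  · exact Or.inr hlt
  left
  have hs1 : ¬ sN τ1 ι1 < sN (π0.comp τ1) ι := by
    intro h
    apply hlt
    calc sN τ ι3 ≤ sN (π2.comp τ) ι2 := sN_le hup2 τ
      _ ≤ sN (π1.comp τ2) ι1 := sN_le hup1 τ2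
      _ < _ := h
  have hcf := sN_eq_imp hup0 τ1 hs1
  by_cases hT : ∀ x : T, x = 1
  · refine ⟨1, fun x => ?_⟩
    rw [hT x]; simp
  push Not at hT
  obtain ⟨x0, hx0⟩ := hT
  -- the set of points
  letI act : MulAction T (E ⧸ ι.range) := MulAction.compHom _ τ0
  have act_def : ∀ (t : T) (ξ : E ⧸ ι.range), t • ξ = τ0 t • ξ := fun _ _ => rfl
  let good : (E ⧸ ι.range) → Prop := fun ξ => ∃ x : T, x ≠ 1 ∧ ∃ γ : E1,
    γ⁻¹ * τ1 x * γ ∈ ι1.range ∧ ξ = ((π0 γ : E) : E ⧸ ι.range)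
  have hgood : ∀ (t : T) (ξ : E ⧸ ι.range), good ξ → good (t • ξ) := by
    rintro t ξ ⟨x, hx, γ, hγ, rfl⟩
    refine ⟨t * x * t⁻¹, ?_, τ1 t * γ, ?_, ?_⟩
    · intro h
      apply hx
      have : x = t⁻¹ * (t * x * t⁻¹) * t := by group
      rw [this, h]; group
    · have : (τ1 t * γ)⁻¹ * τ1 (t * x * t⁻¹) * (τ1 t * γ) = γ⁻¹ * τ1 x * γ := by
        rw [map_mul, map_mul, map_inv]; group
      rw [this]; exact hγ
    · rw [act_def, map_mul]; rfl
  letI actΞ : MulAction T {ξ : E ⧸ ι.range // good ξ} :=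
    { smul := fun t ξ => ⟨t • ξ.1, hgood t ξ.1 ξ.2⟩
      one_smul := fun ξ => Subtype.ext (one_smul T ξ.1)
      mul_smul := fun a b ξ => Subtype.ext (mul_smul a b ξ.1) }
  have actΞ_def : ∀ (t : T) (ξ : {ξ : E ⧸ ι.range // good ξ}), (t • ξ).1 = τ0 t • ξ.1 :=
    fun _ _ => rfl
  obtain ⟨γ0, hγ0⟩ := c1 x0 hx0
  haveI : Nonempty {ξ : E ⧸ ι.range // good ξ} := ⟨⟨_, x0, hx0, γ0, hγ0, rfl⟩⟩
  have hfixv : ∀ (y : T) (γ : E1), γ⁻¹ * τ1 y * γ ∈ ι1.range →
      τ0 y • ((π0 γ : E) : E ⧸ ι.range) = ((π0 γ : E) : E ⧸ ι.range) := by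
    intro y γ hγ
    rw [fix_iff]
    exact conj_down hup0 _ _ hγ
  obtain ⟨ξ, hξ⟩ := lemB T {ξ : E ⧸ ι.range // good ξ} (by
    intro y hy
    obtain ⟨δ, hδ⟩ := c1 y hy
    refine ⟨⟨_, y, hy, δ, hδ, rfl⟩, Subtype.ext (hfixv y δ hδ), ?_⟩
    rintro ⟨ξ, x, hx, γ, hγ, rfl⟩ hfix
    have hfix' : τ0 y • ((π0 γ : E) : E ⧸ ι.range) = ((π0 γ : E) : E ⧸ ι.range) :=
      congrArg Subtype.val hfix
    rw [fix_iff] at hfix'
    have hc0 : ComFix (π0.comp τ1) ι x y := ⟨π0 γ, conj_down hup0 _ _ hγ, hfix'⟩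
    obtain ⟨ε, he1, he2⟩ := hcf x y hx hy hc0
    apply Subtype.ext
    change ((π0 γ : E) : E ⧸ ι.range) = ((π0 δ : E) : E ⧸ ι.range)
    rw [u0 x hx γ ε hγ he1, u0 y hy ε δ he2 hδ]) (by
    rintro ⟨ξ, x, hx, γ, hγ, rfl⟩
    exact ⟨x, hx, Subtype.ext (hfixv x γ hγ)⟩)
  obtain ⟨γ, hγ⟩ := QuotientGroup.mk_surjective ξ.1
  refine ⟨γ, fun x => ?_⟩
  have h1 : τ0 x • ξ.1 = ξ.1 := congrArg Subtype.val (hξ x)
  rw [← hγ] at h1
  exact (fix_iff _ _ _).1 h1

/-- iterating rounds -/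
theorem rounds {H E : Type} [Group H] [Group E] [Finite E] (ι : H →* E) (k : ℕ) :
    ∃ (E' : Type) (_ : Group E') (_ : Finite E') (ι' : H →* E') (π : E' →* E), IsUp ι ι' π ∧
      ∀ (T : Type) [Group T] [Finite T] (τ : T →* E'), Injective (π.comp τ) →
        (∃ γ : E, ∀ x : T, γ⁻¹ * π (τ x) * γ ∈ ι.range) ∨
          sN τ ι' + k ≤ sN (π.comp τ) ι := by
  induction k with
  | zero =>
    refine ⟨E, inferInstance, inferInstance, ι, MonoidHom.id E, IsUp.refl ι, ?_⟩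
    intro T _ _ τ _
    right
    rw [MonoidHom.id_comp, add_zero]
  | succ k ih =>
    obtain ⟨E1, _, _, ι1, π1, hup1, h1⟩ := ih
    obtain ⟨E2, _, _, ι2, π2, hup2, h2⟩ := round ι1
    refine ⟨E2, inferInstance, inferInstance, ι2, π1.comp π2, hup1.trans hup2, ?_⟩
    intro T _ _ τ hinj
    have hinj1 : Injective (π1.comp (π2.comp τ)) := by
      rw [← MonoidHom.comp_assoc]; exact hinj
    have hinj2 : Injective (π2.comp τ) := by
      intro a b hab
      apply hinj1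
      simp only [MonoidHom.comp_apply] at hab ⊢
      rw [hab]
    rcases h2 T τ hinj2 with h | h
    · left
      obtain ⟨γ, hγ⟩ := h
      exact ⟨π1 γ, fun x => conj_down hup1 _ _ (hγ x)⟩
    · rcases h1 T (π2.comp τ) hinj1 with h' | h'
      · left; exact h'
      · right
        rw [← MonoidHom.comp_assoc] at h'
        omega

/-- Main extension theorem: a finite group `E` containing `H` has a finite extension with solvable
kernel, split over `H`, all of whose finite subgroups meeting the kernel trivially embed in `H`. -/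
theorem main_ext {H E : Type} [Group H] [Group E] [Finite E] (ι : H →* E) (hι : Injective ι) :
    ∃ (E' : Type) (_ : Group E') (_ : Finite E') (ι' : H →* E') (π : E' →* E), IsUp ι ι' π ∧
      ∀ (T : Type) [Group T] [Finite T] (τ : T →* E'), Injective (π.comp τ) →
        ∃ f : T →* H, Injective f := by
  obtain ⟨E', _, _, ι', π, hup, h⟩ := rounds ι (Nat.card E * Nat.card E + 1)
  refine ⟨E', inferInstance, inferInstance, ι', π, hup, ?_⟩
  intro T _ _ τ hinj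
  rcases h T τ hinj with ⟨γ, hγ⟩ | h
  · choose f hf using hγ
    refine ⟨⟨⟨f, ?_⟩, ?_⟩, ?_⟩
    · apply hι
      rw [hf, map_one, map_one]; simp
    · intro a b
      apply hι
      change ι (f (a * b)) = ι (f a * f b)
      rw [map_mul, hf, hf, hf, map_mul, map_mul]; group
    · intro a b hab
      have hab' : f a = f b := hab
      apply hinj
      have e1 := hf a
      rw [hab', hf b] at e1
      simpa using e1.symm
  · exfalso
    have hT : Nat.card T ≤ Nat.card E := Nat.card_le_card_of_injective _ hinj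
    have h2 : sN (π.comp τ) ι ≤ Nat.card T * Nat.card T := by
      unfold sN
      rw [← Nat.card_prod]
      exact Nat.card_le_card_of_injective Subtype.val Subtype.val_injective
    have h3 : Nat.card T * Nat.card T ≤ Nat.card E * Nat.card E := Nat.mul_le_mul hT hT
    omega

end H868.LFS
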