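import Mathlib
import Pool.Agent.Helper868.LFS6

namespace H868.LFS

open Finset Function Group

set_option linter.unusedSectionVars false
set_option linter.style.haveILetI false

/-- every finite simple group embedding in `G` is commutative -/
def NoSimp (G : Type) [Group G] : Prop :=
  ∀ (T : Type) [Group T] [Finite T] [IsSimpleGroup T] (f : T →* G), Injective f →
    ∀ a b : T, a * b = b * a

/-- a finite perfect group embeds in a finite simple nonabelian (alternating) group of larger
order -/
theorem alt_embed (H : Type) [Group H] [Finite H] [IsPerfect H] :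
    ∃ (E : Type) (_ : Group E) (_ : Finite E) (_ : IsSimpleGroup E) (_ : IsPerfect E)
      (ι : H →* E), Injective ι ∧ Nat.card H < Nat.card E := by
  classical
  letI : Fintype H := Fintype.ofFinite _
  let α := H ⊕ Fin 5
  have hα : Nat.card α = Nat.card H + 5 := by simp [α, Nat.card_sum]
  have h5 : 5 ≤ Nat.card α := by omega
  haveI : IsSimpleGroup (alternatingGroup α) := alternatingGroup.isSimpleGroup h5
  haveI : IsPerfect (alternatingGroup α) := ⟨commutator_alternatingGroup_eq_top h5⟩
  let c : H →* Equiv.Perm α :=
    (Equiv.Perm.viaEmbeddingHom (⟨Sum.inl, Sum.inl_injective⟩ : H ↪ α)).comp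
      (MulAction.toPermHom H H)
  have hc : Injective c := by
    apply (Equiv.Perm.viaEmbeddingHom_injective _).comp
    exact MulAction.toPerm_injective
  have hsign : ∀ h : H, c h ∈ alternatingGroup α := by
    intro h
    rw [Equiv.Perm.mem_alternatingGroup]
    have hcomm : commutator H ≤ (Equiv.Perm.sign.comp c).ker := by
      rw [commutator_def, Subgroup.commutator_le]
      intro a _ b _
      rw [MonoidHom.mem_ker, map_commutatorElement, commutatorElement_eq_one_iff_commute]
      exact Commute.all _ _
    have : h ∈ commutator H := by rw [IsPerfect.commutator_eq_top]; trivial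
    exact hcomm this
  refine ⟨alternatingGroup α, inferInstance, inferInstance, inferInstance, inferInstance,
    c.codRestrict _ hsign, ?_, ?_⟩
  · intro a b hab
    apply hc
    exact congrArg Subtype.val hab
  · haveI : Nontrivial α := ⟨⟨Sum.inl 1, Sum.inr 0, by simp⟩⟩
    have h1 := two_mul_nat_card_alternatingGroup (α := α)
    rw [Nat.card_perm, hα] at h1
    have h2 : 2 * (Nat.card H + 5) ≤ (Nat.card H + 5).factorial := by
      have : (Nat.card H + 5).factorial = (Nat.card H + 5) * (Nat.card H + 4).factorial :=
        Nat.factorial_succ _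
      rw [this, mul_comm]
      apply Nat.mul_le_mul_left
      have : (Nat.card H + 4) ≤ (Nat.card H + 4).factorial := Nat.self_le_factorial _
      omega
    omega

/-- perfect core of a finite group -/
theorem exists_core (E : Type) [Group E] [Finite E] :
    ∃ m, IsPerfect (derivedSeries E m) := by
  obtain ⟨m, hm⟩ : ∃ m, ∀ n, Nat.card (derivedSeries E m) ≤ Nat.card (derivedSeries E n) :=
    ⟨Function.argmin (fun n => Nat.card (derivedSeries E n)),
      fun n => Function.argmin_le (fun n => Nat.card (derivedSeries E n)) n⟩
  refine ⟨m, ?_⟩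
  rw [Subgroup.isPerfect_iff, ← derivedSeries_succ]
  apply Subgroup.eq_of_le_of_card_ge
  · rw [derivedSeries_succ]
    exact Subgroup.commutator_le_self _
  · exact hm (m + 1)

theorem next_exists (H : Type) [Group H] [Finite H] [IsPerfect H] (hH : NoSimp H) :
    ∃ (P : Type) (_ : Group P) (_ : Finite P) (_ : IsPerfect P) (j : H →* P),
      NoSimp P ∧ Injective j ∧ Nat.card H < Nat.card P ∧
      ∀ h : H, h ≠ 1 → Subgroup.normalClosure {j h} = ⊤ := by
  obtain ⟨E, _, _, _, _, ι, hι, hcard⟩ := alt_embed H
  obtain ⟨E', _, _, ι', π, hup, hT⟩ := main_ext ι hι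
  obtain ⟨m, hm⟩ := exists_core E'
  let P := derivedSeries E' m
  haveI : IsPerfect P := hm
  obtain ⟨hcomp, hsurj, hsolv⟩ := hup
  haveI := hsolv
  have hmem : ∀ h : H, ι' h ∈ P := by
    intro h
    have h1 := map_derivedSeries_le_derivedSeries ι' m
    rw [IsPerfect.derivedSeries_eq_top H] at h1
    exact h1 ⟨h, trivial, rfl⟩
  let j : H →* P := ι'.codRestrict P hmem
  let πP : P →* E := π.comp P.subtype
  have hπP : Surjective πP := by
    intro e
    have h1 := map_derivedSeries_eq hsurj m
    rw [IsPerfect.derivedSeries_eq_top E] at h1
    have : e ∈ (derivedSeries E' m).map π := by rw [h1]; trivial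
    obtain ⟨x, hx, rfl⟩ := this
    exact ⟨⟨x, hx⟩, rfl⟩
  have hπj : ∀ h : H, πP (j h) = ι h := by
    intro h
    rw [← hcomp]; rfl
  refine ⟨P, inferInstance, inferInstance, inferInstance, j, ?_, ?_, ?_, ?_⟩
  · -- NoSimp
    intro T _ _ _ f hf
    by_contra hno
    let τ : T →* E' := P.subtype.comp f
    have hτ : Injective τ := (Subtype.val_injective).comp hf
    have hinj : Injective (π.comp τ) := by
      rw [← MonoidHom.ker_eq_bot_iff]
      rcases (MonoidHom.normal_ker (π.comp τ)).eq_bot_or_eq_top with h | h
      · exact h
      · exfalso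
        apply hno
        rw [IsSimpleGroup.comm_iff_isSolvable]
        let g : T →* π.ker := τ.codRestrict π.ker (fun t => by
          have : t ∈ (π.comp τ).ker := by rw [h]; trivial
          exact this)
        exact isSolvable_of_isSolvable_injective (f := g) (by
          intro a b hab
          apply hτ
          have h2 : (g a : E') = (g b : E') := by rw [hab]
          exact h2)
    obtain ⟨f', hf'⟩ := hT T τ hinj
    exact hno (hH T f' hf')
  · intro a b hab
    apply hι
    rw [← hπj, ← hπj, hab]
  · exact lt_of_lt_of_le hcard (Nat.card_le_card_of_surjective πP hπP)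
  · intro h hne
    set N := Subgroup.normalClosure {j h} with hN
    haveI : N.Normal := Subgroup.normalClosure_normal
    have hmapN : N.map πP = ⊤ := by
      haveI : (N.map πP).Normal := Subgroup.Normal.map inferInstance πP hπP
      rcases (inferInstance : (N.map πP).Normal).eq_bot_or_eq_top with h0 | h0
      · exfalso
        apply hne
        apply hι
        rw [map_one, ← hπj]
        have : πP (j h) ∈ N.map πP :=
          ⟨j h, Subgroup.subset_normalClosure (Set.mem_singleton _), rfl⟩
        rw [h0] at this
        exact this
      · exact h0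
    -- P / N is solvable
    haveI hKs : Group.IsSolvable πP.ker := by
      let g : πP.ker →* π.ker := (P.subtype.comp πP.ker.subtype).codRestrict π.ker
        (fun x => x.2)
      exact isSolvable_of_isSolvable_injective (f := g) (by
        intro a b hab
        apply Subtype.ext
        apply Subtype.ext
        have h2 : (g a : E') = (g b : E') := by rw [hab]
        exact h2)
    let q : πP.ker →* P ⧸ N := (QuotientGroup.mk' N).comp πP.ker.subtype
    have hq : Surjective q := by
      intro z
      obtain ⟨x, rfl⟩ := QuotientGroup.mk_surjective z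
      have : πP x ∈ N.map πP := by rw [hmapN]; trivial
      obtain ⟨y, hy, hxy⟩ := this
      refine ⟨⟨x * y⁻¹, ?_⟩, ?_⟩
      · rw [MonoidHom.mem_ker, map_mul, map_inv, hxy, mul_inv_cancel]
      · change ((x * y⁻¹ : P) : P ⧸ N) = (x : P ⧸ N)
        rw [QuotientGroup.eq]
        have : (x * y⁻¹)⁻¹ * x = y := by group
        rw [this]; exact hy
    haveI : Group.IsSolvable (P ⧸ N) := isSolvable_of_surjective hq
    by_contra hne2
    haveI : Nontrivial (P ⧸ N) := by
      rw [← not_subsingleton_iff_nontrivial]
      intro hs
      apply hne2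
      exact QuotientGroup.subgroup_eq_top_of_subsingleton N hs
    exact IsPerfect.not_isSolvable (P ⧸ N) inferInstance

end H868.LFS
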