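import Mathlib
import Pool.Agent.Helper868.LFS7

namespace H868.LFS

open Finset Function Group

set_option linter.unusedSectionVars false
set_option linter.style.haveILetI false

section limit

variable {G : ℕ → Type} [∀ n, Group (G n)] (j : ∀ n, G n →* G (n + 1))

/-- transition maps -/
def tr (i k : ℕ) (h : i ≤ k) : G i →* G k :=
  Nat.leRecOn (C := fun k => G i →* G k) h (fun {k} f => (j k).comp f) (MonoidHom.id (G i))

theorem tr_self (i : ℕ) : tr j i i le_rfl = MonoidHom.id (G i) := Nat.leRecOn_self _

theorem tr_succ (i k : ℕ) (h : i ≤ k) (h' : i ≤ k + 1) : tr j i (k + 1) h' = (j k).comp (tr j i k h) :=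
  Nat.leRecOn_succ h _

theorem tr_trans (i k l : ℕ) (h : i ≤ k) (h' : k ≤ l) (x : G i) :
    tr j k l h' (tr j i k h x) = tr j i l (h.trans h') x := by
  induction l, h' using Nat.le_induction with
  | base => rw [tr_self]; rfl
  | succ l h' ih =>
    rw [tr_succ j k l h', tr_succ j i l (h.trans h'), MonoidHom.comp_apply, MonoidHom.comp_apply, ih]

theorem tr_inj (hj : ∀ n, Injective (j n)) (i k : ℕ) (h : i ≤ k) : Injective (tr j i k h) := by
  induction k, h using Nat.le_induction with
  | base => rw [tr_self]; exact injective_id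
  | succ l h ih =>
    rw [tr_succ j i l h]
    exact (hj l).comp ih

instance dirSys : DirectedSystem G (fun i k h => tr j i k h) where
  map_self i x := by
    change tr j i i le_rfl x = x
    rw [tr_self]; rfl
  map_map k i l h h' x := tr_trans j l i k h h' x

theorem exists_limit (hj : ∀ n, Injective (j n)) :
    ∃ (L : Type) (_ : Group L) (o : ∀ n, G n →* L), (∀ n, Injective (o n)) ∧
      (∀ n x, o (n + 1) (j n x) = o n x) ∧ ∀ y : L, ∃ n x, y = o n x := by
  let o : ∀ n, G n →* DirectLimit G (tr j) := fun n =>
    { toFun := fun x => ⟦⟨n, x⟩⟧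
      map_one' := (DirectLimit.one_def n).symm
      map_mul' := fun x y => (DirectLimit.mul_def n x y).symm }
  refine ⟨DirectLimit G (tr j), inferInstance, o, ?_, ?_, ?_⟩
  · intro n
    exact DirectLimit.mk_injective (tr j) (fun i k h => tr_inj j hj i k h) n
  · intro n x
    have h1 : j n x = tr j n (n + 1) (Nat.le_succ n) x := by
      rw [tr_succ j n n le_rfl, MonoidHom.comp_apply, tr_self]; rfl
    rw [h1]
    apply Quotient.sound
    exact ⟨n + 1, le_rfl, Nat.le_succ n, by
      change tr j (n + 1) (n + 1) le_rfl _ = tr j n (n + 1) _ x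
      rw [tr_self]; rfl⟩
  · intro y
    obtain ⟨i, x, hx⟩ := DirectLimit.exists_eq_mk (tr j) y
    exact ⟨i, x, hx⟩

end limit

/-- A stage of the construction. -/
structure Stage where
  G : Type
  [grp : Group G]
  [fin : Finite G]
  [perf : IsPerfect G]
  nos : NoSimp G

attribute [instance] Stage.grp Stage.fin Stage.perf

theorem stage_next (s : Stage) : ∃ (t : Stage) (j : s.G →* t.G), Injective j ∧
    Nat.card s.G < Nat.card t.G ∧ ∀ h : s.G, h ≠ 1 → Subgroup.normalClosure {j h} = ⊤ := by
  obtain ⟨P, _, _, _, j, h1, h2, h3, h4⟩ := next_exists s.G s.nos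
  exact ⟨⟨P, h1⟩, j, h2, h3, h4⟩

/-- the trivial stage -/
def stage0 : Stage where
  G := Unit
  nos := by
    intro T _ _ _ f hf a b
    exact hf (Subsingleton.elim _ _)

noncomputable def tower : ℕ → Stage
  | 0 => stage0
  | n + 1 => (stage_next (tower n)).choose

noncomputable def towerMap (n : ℕ) : (tower n).G →* (tower (n + 1)).G :=
  (stage_next (tower n)).choose_spec.choose

theorem towerMap_spec (n : ℕ) : Injective (towerMap n) ∧
    Nat.card (tower n).G < Nat.card (tower (n + 1)).G ∧
    ∀ h : (tower n).G, h ≠ 1 → Subgroup.normalClosure {towerMap n h} = ⊤ :=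
  (stage_next (tower n)).choose_spec.choose_spec

theorem card_tower (n : ℕ) : n < Nat.card (tower n).G := by
  induction n with
  | zero => exact Nat.card_pos
  | succ n ih => have := (towerMap_spec n).2.1; omega

theorem main : ∃ (G : Type) (_ : Group G), Infinite G ∧ IsSimpleGroup G ∧
    (∀ K : Subgroup G, K.FG → Finite K) ∧
    (∀ K : Subgroup G, Finite K → IsSimpleGroup K → ∀ a b : K, a * b = b * a) := by
  obtain ⟨L, _, o, hinj, hcompat, hunion⟩ := exists_limit towerMap (fun n => (towerMap_spec n).1)
  have hmono : ∀ n m, n ≤ m → ∀ x : (tower n).G, ∃ y : (tower m).G, o n x = o m y := by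
    intro n m h
    induction m, h using Nat.le_induction with
    | base => intro x; exact ⟨x, rfl⟩
    | succ m h ih =>
      intro x
      obtain ⟨y, hy⟩ := ih x
      exact ⟨towerMap m y, by rw [hcompat, hy]⟩
  have hfin : ∀ S : Finset L, ∃ m, ∀ s ∈ S, s ∈ (o m).range := by
    classical
    intro S
    induction S using Finset.induction_on with
    | empty => exact ⟨0, by simp⟩
    | insert a S ha ih =>
      obtain ⟨m, hm⟩ := ih
      obtain ⟨n, x, hx⟩ := hunion a
      refine ⟨max m n, ?_⟩
      intro s hs
      rw [Finset.mem_insert] at hs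
      rcases hs with rfl | hs
      · obtain ⟨y, hy⟩ := hmono n (max m n) (le_max_right _ _) x
        exact ⟨y, by rw [hx, hy]⟩
      · obtain ⟨z, hz⟩ := hm s hs
        obtain ⟨y, hy⟩ := hmono m (max m n) (le_max_left _ _) z
        exact ⟨y, by rw [← hz, hy]⟩
  have hinf : Infinite L := by
    by_contra hno
    rw [not_infinite_iff_finite] at hno
    have h1 := Nat.card_le_card_of_injective _ (hinj (Nat.card L))
    exact absurd (card_tower (Nat.card L)) (not_lt.2 h1)
  refine ⟨L, inferInstance, hinf, ?_, ?_, ?_⟩
  · haveI := hinf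
    refine { exists_pair_ne := exists_pair_ne L, eq_bot_or_eq_top_of_normal := ?_ }
    intro N hN
    by_cases hb : N = ⊥
    · exact Or.inl hb
    right
    obtain ⟨g, hg, hg1⟩ : ∃ g ∈ N, g ≠ 1 := by
      by_contra hno
      push Not at hno
      exact hb ((Subgroup.eq_bot_iff_forall N).2 hno)
    rw [eq_top_iff]
    intro y _
    classical
    obtain ⟨m, hm⟩ := hfin {g, y}
    obtain ⟨x, hx⟩ := hm g (by simp)
    obtain ⟨z, hz⟩ := hm y (by simp)
    have hx1 : x ≠ 1 := by
      rintro rfl
      exact hg1 (by rw [← hx, map_one])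
    have hcl := (towerMap_spec m).2.2 x hx1
    let N' : Subgroup (tower (m + 1)).G := N.comap (o (m + 1))
    have hN' : N'.Normal := hN.comap _
    have hmem : towerMap m x ∈ N' := by
      change o (m + 1) (towerMap m x) ∈ N
      rw [hcompat, hx]; exact hg
    have hle : Subgroup.normalClosure {towerMap m x} ≤ N' :=
      Subgroup.normalClosure_le_normal (by simpa using hmem)
    rw [hcl] at hle
    have : towerMap m z ∈ N' := hle trivial
    have h3 : o (m + 1) (towerMap m z) ∈ N := this
    rw [hcompat, hz] at h3
    exact h3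
  · intro K hK
    obtain ⟨S, hS⟩ := hK
    obtain ⟨m, hm⟩ := hfin S
    have hle : K ≤ (o m).range := by
      rw [← hS, Subgroup.closure_le]
      intro s hs
      exact hm s (by simpa using hs)
    haveI : Finite (o m).range := by
      have : Finite (Set.range (o m)) := Set.finite_range _
      exact this
    exact Finite.of_injective (Subgroup.inclusion hle) (Subgroup.inclusion_injective hle)
  · intro K hKf hKs a b
    classical
    haveI := hKf
    haveI := hKs
    obtain ⟨m, hm⟩ := hfin (Set.toFinite (K : Set L)).toFinset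
    have hle : ∀ k : K, ∃ x : (tower m).G, o m x = k := by
      intro k
      obtain ⟨x, hx⟩ := hm (k : L) (by simp)
      exact ⟨x, hx⟩
    choose f hf using hle
    let φ : K →* (tower m).G :=
      { toFun := f
        map_one' := hinj m (by rw [hf, map_one]; rfl)
        map_mul' := fun a b => hinj m (by rw [hf, map_mul, hf, hf]; rfl) }
    have hφ : Injective φ := by
      intro a b hab
      apply Subtype.ext
      have h2 : f a = f b := hab
      rw [← hf a, ← hf b, h2]
    exact (tower m).nos K φ hφ a b

end H868.LFS
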