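import Mathlib

set_option autoImplicit false

namespace H868.RegFour

/-- The class of groups of odd-torsion type with an operator of order dividing four
whose norm map is trivial. -/
structure Cls {G : Type*} [Group G] (φ : G →* G) : Prop where
  odd : ∀ g : G, ∃ m : ℕ, g ^ (2 * m + 1) = 1
  four : ∀ g : G, φ (φ (φ (φ g))) = g
  norm : ∀ g : G, g * φ g * φ (φ g) * φ (φ (φ g)) = 1

/-- If an involutory operator on a torsion subgroup has no fixed involution then the
subgroup has no involution. -/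
theorem no_invol {G : Type*} [Group G] (ψ : G →* G) (K : Subgroup G)
    (tors : ∀ g : G, IsOfFinOrder g)
    (hK : ∀ x ∈ K, ψ x ∈ K) (h2 : ∀ x ∈ K, ψ (ψ x) = x)
    (hf : ∀ x ∈ K, ψ x = x → x * x = 1 → x = 1) :
    ∀ t ∈ K, t * t = 1 → t = 1 := by
  intro t ht htt
  set u := t * ψ t with hu
  have htinv : t⁻¹ = t := by rw [inv_eq_iff_mul_eq_one]; exact htt
  have hψtt : ψ t * ψ t = 1 := by rw [← map_mul, htt, map_one]
  have hψtinv : (ψ t)⁻¹ = ψ t := by rw [inv_eq_iff_mul_eq_one]; exact hψtt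
  have hψu : ψ u = u⁻¹ := by
    rw [hu, map_mul, h2 t ht, mul_inv_rev, hψtinv, htinv]
  have huK : u ∈ K := K.mul_mem ht (hK t ht)
  have hn : 0 < orderOf u := (tors u).orderOf_pos
  rcases Nat.even_or_odd (orderOf u) with he | ho
  · obtain ⟨k, hk⟩ := he
    have hkpos : 0 < k := by omega
    have hj : u ^ k * u ^ k = 1 := by
      rw [← pow_add, ← hk, pow_orderOf_eq_one]
    have hjinv : (u ^ k)⁻¹ = u ^ k := by rw [inv_eq_iff_mul_eq_one]; exact hj
    have hjf : ψ (u ^ k) = u ^ k := by
      rw [map_pow, hψu, inv_pow, hjinv]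
    have h1 := hf (u ^ k) (K.pow_mem huK k) hjf hj
    have h2' := orderOf_dvd_of_pow_eq_one h1
    have := Nat.le_of_dvd hkpos h2'
    omega
  · obtain ⟨k, hk⟩ := ho
    have hv2 : u ^ (k + 1) * u ^ (k + 1) = u := by
      rw [← pow_add, show k + 1 + (k + 1) = orderOf u + 1 by omega, pow_succ, pow_orderOf_eq_one,
        one_mul]
    set v := u ^ (k + 1) with hv
    have hψv : ψ v = v⁻¹ := by rw [hv, map_pow, hψu, inv_pow]
    have hψt : ψ t = t * u := by rw [hu, ← mul_assoc, htt, one_mul]
    have hfix : ψ (t * v) = t * v := by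
      rw [map_mul, hψt, hψv]
      calc t * u * v⁻¹ = t * (v * v) * v⁻¹ := by rw [hv2]
        _ = t * v := by group
    have htut : t * u * t⁻¹ = u⁻¹ := by
      rw [← hψu, hu, map_mul, h2 t ht, ← mul_assoc, htt, one_mul, htinv]
    have htvt : t * v * t⁻¹ = v⁻¹ := by
      rw [hv, ← conj_pow, htut, inv_pow]
    have hsq : t * v * (t * v) = 1 := by
      have h3 : t * v * t = v⁻¹ := by rw [← htvt, htinv]
      rw [← mul_assoc, h3, inv_mul_cancel]
    have hvK : v ∈ K := K.pow_mem huK _
    have h1 := hf (t * v) (K.mul_mem ht hvK) hfix hsq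
    have hvt : v = t := by
      rw [← htinv]; exact eq_inv_of_mul_eq_one_right h1
    have hu1 : u = 1 := by rw [← hv2, hvt, htt]
    have hψt' : ψ t = t := by rw [hψt, hu1, mul_one]
    exact hf t ht hψt' htt

/-- existence of a square root which is a power, for an element of odd order -/
theorem sqrt_pow {G : Type*} [Group G] (g : G) (m : ℕ) (h : g ^ (2 * m + 1) = 1) :
    g ^ (m + 1) * g ^ (m + 1) = g := by
  rw [← pow_add, show m + 1 + (m + 1) = 2 * m + 1 + 1 by ring, pow_succ, h, one_mul]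

/-- A torsion group with a regular operator of order dividing four lies in the class. -/
theorem cls_of_regular {G : Type*} [Group G] (φ : G →* G)
    (tors : ∀ g : G, IsOfFinOrder g)
    (four : ∀ g : G, φ (φ (φ (φ g))) = g)
    (reg : ∀ g : G, φ g = g → g = 1) : Cls φ := by
  have hinj : Function.Injective φ := by
    intro x y hxy
    rw [← four x, ← four y, hxy]
  -- no involutions among the fixed points of the square
  have hC : ∀ t : G, φ (φ t) = t → t * t = 1 → t = 1 := by
    let K : Subgroup G :=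
      { carrier := {x | φ (φ x) = x}
        mul_mem' := by intro a b ha hb; simp only [Set.mem_ofPred_eq, map_mul] at *; rw [ha, hb]
        one_mem' := by simp
        inv_mem' := by intro a ha; simp only [Set.mem_ofPred_eq, map_inv] at *; rw [ha] }
    intro t ht
    refine no_invol φ K tors ?_ ?_ ?_ t ht
    · intro x hx
      change φ (φ (φ x)) = φ x
      rw [show φ (φ x) = x from hx]
    · intro x hx; exact hx
    · intro x _ hx _; exact reg x hx
  have hG : ∀ t : G, t * t = 1 → t = 1 := by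
    intro t ht
    refine no_invol (φ.comp φ) ⊤ tors ?_ ?_ ?_ t (Subgroup.mem_top t) ht
    · intro x _; exact Subgroup.mem_top _
    · intro x _; exact four x
    · intro x _ hx hxx; exact hC x hx hxx
  have hodd : ∀ g : G, ∃ m : ℕ, g ^ (2 * m + 1) = 1 := by
    intro g
    have hn : 0 < orderOf g := (tors g).orderOf_pos
    rcases Nat.even_or_odd (orderOf g) with he | ho
    · obtain ⟨k, hk⟩ := he
      have hj : g ^ k * g ^ k = 1 := by
        rw [← pow_add, ← hk, pow_orderOf_eq_one]
      have h1 := hG _ hj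
      have h2' := orderOf_dvd_of_pow_eq_one h1
      have := Nat.le_of_dvd (by omega) h2'
      omega
    · obtain ⟨k, hk⟩ := ho
      exact ⟨k, by rw [← hk, pow_orderOf_eq_one]⟩
  refine ⟨hodd, four, ?_⟩
  intro g
  set n := g * φ g * φ (φ g) * φ (φ (φ g)) with hn
  have hφn : φ n = g⁻¹ * n * g := by
    rw [hn]; simp only [map_mul, four]; group
  obtain ⟨m, hm⟩ := hodd n
  set s := m * (m + 1) with hs
  have hn4 : n ^ (1 + 4 * s) = 1 := by
    rw [show 1 + 4 * s = (2 * m + 1) * (2 * m + 1) by rw [hs]; ring, pow_mul, hm, one_pow]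
  set ns := n ^ s with hns
  have hnn : Commute n ns := Commute.pow_right (Commute.refl n) s
  have hφns : φ ns = g⁻¹ * ns * g := by
    rw [hns, map_pow, hφn]
    have := conj_pow (i := s) (a := g⁻¹) (b := n)
    rw [inv_inv] at this
    exact this
  have hns4 : n * (ns * ns * (ns * ns)) = 1 := by
    rw [hns, ← pow_add, ← pow_add]
    calc n * n ^ (s + s + (s + s)) = n ^ (1 + 4 * s) := by
          rw [show 1 + 4 * s = (s + s + (s + s)) + 1 by ring, pow_succ']
      _ = 1 := hn4
  set g1 := ns * g with hg1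
  have hN1 : g1 * φ g1 * φ (φ g1) * φ (φ (φ g1)) = 1 := by
    have e1 : φ g1 = g⁻¹ * ns * g * φ g := by rw [hg1, map_mul, hφns]
    have e2 : φ (φ g1) = (g * φ g)⁻¹ * ns * (g * φ g) * φ (φ g) := by
      rw [e1]; simp only [map_mul, map_inv, hφns]; group
    have e3 : φ (φ (φ g1)) = (g * φ g * φ (φ g))⁻¹ * ns * (g * φ g * φ (φ g)) * φ (φ (φ g)) := by
      rw [e2]; simp only [map_mul, map_inv, hφns]; group
    rw [e3, e2, e1, hg1]
    have : ns * g * (g⁻¹ * ns * g * φ g) * ((g * φ g)⁻¹ * ns * (g * φ g) * φ (φ g)) *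
        ((g * φ g * φ (φ g))⁻¹ * ns * (g * φ g * φ (φ g)) * φ (φ (φ g)))
        = (ns * ns * (ns * ns)) * n := by
      rw [hn]; group
    rw [this, ← hns4]
    have hc : Commute n (ns * ns * (ns * ns)) :=
      ((hnn.mul_right hnn).mul_right (hnn.mul_right hnn))
    exact hc.eq.symm
  -- first square root
  set v := g1 * φ g1 with hv
  have hvτ : φ (φ v) = v⁻¹ := by
    have : v * φ (φ v) = 1 := by
      rw [← hN1, hv]; simp only [map_mul]; group
    exact eq_inv_of_mul_eq_one_right this
  obtain ⟨j, hj⟩ := hodd v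
  set k := v ^ (j + 1) with hk
  have hkk : k * k = v := sqrt_pow v j hj
  have hkτ : φ (φ k) = k⁻¹ := by rw [hk, map_pow, map_pow, hvτ, inv_pow]
  set g2 := k⁻¹ * g1 * φ k with hg2
  have hg2φ : g2 * φ g2 = 1 := by
    have : g2 * φ g2 = k⁻¹ * v * φ (φ k) := by
      rw [hg2, hv]; simp only [map_mul, map_inv]; group
    rw [this, hkτ, ← hkk]; group
  have hφg2 : φ g2 = g2⁻¹ := eq_inv_of_mul_eq_one_right hg2φ
  obtain ⟨i, hi⟩ := hodd g2
  set l := g2 ^ (i + 1) with hl
  have hll : l * l = g2 := sqrt_pow g2 i hi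
  have hφl : φ l = l⁻¹ := by rw [hl, map_pow, hφg2, inv_pow]
  set h := l⁻¹ * k⁻¹ with hh
  have hg1h : g1 = h⁻¹ * φ h := by
    have : g1 = k * g2 * (φ k)⁻¹ := by rw [hg2]; group
    rw [this, hh, ← hll]; simp only [map_mul, map_inv, hφl]; group
  have hcomm : g1 * φ n * g1⁻¹ = n := by
    rw [hφn, hg1]
    have : ns * g * (g⁻¹ * n * g) * (ns * g)⁻¹ = ns * n * ns⁻¹ := by group
    rw [this, ← hnn.eq]; group
  have hfix : φ (h * n * h⁻¹) = h * n * h⁻¹ := by
    have : φ (h * n * h⁻¹) = h * (g1 * φ n * g1⁻¹) * h⁻¹ := by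
      rw [hg1h]; simp only [map_mul, map_inv]; group
    rw [this, hcomm]
  have h1 := reg _ hfix
  have : n = h⁻¹ * (h * n * h⁻¹) * h := by group
  rw [this, h1]; group

end H868.RegFour
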