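import Mathlib
import Pool.Agent.Helper868.RegFour1

set_option autoImplicit false

namespace H868.RegFour

variable {G : Type*} [Group G]

/-- fixed points of the square of the operator -/
def Cs (φ : G →* G) : Subgroup G where
  carrier := {x | φ (φ x) = x}
  mul_mem' := by
    intro a b ha hb
    change φ (φ (a * b)) = a * b
    rw [map_mul, map_mul, show φ (φ a) = a from ha, show φ (φ b) = b from hb]
  one_mem' := by change φ (φ 1) = 1; simp
  inv_mem' := by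
    intro a ha
    change φ (φ a⁻¹) = a⁻¹
    rw [map_inv, map_inv, show φ (φ a) = a from ha]

theorem mem_Cs {φ : G →* G} {x : G} : x ∈ Cs φ ↔ φ (φ x) = x := Iff.rfl

/-- elements inverted by the square of the operator -/
def Inv (φ : G →* G) (a : G) : Prop := φ (φ a) = a⁻¹

namespace Cls

variable {φ : G →* G}

theorem sqrt (h : Cls φ) (g : G) : ∃ n : ℕ, g ^ n * g ^ n = g := by
  obtain ⟨m, hm⟩ := h.odd g
  exact ⟨m + 1, sqrt_pow g m hm⟩

theorem sq_one (h : Cls φ) {g : G} (hg : g * g = 1) : g = 1 := by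
  obtain ⟨m, hm⟩ := h.odd g
  have : g ^ (2 * m) = 1 := by rw [pow_mul, pow_two, hg, one_pow]
  rw [pow_succ, this, one_mul] at hm
  exact hm

/-- a square commutes implies the root commutes -/
theorem commute_of_sq (h : Cls φ) {x y : G} (hxy : Commute (x * x) y) : Commute x y := by
  obtain ⟨m, hm⟩ := h.odd x
  have h1 : (x * x) ^ (m + 1) = x := by
    rw [← pow_two, ← pow_mul, show 2 * (m + 1) = 2 * m + 1 + 1 by ring, pow_succ, hm, one_mul]
  rw [← h1]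
  exact hxy.pow_left _

theorem sq_inj (h : Cls φ) {x y : G} (hxy : x * x = y * y) : x = y := by
  have h1 : Commute x y := by
    apply h.commute_of_sq
    rw [hxy]
    exact (Commute.refl y).mul_left (Commute.refl y)
  have h2 : (x * y⁻¹) * (x * y⁻¹) = 1 := by
    have h3 : Commute x y⁻¹ := h1.inv_right
    calc (x * y⁻¹) * (x * y⁻¹) = x * (y⁻¹ * x) * y⁻¹ := by group
      _ = x * (x * y⁻¹) * y⁻¹ := by rw [h3.eq]
      _ = (x * x) * (y * y)⁻¹ := by group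
      _ = 1 := by rw [hxy]; group
  have h4 := h.sq_one h2
  exact mul_inv_eq_one.1 h4

theorem reg (h : Cls φ) {g : G} (hg : φ g = g) : g = 1 := by
  have h1 := h.norm g
  rw [hg, hg, hg] at h1
  have h2 : (g * g) * (g * g) = 1 := by rw [← h1]; group
  exact h.sq_one (h.sq_one h2)

theorem phi_C (h : Cls φ) {c : G} (hc : c ∈ Cs φ) : φ c = c⁻¹ := by
  have h1 := h.norm c
  rw [mem_Cs.1 hc] at h1
  have h2 : (c * φ c) * (c * φ c) = 1 := by rw [← h1]; group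
  exact (eq_inv_of_mul_eq_one_right (h.sq_one h2))

theorem phi_mem_C (h : Cls φ) {c : G} (hc : c ∈ Cs φ) : φ c ∈ Cs φ := by
  rw [h.phi_C hc]; exact (Cs φ).inv_mem hc

theorem comm_C (h : Cls φ) {c d : G} (hc : c ∈ Cs φ) (hd : d ∈ Cs φ) : Commute c d := by
  have h1 := h.phi_C ((Cs φ).mul_mem hc hd)
  rw [map_mul, h.phi_C hc, h.phi_C hd] at h1
  have h2 : (d * c)⁻¹ = (c * d)⁻¹ := by rw [← h1]; group
  exact (inv_injective h2).symm

theorem eq_one_of_C_I (h : Cls φ) {c : G} (hc : c ∈ Cs φ) (hi : Inv φ c) : c = 1 := by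
  have h1 : c = c⁻¹ := (mem_Cs.1 hc).symm.trans hi
  apply h.sq_one
  nth_rewrite 1 [h1]
  exact inv_mul_cancel c

theorem decomp (h : Cls φ) (g : G) : ∃ c ∈ Cs φ, ∃ d, Inv φ d ∧ g = c * d := by
  set w := g⁻¹ * φ (φ g) with hw
  have hww : φ (φ w) = w⁻¹ := by
    rw [hw]; simp only [map_mul, map_inv, h.four]; group
  obtain ⟨n, hn⟩ := h.sqrt w
  set v := w ^ n with hv
  have hvv : φ (φ v) = v⁻¹ := by rw [hv, map_pow, map_pow, hww, inv_pow]
  refine ⟨g * v, ?_, v⁻¹, ?_, by group⟩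
  · rw [mem_Cs, map_mul, map_mul, hvv]
    calc φ (φ g) * v⁻¹ = g * w * v⁻¹ := by rw [hw]; group
      _ = g * (v * v) * v⁻¹ := by rw [hn]
      _ = g * v := by group
  · change φ (φ v⁻¹) = v⁻¹⁻¹
    rw [map_inv, map_inv, hvv]

theorem decomp' (h : Cls φ) (g : G) : ∃ d, Inv φ d ∧ ∃ c ∈ Cs φ, g = d * c := by
  obtain ⟨c, hc, d, hd, hg⟩ := h.decomp g⁻¹
  refine ⟨d⁻¹, ?_, c⁻¹, (Cs φ).inv_mem hc, ?_⟩
  · change φ (φ d⁻¹) = d⁻¹⁻¹
    rw [map_inv, map_inv, show φ (φ d) = d⁻¹ from hd]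
  · rw [← inv_inv g, hg]; group

theorem uniq (h : Cls φ) {c c' d d' : G} (hc : c ∈ Cs φ) (hc' : c' ∈ Cs φ) (hd : Inv φ d)
    (hd' : Inv φ d') (he : c * d = c' * d') : c = c' ∧ d = d' := by
  have h1 : c'⁻¹ * c = d' * d⁻¹ := by
    calc c'⁻¹ * c = c'⁻¹ * (c * d) * d⁻¹ := by group
      _ = d' * d⁻¹ := by rw [he]; group
  have h2 : φ (φ (d' * d⁻¹)) = d' * d⁻¹ := by
    rw [← h1]; exact mem_Cs.1 ((Cs φ).mul_mem ((Cs φ).inv_mem hc') hc)
  have h3 : d * d = d' * d' := by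
    have h4 : d'⁻¹ * d = d' * d⁻¹ := by
      rw [← h2]; simp only [map_mul, map_inv]
      rw [show φ (φ d') = d'⁻¹ from hd', show φ (φ d) = d⁻¹ from hd]; group
    calc d * d = d' * (d'⁻¹ * d) * d := by group
      _ = d' * d' := by rw [h4]; group
  have h5 := h.sq_inj h3
  refine ⟨?_, h5⟩
  rw [h5] at he
  exact mul_right_cancel he

/-- first commutation law -/
theorem L1 (h : Cls φ) {a c : G} (ha : Inv φ a) (hc : c ∈ Cs φ) : Commute a (c * φ a * c⁻¹) := by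
  have h1 := h.norm (a * c)
  have e1 : φ (a * c) = φ a * c⁻¹ := by rw [map_mul, h.phi_C hc]
  have e2 : φ (φ (a * c)) = a⁻¹ * c := by
    rw [map_mul, map_mul, mem_Cs.1 hc, show φ (φ a) = a⁻¹ from ha]
  have e3 : φ (φ (φ (a * c))) = (φ a)⁻¹ * c⁻¹ := by
    rw [e2, map_mul, map_inv, h.phi_C hc]
  rw [e3, e2, e1] at h1
  have h2 : a * (c * φ a * c⁻¹) * a⁻¹ * (c * φ a * c⁻¹)⁻¹ = 1 := by
    rw [← h1]; group
  have h3 : a * (c * φ a * c⁻¹) * a⁻¹ = c * φ a * c⁻¹ := mul_inv_eq_one.1 h2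
  exact mul_inv_eq_iff_eq_mul.1 h3

theorem inv_phi {a : G} (ha : Inv φ a) : Inv φ (φ a) := by
  change φ (φ (φ a)) = (φ a)⁻¹
  rw [show φ (φ a) = a⁻¹ from ha, map_inv]

theorem inv_conj {a c : G} (ha : Inv φ a) (hc : c ∈ Cs φ) : Inv φ (c * a * c⁻¹) := by
  change φ (φ (c * a * c⁻¹)) = (c * a * c⁻¹)⁻¹
  simp only [map_mul, map_inv]
  rw [mem_Cs.1 hc, show φ (φ a) = a⁻¹ from ha]; group

/-- the exchange relation -/
theorem swap (h : Cls φ) {p q : G} (hp : Inv φ p) (hq : Inv φ q) :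
    ∃ z ∈ Cs φ, z * q * p * z = p * q := by
  obtain ⟨z, hz, d, hd, hpq⟩ := h.decomp (p * q)
  refine ⟨z, hz, ?_⟩
  have h1 : φ (φ (p * q)) = z * d⁻¹ := by
    rw [hpq, map_mul, map_mul, mem_Cs.1 hz, show φ (φ d) = d⁻¹ from hd]
  rw [map_mul, map_mul, show φ (φ p) = p⁻¹ from hp, show φ (φ q) = q⁻¹ from hq] at h1
  have h2 : q * p = d * z⁻¹ := by
    have : (p⁻¹ * q⁻¹)⁻¹ = (z * d⁻¹)⁻¹ := by rw [h1]
    simpa using this
  calc z * q * p * z = z * (q * p) * z := by group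
    _ = z * (d * z⁻¹) * z := by rw [h2]
    _ = z * d := by group
    _ = p * q := hpq.symm

/-- the `C`-component from the exchange relation -/
theorem inv_of_swap {p q z : G} (hp : Inv φ p) (hq : Inv φ q) (hz : z ∈ Cs φ)
    (hs : z * q * p * z = p * q) : Inv φ (z⁻¹ * (p * q)) := by
  change φ (φ (z⁻¹ * (p * q))) = (z⁻¹ * (p * q))⁻¹
  simp only [map_mul, map_inv]
  rw [mem_Cs.1 hz, show φ (φ p) = p⁻¹ from hp, show φ (φ q) = q⁻¹ from hq, ← hs]
  group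

theorem commute_of_conj_inv (h : Cls φ) {y s : G} (hs : y⁻¹ * s * y = s⁻¹) : s = 1 := by
  have h1 : Commute (y * y) s := by
    have : (y * y)⁻¹ * s * (y * y) = s := by
      calc (y * y)⁻¹ * s * (y * y) = y⁻¹ * (y⁻¹ * s * y) * y := by group
        _ = y⁻¹ * s⁻¹ * y := by rw [hs]
        _ = (y⁻¹ * s * y)⁻¹ := by group
        _ = s := by rw [hs, inv_inv]
    have h2 : s * (y * y) = (y * y) * s := by
      calc s * (y * y) = (y * y) * ((y * y)⁻¹ * s * (y * y)) := by group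
        _ = (y * y) * s := by rw [this]
    exact h2.symm
  have h2 : Commute y s := h.commute_of_sq h1
  have h3 : s = s⁻¹ := by
    rw [← hs, mul_assoc, ← h2.eq]; group
  apply h.sq_one
  nth_rewrite 1 [h3]
  exact inv_mul_cancel s

theorem aux_sq {H : Type*} [Group H] (x y : H) : x * (y⁻¹ * y⁻¹ * x)⁻¹ = y * y := by
  rw [mul_inv_rev, mul_inv_rev, inv_inv, mul_inv_cancel_left]

/-- second commutation law -/
theorem L2 (h : Cls φ) {a b z : G} (ha : Inv φ a) (hb : Inv φ b)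
    (hab : ∀ c ∈ Cs φ, Commute a (c * φ b * c⁻¹))
    (hba : ∀ c ∈ Cs φ, Commute b (c * φ a * c⁻¹))
    (hz : z ∈ Cs φ) (hs : z * b * a * z = a * b) : Commute z a := by
  set P := a * b with hP
  set Q := φ b * φ a with hQ
  have hba' : b * a = z⁻¹ * P * z⁻¹ := by rw [← hs]; group
  set d := z⁻¹ * P with hd
  have hdI : Inv φ d := inv_of_swap ha hb hz hs
  have hdba : d = b * a * z := by rw [hba', hd]; group
  have hφd : φ d = Q * z⁻¹ := by
    rw [hdba, map_mul, map_mul, h.phi_C hz]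
  have hPQ : ∀ c ∈ Cs φ, Commute P (c * Q * c⁻¹) := by
    intro c hc
    have e : c * Q * c⁻¹ = (c * φ b * c⁻¹) * (c * φ a * c⁻¹) := by rw [hQ]; group
    rw [e]
    exact ((hab c hc).mul_right (h.L1 ha hc)).mul_left ((h.L1 hb hc).mul_right (hba c hc))
  have key : ∀ c ∈ Cs φ, c * (Q⁻¹ * z⁻¹ * Q * z) * c⁻¹ = z⁻¹ * z⁻¹ * P * z * P⁻¹ * z := by
    intro c hc
    have hcz : Commute c z := h.comm_C hc hz
    have h1 := (h.L1 hdI hc).eq
    rw [hφd, hd] at h1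
    -- z⁻¹ P (c Q z⁻¹ c⁻¹) = (c Q z⁻¹ c⁻¹) z⁻¹ P
    have e1 : c * (Q * z⁻¹) * c⁻¹ = (c * Q * c⁻¹) * z⁻¹ := by
      have : z⁻¹ * c⁻¹ = c⁻¹ * z⁻¹ := (hcz.inv_inv.eq).symm
      calc c * (Q * z⁻¹) * c⁻¹ = c * Q * (z⁻¹ * c⁻¹) := by group
        _ = (c * Q * c⁻¹) * z⁻¹ := by rw [this]; group
    rw [e1] at h1
    set Qc := c * Q * c⁻¹ with hQc
    have h2 : z⁻¹ * (Qc * P) * z⁻¹ = Qc * z⁻¹ * z⁻¹ * P := by
      rw [← (hPQ c hc).eq]
      calc z⁻¹ * (P * Qc) * z⁻¹ = z⁻¹ * P * (Qc * z⁻¹) := by group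
        _ = Qc * z⁻¹ * (z⁻¹ * P) := h1
        _ = Qc * z⁻¹ * z⁻¹ * P := by group
    have h3 : c * (Q⁻¹ * z⁻¹ * Q * z) * c⁻¹ = Qc⁻¹ * z⁻¹ * Qc * z := by
      have e2 : c * z⁻¹ = z⁻¹ * c := hcz.inv_right.eq
      have e3 : z * c⁻¹ = c⁻¹ * z := (hcz.symm.inv_right).eq
      calc c * (Q⁻¹ * z⁻¹ * Q * z) * c⁻¹ = c * Q⁻¹ * z⁻¹ * Q * (z * c⁻¹) := by group
        _ = c * Q⁻¹ * c⁻¹ * (c * z⁻¹) * Q * (c⁻¹ * z) := by rw [e3]; group
        _ = Qc⁻¹ * z⁻¹ * Qc * z := by rw [e2, hQc]; group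
    rw [h3]
    have h4 : z⁻¹ * Qc = Qc * z⁻¹ * z⁻¹ * P * z * P⁻¹ := by
      rw [← h2]; group
    calc Qc⁻¹ * z⁻¹ * Qc * z = Qc⁻¹ * (z⁻¹ * Qc) * z := by group
      _ = z⁻¹ * z⁻¹ * P * z * P⁻¹ * z := by rw [h4]; group
  set W := Q⁻¹ * z⁻¹ * Q * z with hW
  have hW1 : W = z⁻¹ * z⁻¹ * P * z * P⁻¹ * z := by
    have := key 1 (Cs φ).one_mem
    simpa using this
  have hWz : z * W * z⁻¹ = W := by rw [key z hz, ← hW1]
  have hφQ : φ Q = P⁻¹ := by
    rw [hQ, map_mul, show φ (φ b) = b⁻¹ from hb, show φ (φ a) = a⁻¹ from ha, hP]; group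
  have hφW : φ W = W := by
    have e1 : φ W = P * z * P⁻¹ * z⁻¹ := by
      rw [hW]; simp only [map_mul, map_inv, hφQ, h.phi_C hz]; group
    have e2 : W = P * z * P⁻¹ * z⁻¹ := by
      calc W = z * (z * W * z⁻¹) * z⁻¹ := by rw [hWz, hWz]
        _ = z * (z * (z⁻¹ * z⁻¹ * P * z * P⁻¹ * z) * z⁻¹) * z⁻¹ := by rw [← hW1]
        _ = P * z * P⁻¹ * z⁻¹ := by group
    rw [e1, ← e2]
  have hW0 : W = 1 := h.reg hφW
  have hPz : P * z = z * P := by
    have : P * z * P⁻¹ = z := by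
      calc P * z * P⁻¹ = z * z * (z⁻¹ * z⁻¹ * P * z * P⁻¹ * z) * z⁻¹ := by group
        _ = z := by rw [← hW1, hW0]; group
    exact mul_inv_eq_iff_eq_mul.1 this
  have hzz : z * z = a * b * a⁻¹ * b⁻¹ := by
    have : b * a = z⁻¹ * z⁻¹ * P := by
      rw [hba']
      calc z⁻¹ * P * z⁻¹ = z⁻¹ * (z⁻¹ * (z * P)) * z⁻¹ := by group
        _ = z⁻¹ * (z⁻¹ * (P * z)) * z⁻¹ := by rw [hPz]
        _ = z⁻¹ * z⁻¹ * P := by group
    calc z * z = P * (z⁻¹ * z⁻¹ * P)⁻¹ := (aux_sq P z).symm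
      _ = P * (b * a)⁻¹ := by rw [this]
      _ = a * b * a⁻¹ * b⁻¹ := by rw [hP]; group
  have hzz' : (z * z)⁻¹ = φ a * φ b * (φ a)⁻¹ * (φ b)⁻¹ := by
    have e := congrArg φ hzz
    rw [map_mul, h.phi_C hz] at e
    simp only [map_mul, map_inv] at e
    rw [← e]; group
  have c1 : Commute a (φ a) := by simpa using h.L1 ha (Cs φ).one_mem
  have c2 : Commute a (φ b) := by simpa using hab 1 (Cs φ).one_mem
  have c3 : Commute a (z * z)⁻¹ := by
    rw [hzz']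
    exact ((c1.mul_right c2).mul_right c1.inv_right).mul_right c2.inv_right
  have c4 : Commute (z * z) a := by
    have := c3.inv_right
    rw [inv_inv] at this
    exact this.symm
  exact h.commute_of_sq c4

end Cls

end H868.RegFour
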