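import Mathlib
import Pool.Agent.Helper868.RegFour2

set_option autoImplicit false

namespace H868.RegFour

theorem comm_aux_add {M : Type*} [AddCommGroup M] (t1 tx tx' tz tz' txz tzx : M)
    (h : t1 = -(tz' + -t1 + tx') + (t1 + -tz + txz) + (tzx + -tx + t1)) :
    (t1 + -tx + -tz' + tzx) + (txz + -tz + -tx' + t1) = 0 := by
  have e : (t1 + -tx + -tz' + tzx) + (txz + -tz + -tx' + t1)
      = (-(tz' + -t1 + tx') + (t1 + -tz + txz) + (tzx + -tx + t1)) - t1 := by abel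
  rw [e, ← h, sub_self]

theorem comm_aux {M : Type*} [CommGroup M] (t1 tx tx' tz tz' txz tzx : M)
    (h : t1 = (tz' * t1⁻¹ * tx')⁻¹ * (t1 * tz⁻¹ * txz) * (tzx * tx⁻¹ * t1)) :
    (t1 * tx⁻¹ * tz'⁻¹ * tzx) * (txz * tz⁻¹ * tx'⁻¹ * t1) = 1 :=
  comm_aux_add (M := Additive M) t1 tx tx' tz tz' txz tzx h

theorem comm_aux2_add {M : Type*} [AddCommGroup M] (t1 tx tz' tzx : M)
    (h : t1 + -tx + -tz' + tzx = 0) : t1 + -tz' = tx + -tzx := by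
  have e : t1 + -tz' = (t1 + -tx + -tz' + tzx) + (tx + -tzx) := by abel
  rw [e, h, zero_add]

theorem comm_aux2 {M : Type*} [CommGroup M] (t1 tx tz' tzx : M)
    (h : t1 * tx⁻¹ * tz'⁻¹ * tzx = 1) : t1 * tz'⁻¹ = tx * tzx⁻¹ :=
  comm_aux2_add (M := Additive M) t1 tx tz' tzx h

variable {G : Type*} [Group G]

namespace Cls

variable {φ : G →* G}

theorem commute_of_Inv {A : Subgroup G} (hA : ∀ x ∈ A, Inv φ x) {x y : G} (hx : x ∈ A)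
    (hy : y ∈ A) : Commute x y := by
  have h1 : φ (φ (x * y)) = (x * y)⁻¹ := hA _ (A.mul_mem hx hy)
  rw [map_mul, map_mul, show φ (φ x) = x⁻¹ from hA x hx, show φ (φ y) = y⁻¹ from hA y hy] at h1
  have h2 : (y * x)⁻¹ = (x * y)⁻¹ := by rw [← h1]; group
  exact (inv_injective h2).symm

/-- the additivity formula -/
theorem add_formula (h : Cls φ) {A B : Subgroup G} (hA : ∀ x ∈ A, Inv φ x)
    (hB : ∀ x ∈ B, Inv φ x) (hAC : ∀ c ∈ Cs φ, ∀ x ∈ A, c * x * c⁻¹ ∈ A)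
    (hBC : ∀ c ∈ Cs φ, ∀ x ∈ B, c * x * c⁻¹ ∈ B) {p1 p2 q z w : G} (hp1 : p1 ∈ A)
    (hp2 : p2 ∈ A) (hq : q ∈ B) (hz : z ∈ Cs φ) (hw : w ∈ Cs φ)
    (hzs : z * q * p2 * z = p2 * q)
    (hws : w * q * (z⁻¹ * p1 * z) * w = (z⁻¹ * p1 * z) * q) :
    (z⁻¹ * p1 * z) * (w * p2 * w⁻¹) = p1 * p2 := by
  obtain ⟨Z, hZ, hZs⟩ := h.swap (hA _ (A.mul_mem hp1 hp2)) (hB q hq)
  set r1 := z⁻¹ * p1 * z with hr1
  set r := r1 * (w * p2 * w⁻¹) with hr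
  have hzw : Commute z w := h.comm_C hz hw
  have hr1A : r1 ∈ A := by
    have := hAC z⁻¹ ((Cs φ).inv_mem hz) p1 hp1
    rwa [inv_inv] at this
  have hrA : r ∈ A := A.mul_mem hr1A (hAC w hw p2 hp2)
  have e1 : p1 * p2 * q = (z * w) * q * r * (z * w) := by
    calc p1 * p2 * q = p1 * (p2 * q) := by group
      _ = p1 * (z * q * p2 * z) := by rw [hzs]
      _ = z * (r1 * q) * p2 * z := by rw [hr1]; group
      _ = z * (w * q * r1 * w) * p2 * z := by rw [← hws]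
      _ = (z * w) * q * r * (w * z) := by rw [hr]; group
      _ = (z * w) * q * r * (z * w) := by rw [hzw.eq]
  set S := z * w with hS
  have hSC : S ∈ Cs φ := (Cs φ).mul_mem hz hw
  set u := Z⁻¹ * S with hu
  have huC : u ∈ Cs φ := (Cs φ).mul_mem ((Cs φ).inv_mem hZ) hSC
  have hSZ : S * Z⁻¹ = u := by rw [hu]; exact (h.comm_C hSC ((Cs φ).inv_mem hZ)).eq
  have e2 : u * q * r * u = q * (p1 * p2) := by
    calc u * q * r * u = Z⁻¹ * (S * q * r * S) * Z⁻¹ := by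
          nth_rewrite 2 [← hSZ]; rw [hu]; group
      _ = Z⁻¹ * (Z * q * (p1 * p2) * Z) * Z⁻¹ := by rw [← e1, hZs]
      _ = q * (p1 * p2) := by group
  have hb : q⁻¹ * (u * q * u⁻¹) ∈ B := B.mul_mem (B.inv_mem hq) (hBC u huC q hq)
  have hu2 : u * u ∈ Cs φ := (Cs φ).mul_mem huC huC
  have hg : (u * u) * (p1 * p2) * (u * u)⁻¹ * (u * r * u⁻¹)⁻¹ ∈ A :=
    A.mul_mem (hAC _ hu2 _ (A.mul_mem hp1 hp2)) (A.inv_mem (hAC u huC r hrA))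
  have e3 : 1 * (q⁻¹ * (u * q * u⁻¹))
      = (u * u)⁻¹ * ((u * u) * (p1 * p2) * (u * u)⁻¹ * (u * r * u⁻¹)⁻¹) := by
    have e4 : (u * q * u⁻¹) * (u * r * u⁻¹) * (u * u) = q * (p1 * p2) := by
      rw [← e2]; group
    have e5 : u * q * u⁻¹ = q * (p1 * p2) * (u * u)⁻¹ * (u * r * u⁻¹)⁻¹ := by
      rw [← e4]; group
    rw [e5]; group
  obtain ⟨h1, h2⟩ := h.uniq (Cs φ).one_mem ((Cs φ).inv_mem hu2) (hB _ hb) (hA _ hg) e3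
  have hu1 : u = 1 := by
    apply h.sq_one
    have := congrArg (·⁻¹) h1
    simpa using this.symm
  rw [hu1] at h2
  have h3 : 1 = (p1 * p2) * r⁻¹ := by simpa using h2
  exact (mul_inv_eq_one.1 h3.symm).symm

/-- the key commutation statement -/
theorem key_fixed (h : Cls φ) {A B : Subgroup G} (hA : ∀ x ∈ A, Inv φ x)
    (hB : ∀ x ∈ B, Inv φ x) (hAC : ∀ c ∈ Cs φ, ∀ x ∈ A, c * x * c⁻¹ ∈ A)
    (hBC : ∀ c ∈ Cs φ, ∀ x ∈ B, c * x * c⁻¹ ∈ B) {a q z : G} (ha : a ∈ A)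
    (ha' : φ a ∈ A) (hq : q ∈ B) (hz : z ∈ Cs φ) (hzs : z * q * a * z = a * q) :
    ∀ x ∈ Cs φ, Commute x (φ a * (z * φ a * z⁻¹)⁻¹) := by
  intro x hx
  set b := φ a with hb
  obtain ⟨z2, hz2, hz2s⟩ := h.swap (hA b ha') (hB q hq)
  have hxa : x⁻¹ * a * x ∈ A := by
    have := hAC x⁻¹ ((Cs φ).inv_mem hx) a ha
    rwa [inv_inv] at this
  obtain ⟨w, hw, hws⟩ := h.swap (hA _ hxa) (hB q hq)
  have hxz : Commute x z := h.comm_C hx hz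
  have hxz2 : Commute x z2 := h.comm_C hx hz2
  have hwx : Commute w x := h.comm_C hw hx
  have hwz : Commute w z := h.comm_C hw hz
  have conjA : ∀ c ∈ Cs φ, ∀ y ∈ A, c⁻¹ * y * c ∈ A := by
    intro c hc y hy
    have := hAC c⁻¹ ((Cs φ).inv_mem hc) y hy
    rwa [inv_inv] at this
  -- E0
  have E0 : a * (z * b * z⁻¹) = (z2 * a * z2⁻¹) * b := by
    have := h.add_formula (p1 := z2 * a * z2⁻¹) (p2 := b) (q := q) (z := z2) (w := z)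
      hA hB hAC hBC (hAC z2 hz2 a ha) ha' hq hz2 hz hz2s
      (by
        have e : z2⁻¹ * (z2 * a * z2⁻¹) * z2 = a := by group
        rw [e]; exact hzs)
    have e : z2⁻¹ * (z2 * a * z2⁻¹) * z2 = a := by group
    rw [e] at this
    exact this
  -- E1
  have E1 : (x⁻¹ * a * x) * (w * a * w⁻¹) = (z * (x⁻¹ * a * x) * z⁻¹) * a := by
    have e : z⁻¹ * (z * (x⁻¹ * a * x) * z⁻¹) * z = x⁻¹ * a * x := by group
    have := h.add_formula (p1 := z * (x⁻¹ * a * x) * z⁻¹) (p2 := a) (q := q) (z := z) (w := w)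
      hA hB hAC hBC (hAC z hz _ hxa) ha hq hz hw hzs
      (by rw [e]; exact hws)
    rw [e] at this
    exact this
  have E2 : (x⁻¹ * a * x) * (w * b * w⁻¹) = (z2 * (x⁻¹ * a * x) * z2⁻¹) * b := by
    have e : z2⁻¹ * (z2 * (x⁻¹ * a * x) * z2⁻¹) * z2 = x⁻¹ * a * x := by group
    have := h.add_formula (p1 := z2 * (x⁻¹ * a * x) * z2⁻¹) (p2 := b) (q := q) (z := z2) (w := w)
      hA hB hAC hBC (hAC z2 hz2 _ hxa) ha' hq hz2 hw hz2s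
      (by rw [e]; exact hws)
    rw [e] at this
    exact this
  -- consequence for b
  have F2 : w * b * w⁻¹ = (x⁻¹ * (z * b * z⁻¹) * x) * (x⁻¹ * b * x)⁻¹ * b := by
    have e1 : z2 * (x⁻¹ * a * x) * z2⁻¹ = x⁻¹ * (z2 * a * z2⁻¹) * x := by
      have e2 : z2 * x⁻¹ = x⁻¹ * z2 := (hxz2.symm.inv_right).eq
      have e3 : x * z2⁻¹ = z2⁻¹ * x := (hxz2.inv_right).eq
      calc z2 * (x⁻¹ * a * x) * z2⁻¹ = (z2 * x⁻¹) * a * (x * z2⁻¹) := by group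
        _ = x⁻¹ * (z2 * a * z2⁻¹) * x := by rw [e2, e3]; group
    have e4 : z2 * a * z2⁻¹ = a * (z * b * z⁻¹) * b⁻¹ := by rw [E0]; group
    rw [e1, e4] at E2
    calc w * b * w⁻¹ = (x⁻¹ * a * x)⁻¹ * ((x⁻¹ * a * x) * (w * b * w⁻¹)) := by group
      _ = (x⁻¹ * (z * b * z⁻¹) * x) * (x⁻¹ * b * x)⁻¹ * b := by rw [E2]; group
  have F1 : w⁻¹ * b * w = (x * b * x⁻¹)⁻¹ * (z⁻¹ * (x * b * x⁻¹) * z) * b := by
    have e1 : w * a * w⁻¹ = (x⁻¹ * a * x)⁻¹ * (z * (x⁻¹ * a * x) * z⁻¹) * a := by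
      calc w * a * w⁻¹ = (x⁻¹ * a * x)⁻¹ * ((x⁻¹ * a * x) * (w * a * w⁻¹)) := by group
        _ = _ := by rw [E1]; group
    have e2 := congrArg φ e1
    simp only [map_mul, map_inv, h.phi_C hw, h.phi_C hx, h.phi_C hz, inv_inv] at e2
    rw [← hb] at e2
    exact e2
  -- combine
  have comb : b = (x * (w * b * w⁻¹) * x⁻¹)⁻¹ * (z⁻¹ * (x * (w * b * w⁻¹) * x⁻¹) * z) *
      (w * b * w⁻¹) := by
    have ewx : w * x = x * w := hwx.eq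
    have ewx' : x⁻¹ * w⁻¹ = w⁻¹ * x⁻¹ := by rw [← mul_inv_rev, ← mul_inv_rev, ewx]
    have ewz : w * z⁻¹ = z⁻¹ * w := (hwz.inv_right).eq
    have ewz' : z * w⁻¹ = w⁻¹ * z := (hwz.symm.inv_right).eq
    have e3 : x * (w * b * w⁻¹) * x⁻¹ = w * (x * b * x⁻¹) * w⁻¹ := by
      calc x * (w * b * w⁻¹) * x⁻¹ = (x * w) * b * (w⁻¹ * x⁻¹) := by group
        _ = (w * x) * b * (x⁻¹ * w⁻¹) := by rw [ewx, ewx']
        _ = w * (x * b * x⁻¹) * w⁻¹ := by group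
    have e4 : z⁻¹ * (w * (x * b * x⁻¹) * w⁻¹) * z = w * (z⁻¹ * (x * b * x⁻¹) * z) * w⁻¹ := by
      calc z⁻¹ * (w * (x * b * x⁻¹) * w⁻¹) * z = (z⁻¹ * w) * (x * b * x⁻¹) * (w⁻¹ * z) := by group
        _ = (w * z⁻¹) * (x * b * x⁻¹) * (z * w⁻¹) := by rw [ewz, ewz']
        _ = w * (z⁻¹ * (x * b * x⁻¹) * z) * w⁻¹ := by group
    rw [e3, e4]
    calc b = w * (w⁻¹ * b * w) * w⁻¹ := by group
      _ = w * ((x * b * x⁻¹)⁻¹ * (z⁻¹ * (x * b * x⁻¹) * z) * b) * w⁻¹ := by rw [F1]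
      _ = _ := by group
  -- transfer to the commutative group `A`
  let cA : CommGroup ↥A :=
    { (inferInstance : Group ↥A) with
      mul_comm := fun s t => Subtype.ext (commute_of_Inv hA s.2 t.2).eq }
  have hx' := (Cs φ).inv_mem hx
  have hz' := (Cs φ).inv_mem hz
  let t1 : ↥A := ⟨b, ha'⟩
  let tx : ↥A := ⟨x⁻¹ * b * x, conjA x hx b ha'⟩
  let tx' : ↥A := ⟨x * b * x⁻¹, hAC x hx b ha'⟩
  let tz : ↥A := ⟨z⁻¹ * b * z, conjA z hz b ha'⟩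
  let tz' : ↥A := ⟨z * b * z⁻¹, hAC z hz b ha'⟩
  let txz : ↥A := ⟨z⁻¹ * (x * b * x⁻¹) * z, conjA z hz _ (hAC x hx b ha')⟩
  let tzx : ↥A := ⟨x⁻¹ * (z * b * z⁻¹) * x, conjA x hx _ (hAC z hz b ha')⟩
  have hkey : t1 = (tz' * t1⁻¹ * tx')⁻¹ * (t1 * tz⁻¹ * txz) * (tzx * tx⁻¹ * t1) := by
    apply Subtype.ext
    change b = ((z * b * z⁻¹) * b⁻¹ * (x * b * x⁻¹))⁻¹ *
      (b * (z⁻¹ * b * z)⁻¹ * (z⁻¹ * (x * b * x⁻¹) * z)) *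
      ((x⁻¹ * (z * b * z⁻¹) * x) * (x⁻¹ * b * x)⁻¹ * b)
    rw [F2] at comb
    have e5 : x * ((x⁻¹ * (z * b * z⁻¹) * x) * (x⁻¹ * b * x)⁻¹ * b) * x⁻¹
        = (z * b * z⁻¹) * b⁻¹ * (x * b * x⁻¹) := by group
    rw [e5] at comb
    have e6 : z⁻¹ * ((z * b * z⁻¹) * b⁻¹ * (x * b * x⁻¹)) * z
        = b * (z⁻¹ * b * z)⁻¹ * (z⁻¹ * (x * b * x⁻¹) * z) := by group
    rw [e6] at comb
    exact comb
  have hR := comm_aux t1 tx tx' tz tz' txz tzx hkey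
  set s := t1 * tx⁻¹ * tz'⁻¹ * tzx with hs
  -- the conjugate of `s` by `y = z x⁻¹`
  have hy : (z * x⁻¹)⁻¹ * (s : G) * (z * x⁻¹) = ((txz * tz⁻¹ * tx'⁻¹ * t1 : ↥A) : G) := by
    change (z * x⁻¹)⁻¹ * (b * (x⁻¹ * b * x)⁻¹ * (z * b * z⁻¹)⁻¹ * (x⁻¹ * (z * b * z⁻¹) * x)) *
      (z * x⁻¹) = (z⁻¹ * (x * b * x⁻¹) * z) * (z⁻¹ * b * z)⁻¹ * (x * b * x⁻¹)⁻¹ * b
    have exz : x * z⁻¹ = z⁻¹ * x := (hxz.inv_right).eq
    have exz' : z * x⁻¹ = x⁻¹ * z := (hxz.symm.inv_right).eq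
    have ezx : x⁻¹ * z⁻¹ = z⁻¹ * x⁻¹ := (hxz.inv_inv).eq
    have ezx' : z * x = x * z := hxz.symm.eq
    have c1 : (z * x⁻¹)⁻¹ * b * (z * x⁻¹) = z⁻¹ * (x * b * x⁻¹) * z := by
      rw [mul_inv_rev, inv_inv, exz, exz']; group
    have c2 : (z * x⁻¹)⁻¹ * (x⁻¹ * b * x) * (z * x⁻¹) = z⁻¹ * b * z := by
      rw [mul_inv_rev, inv_inv, exz, exz']; group
    have c3 : (z * x⁻¹)⁻¹ * (z * b * z⁻¹) * (z * x⁻¹) = x * b * x⁻¹ := by group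
    have c4 : (z * x⁻¹)⁻¹ * (x⁻¹ * (z * b * z⁻¹) * x) * (z * x⁻¹) = b := by
      have : x⁻¹ * (z * b * z⁻¹) * x = (z * x⁻¹) * b * (z * x⁻¹)⁻¹ := by
        calc x⁻¹ * (z * b * z⁻¹) * x = (x⁻¹ * z) * b * (z⁻¹ * x) := by group
          _ = (z * x⁻¹) * b * (x * z⁻¹) := by rw [exz, exz']
          _ = (z * x⁻¹) * b * (z * x⁻¹)⁻¹ := by group
      rw [this]; group
    calc (z * x⁻¹)⁻¹ * (b * (x⁻¹ * b * x)⁻¹ * (z * b * z⁻¹)⁻¹ * (x⁻¹ * (z * b * z⁻¹) * x)) *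
      (z * x⁻¹) = ((z * x⁻¹)⁻¹ * b * (z * x⁻¹)) * ((z * x⁻¹)⁻¹ * (x⁻¹ * b * x) * (z * x⁻¹))⁻¹ *
        ((z * x⁻¹)⁻¹ * (z * b * z⁻¹) * (z * x⁻¹))⁻¹ *
        ((z * x⁻¹)⁻¹ * (x⁻¹ * (z * b * z⁻¹) * x) * (z * x⁻¹)) := by group
      _ = _ := by rw [c1, c2, c3, c4]
  have hs2 : ((txz * tz⁻¹ * tx'⁻¹ * t1 : ↥A) : G) = (s : G)⁻¹ := by
    have := eq_inv_of_mul_eq_one_right hR
    rw [this]; rfl
  have hs1 : (s : G) = 1 := h.commute_of_conj_inv (hy.trans hs2)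
  -- conclude
  have hs1' : s = 1 := Subtype.ext hs1
  have hfin : t1 * tz'⁻¹ = tx * tzx⁻¹ := comm_aux2 t1 tx tz' tzx hs1'
  have hfin' : b * (z * b * z⁻¹)⁻¹ = x⁻¹ * (b * (z * b * z⁻¹)⁻¹) * x := by
    have := congrArg (fun t : ↥A => (t : G)) hfin
    have e : b * (z * b * z⁻¹)⁻¹ = (x⁻¹ * b * x) * (x⁻¹ * (z * b * z⁻¹) * x)⁻¹ := this
    nth_rewrite 1 [e]
    group
  have : x * (b * (z * b * z⁻¹)⁻¹) = (b * (z * b * z⁻¹)⁻¹) * x := by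
    nth_rewrite 1 [hfin']
    group
  exact this

end Cls

end H868.RegFour
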