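import Mathlib
import Pool.Agent.Helper868.RegFour3

set_option autoImplicit false

namespace H868.RegFour

open Subgroup

variable {G : Type*} [Group G]

/-- every finite subset of the subgroup generates a finite subgroup -/
def LFs (K : Subgroup G) : Prop :=
  ∀ s : Finset G, (∀ x ∈ s, x ∈ K) → Finite (closure (s : Set G))

theorem LFs.mono {K L : Subgroup G} (hKL : K ≤ L) (hL : LFs L) : LFs K :=
  fun s hs => hL s (fun x hx => hKL (hs x hx))

theorem LFs.finite {K : Subgroup G} (hK : LFs K) {s : Finset G} (hs : ∀ x ∈ s, x ∈ K) :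
    ((closure (s : Set G) : Subgroup G) : Set G).Finite := by
  have := hK s hs
  exact Set.toFinite _

theorem LFs_comm {K : Subgroup G} (hc : ∀ x ∈ K, ∀ y ∈ K, Commute x y)
    (ht : ∀ x : G, IsOfFinOrder x) : LFs K := by
  intro s hs
  have hsK : closure (s : Set G) ≤ K := (closure_le K).2 hs
  let cA : CommGroup ↥(closure (s : Set G)) :=
    { (inferInstance : Group ↥(closure (s : Set G))) with
      mul_comm := fun a b => Subtype.ext (hc _ (hsK a.2) _ (hsK b.2)).eq }
  have hfg : Group.FG ↥(closure (s : Set G)) := by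
    rw [Group.fg_iff_subgroup_fg]
    exact ⟨s, rfl⟩
  have htor : Monoid.IsTorsion ↥(closure (s : Set G)) := by
    intro x
    rw [isOfFinOrder_iff_pow_eq_one]
    obtain ⟨n, hn, hx⟩ := isOfFinOrder_iff_pow_eq_one.1 (ht x.1)
    exact ⟨n, hn, Subtype.ext hx⟩
  exact CommGroup.finite_of_fg_torsion _ htor

theorem LFs_map_subtype {K : Subgroup G} {M : Subgroup ↥K} (hM : LFs M) :
    LFs (M.map K.subtype) := by
  classical
  intro s hs
  have hsK : ∀ x ∈ s, x ∈ K := by
    intro x hx
    obtain ⟨y, _, hy⟩ := hs x hx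
    rw [← hy]; exact y.2
  have hfin : (((closure ((s.subtype (· ∈ K) : Finset ↥K) : Set ↥K)) : Subgroup ↥K) :
      Set ↥K).Finite := by
    apply hM.finite
    intro x hx
    rw [Finset.mem_subtype] at hx
    obtain ⟨y, hy, hyx⟩ := hs x.1 hx
    have : y = x := Subtype.ext hyx
    rw [← this]; exact hy
  have hcl : (closure (s : Set G)) =
      (closure ((s.subtype (· ∈ K) : Finset ↥K) : Set ↥K)).map K.subtype := by
    rw [MonoidHom.map_closure]
    congr 1
    ext x
    constructor
    · intro hx
      exact ⟨⟨x, hsK x hx⟩, by rw [Finset.mem_coe, Finset.mem_subtype]; exact hx, rfl⟩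
    · rintro ⟨y, hy, rfl⟩
      rw [Finset.mem_coe, Finset.mem_subtype] at hy
      exact hy
  rw [hcl]
  have : ((((closure ((s.subtype (· ∈ K) : Finset ↥K) : Set ↥K)).map K.subtype) :
      Subgroup G) : Set G).Finite := by
    rw [Subgroup.coe_map]
    exact hfin.image _
  exact this.to_subtype

theorem LFs_of_map_subtype {K : Subgroup G} {M : Subgroup ↥K} (hM : LFs (M.map K.subtype)) :
    LFs M := by
  classical
  intro s hs
  have hfin : ((closure ((s.image (K.subtype) : Finset G) : Set G) : Subgroup G) : Set G).Finite := by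
    apply hM.finite
    intro x hx
    rw [Finset.mem_image] at hx
    obtain ⟨y, hy, rfl⟩ := hx
    exact ⟨y, hs y hy, rfl⟩
  have hcl : (closure (s : Set ↥K)).map K.subtype =
      closure ((s.image (K.subtype) : Finset G) : Set G) := by
    rw [MonoidHom.map_closure, Finset.coe_image]
  have h2 : (K.subtype '' ((closure (s : Set ↥K) : Subgroup ↥K) : Set ↥K)).Finite := by
    rw [← Subgroup.coe_map, hcl]; exact hfin
  have h3 := h2.of_finite_image (Set.injOn_of_injective K.subtype_injective)
  exact h3.to_subtype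

theorem finite_of_ker_range {A B : Type*} [Group A] [Group B] (f : A →* B)
    (hk : Finite f.ker) (hr : Finite f.range) : Finite A := by
  have h1 : Finite (A ⧸ f.ker) :=
    Finite.of_equiv _ (QuotientGroup.quotientKerEquivRange f).symm.toEquiv
  have h2 := Subgroup.card_eq_card_quotient_mul_card_subgroup f.ker
  apply Nat.finite_of_card_ne_zero
  rw [h2]
  exact Nat.mul_ne_zero (Nat.card_pos.ne') (Nat.card_pos.ne')

theorem LFs_ext {N M : Subgroup G} [N.Normal] (hN : LFs N)
    (hM : LFs (M.map (QuotientGroup.mk' N))) : LFs M := by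
  classical
  intro s hs
  set F := closure (s : Set G) with hF
  set f : ↥F →* G ⧸ N := (QuotientGroup.mk' N).comp F.subtype with hf
  have hrange : f.range = closure ((s.image (QuotientGroup.mk' N) : Finset (G ⧸ N)) : Set (G ⧸ N)) := by
    rw [hf, MonoidHom.range_comp, F.range_subtype, hF, MonoidHom.map_closure, Finset.coe_image]
  have hr : Finite f.range := by
    rw [hrange]
    apply hM
    intro x hx
    rw [Finset.mem_image] at hx
    obtain ⟨y, hy, rfl⟩ := hx
    exact ⟨y, hs y hy, rfl⟩
  have hfgF : Group.FG ↥F := by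
    rw [Group.fg_iff_subgroup_fg]
    exact ⟨s, rfl⟩
  have hfi : f.ker.FiniteIndex := by
    have : Finite (↥F ⧸ f.ker) :=
      Finite.of_equiv _ (QuotientGroup.quotientKerEquivRange f).symm.toEquiv
    exact Subgroup.finiteIndex_of_finite_quotient
  have hkfg : Group.FG ↥f.ker := Subgroup.fg_of_index_ne_zero f.ker
  have hk : Finite ↥f.ker := by
    rw [Group.fg_iff_subgroup_fg] at hkfg
    obtain ⟨t, ht⟩ := hkfg
    have hfin : ((closure ((t.image (fun x : ↥F => (x : G)) : Finset G) : Set G) : Subgroup G) :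
        Set G).Finite := by
      apply hN.finite
      intro x hx
      rw [Finset.mem_image] at hx
      obtain ⟨y, hy, rfl⟩ := hx
      have hyk : y ∈ f.ker := by rw [← ht]; exact subset_closure hy
      rw [MonoidHom.mem_ker, hf] at hyk
      exact (QuotientGroup.eq_one_iff (y : G)).1 hyk
    have hmap : (f.ker).map F.subtype =
        closure ((t.image (fun x : ↥F => (x : G)) : Finset G) : Set G) := by
      rw [← ht, MonoidHom.map_closure, Finset.coe_image]; rfl
    have h2 : (F.subtype '' ((f.ker : Subgroup ↥F) : Set ↥F)).Finite := by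
      rw [← Subgroup.coe_map, hmap]; exact hfin
    exact (h2.of_finite_image (Set.injOn_of_injective F.subtype_injective)).to_subtype
  exact finite_of_ker_range f hk hr

theorem mem_chain {c : Set (Subgroup G)} (hne : c.Nonempty) (hdir : DirectedOn (· ≤ ·) c)
    (s : Finset G) (hs : ∀ x ∈ s, x ∈ sSup c) : ∃ K ∈ c, ∀ x ∈ s, x ∈ K := by
  classical
  induction s using Finset.induction_on with
  | empty =>
    obtain ⟨K, hK⟩ := hne
    exact ⟨K, hK, fun x hx => absurd hx (Finset.notMem_empty x)⟩
  | insert a s _ ih =>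
    obtain ⟨K, hK, hKs⟩ := ih (fun x hx => hs x (Finset.mem_insert_of_mem hx))
    obtain ⟨L, hL, haL⟩ := (Subgroup.mem_sSup_of_directedOn hne hdir).1
      (hs a (Finset.mem_insert_self a s))
    obtain ⟨M, hM, hKM, hLM⟩ := hdir K hK L hL
    refine ⟨M, hM, ?_⟩
    intro x hx
    rcases Finset.mem_insert.1 hx with rfl | hx
    · exact hLM haL
    · exact hKM (hKs x hx)

/-- maximal locally finite normal invariant subgroup -/
theorem exists_radical (φ : G →* G) : ∃ R : Subgroup G, R.Normal ∧ (∀ x ∈ R, φ x ∈ R) ∧ LFs R ∧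
    ∀ M : Subgroup G, M.Normal → (∀ x ∈ M, φ x ∈ M) → LFs M → R ≤ M → M = R := by
  obtain ⟨R, hR⟩ := zorn_le₀ {R : Subgroup G | R.Normal ∧ (∀ x ∈ R, φ x ∈ R) ∧ LFs R} (by
    intro c hc hchain
    rcases c.eq_empty_or_nonempty with rfl | hne
    · refine ⟨⊥, ⟨inferInstance, ?_, ?_⟩, by simp⟩
      · intro x hx
        rw [Subgroup.mem_bot] at hx ⊢
        rw [hx, map_one]
      · intro s hs
        have : closure (s : Set G) = ⊥ := by
          rw [eq_bot_iff, closure_le]; exact hs
        rw [this]; infer_instance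
    · have hdir := hchain.directedOn
      refine ⟨sSup c, ⟨⟨?_⟩, ?_, ?_⟩, fun z hz => le_sSup hz⟩
      · intro x hx g
        obtain ⟨K, hK, hxK⟩ := (Subgroup.mem_sSup_of_directedOn hne hdir).1 hx
        exact (Subgroup.mem_sSup_of_directedOn hne hdir).2 ⟨K, hK, (hc hK).1.conj_mem x hxK g⟩
      · intro x hx
        obtain ⟨K, hK, hxK⟩ := (Subgroup.mem_sSup_of_directedOn hne hdir).1 hx
        exact (Subgroup.mem_sSup_of_directedOn hne hdir).2 ⟨K, hK, (hc hK).2.1 x hxK⟩
      · intro s hs
        obtain ⟨K, hK, hKs⟩ := mem_chain hne hdir s hs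
        exact (hc hK).2.2 s hKs)
  refine ⟨R, hR.1.1, hR.1.2.1, hR.1.2.2, ?_⟩
  intro M h1 h2 h3 h4
  exact le_antisymm (hR.2 ⟨h1, h2, h3⟩ h4) h4

end H868.RegFour
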