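import Mathlib
import Pool.Agent.Helper868.RegFour4

set_option autoImplicit false

namespace H868.RegFour

open Subgroup

section Defs

variable {G : Type*} [Group G]

/-- the restriction of the operator to an invariant subgroup -/
def resHom (φ : G →* G) (K : Subgroup G) (hK : ∀ x ∈ K, φ x ∈ K) : ↥K →* ↥K :=
  (φ.comp K.subtype).codRestrict K (fun x => hK x x.2)

theorem resHom_coe (φ : G →* G) (K : Subgroup G) (hK : ∀ x ∈ K, φ x ∈ K) (x : ↥K) :
    ((resHom φ K hK x : ↥K) : G) = φ (x : G) := rfl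

theorem Cls.res {φ : G →* G} (h : Cls φ) (K : Subgroup G) (hK : ∀ x ∈ K, φ x ∈ K) :
    Cls (resHom φ K hK) where
  odd := by
    intro g
    obtain ⟨m, hm⟩ := h.odd (g : G)
    exact ⟨m, Subtype.ext hm⟩
  four := fun g => Subtype.ext (h.four (g : G))
  norm := fun g => Subtype.ext (h.norm (g : G))

theorem Cls.quot {φ : G →* G} (h : Cls φ) (R : Subgroup G) [R.Normal] (hR : R ≤ R.comap φ) :
    Cls (QuotientGroup.map R R φ hR) where
  odd := by
    intro g
    induction g using QuotientGroup.induction_on with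
    | H g =>
      obtain ⟨m, hm⟩ := h.odd g
      exact ⟨m, by rw [← QuotientGroup.mk_pow, hm]; rfl⟩
  four := by
    intro g
    induction g using QuotientGroup.induction_on with
    | H g =>
      simp only [QuotientGroup.map_mk]
      rw [h.four g]
  norm := by
    intro g
    induction g using QuotientGroup.induction_on with
    | H g =>
      simp only [QuotientGroup.map_mk, ← QuotientGroup.mk_mul]
      rw [h.norm g]; rfl

theorem Cls.tors {φ : G →* G} (h : Cls φ) (x : G) : IsOfFinOrder x := by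
  obtain ⟨m, hm⟩ := h.odd x
  rw [isOfFinOrder_iff_pow_eq_one]
  exact ⟨2 * m + 1, by omega, hm⟩

/-- the subgroup generated by `C`, `X` and the image of `X` -/
def Gen (φ : G →* G) (X : Set G) : Subgroup G :=
  closure ((Cs φ : Set G) ∪ (X ∪ φ '' X))

variable {φ : G →* G}

theorem C_le_Gen (X : Set G) : Cs φ ≤ Gen φ X :=
  fun _ hx => subset_closure (Or.inl hx)

theorem mem_Gen {X : Set G} {x : G} (hx : x ∈ X) : x ∈ Gen φ X :=
  subset_closure (Or.inr (Or.inl hx))

theorem phi_mem_Gen {X : Set G} {x : G} (hx : x ∈ X) : φ x ∈ Gen φ X :=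
  subset_closure (Or.inr (Or.inr ⟨x, hx, rfl⟩))

theorem Gen_le {X : Set G} {K : Subgroup G} (hC : Cs φ ≤ K) (hX : ∀ x ∈ X, x ∈ K ∧ φ x ∈ K) :
    Gen φ X ≤ K := by
  rw [Gen, closure_le]
  rintro x (hx | hx | ⟨y, hy, rfl⟩)
  · exact hC hx
  · exact (hX x hx).1
  · exact (hX y hy).2

theorem Gen_inv (h : Cls φ) {X : Set G} (hX : ∀ x ∈ X, Inv φ x) :
    ∀ x ∈ Gen φ X, φ x ∈ Gen φ X := by
  have : Gen φ X ≤ (Gen φ X).comap φ := by
    apply Gen_le
    · intro c hc
      rw [mem_comap]
      exact C_le_Gen X (h.phi_mem_C hc)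
    · intro x hx
      refine ⟨phi_mem_Gen hx, ?_⟩
      rw [mem_comap, show φ (φ x) = x⁻¹ from hX x hx]
      exact inv_mem (mem_Gen hx)
  exact this

/-- two invariant subgroups containing `C` permute -/
theorem perm (h : Cls φ) {H1 H2 : Subgroup G} (h1 : Cs φ ≤ H1) (h2 : Cs φ ≤ H2)
    {x y : G} (hx : x ∈ H1) (hy : y ∈ H2) : ∃ a ∈ H2, ∃ b ∈ H1, x * y = a * b := by
  obtain ⟨c, hc, q, hq, hxq⟩ := h.decomp x
  obtain ⟨p, hp, e, he, hyp⟩ := h.decomp' y
  have hqH : q ∈ H1 := by
    have : q = c⁻¹ * x := by rw [hxq]; group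
    rw [this]; exact mul_mem (inv_mem (h1 hc)) hx
  have hpH : p ∈ H2 := by
    have : p = y * e⁻¹ := by rw [hyp]; group
    rw [this]; exact mul_mem hy (inv_mem (h2 he))
  obtain ⟨z, hz, hs⟩ := h.swap hp hq
  -- z q p z = p q
  refine ⟨c * z⁻¹ * p, mul_mem (mul_mem (h2 hc) (inv_mem (h2 hz))) hpH, q * z⁻¹ * e,
    mul_mem (mul_mem hqH (inv_mem (h1 hz))) (h1 he), ?_⟩
  rw [hxq, hyp]
  calc c * q * (p * e) = c * z⁻¹ * (z * q * p * z) * z⁻¹ * e := by group
    _ = c * z⁻¹ * (p * q) * z⁻¹ * e := by rw [hs]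
    _ = c * z⁻¹ * p * (q * z⁻¹ * e) := by group

theorem sup_eq_mul (h : Cls φ) {H1 H2 : Subgroup G} (h1 : Cs φ ≤ H1) (h2 : Cs φ ≤ H2)
    {g : G} (hg : g ∈ H1 ⊔ H2) : ∃ a ∈ H1, ∃ b ∈ H2, g = a * b := by
  let K : Subgroup G :=
    { carrier := {g | ∃ a ∈ H1, ∃ b ∈ H2, g = a * b}
      mul_mem' := by
        rintro _ _ ⟨a, ha, b, hb, rfl⟩ ⟨a', ha', b', hb', rfl⟩
        obtain ⟨c, hc, d, hd, hcd⟩ := perm h h2 h1 hb ha'
        refine ⟨a * c, mul_mem ha hc, d * b', mul_mem hd hb', ?_⟩
        calc a * b * (a' * b') = a * (b * a') * b' := by group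
          _ = a * (c * d) * b' := by rw [hcd]
          _ = a * c * (d * b') := by group
      one_mem' := ⟨1, one_mem _, 1, one_mem _, by simp⟩
      inv_mem' := by
        rintro _ ⟨a, ha, b, hb, rfl⟩
        obtain ⟨c, hc, d, hd, hcd⟩ := perm h h2 h1 (inv_mem hb) (inv_mem ha)
        exact ⟨c, hc, d, hd, by rw [mul_inv_rev, hcd]⟩ }
  have hle : H1 ⊔ H2 ≤ K := by
    apply sup_le
    · intro x hx; exact ⟨x, hx, 1, one_mem _, by simp⟩
    · intro x hx; exact ⟨1, one_mem _, x, hx, by simp⟩
  exact hle hg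

/-- if all conjugates of `C` inside `K` lie in a locally finite subgroup then `K` is locally
finite -/
theorem LFs_of_conj (h : Cls φ) {K L : Subgroup G} (hK : ∀ x ∈ K, φ x ∈ K)
    (hL : LFs L) (hc : ∀ c ∈ Cs φ, ∀ k ∈ K, k * c * k⁻¹ ∈ L) : LFs K := by
  set ψ := resHom φ K hK with hψ
  have hψC : Cls ψ := h.res K hK
  set N := normalClosure (Cs ψ : Set ↥K) with hN
  have hNL : N ≤ L.comap K.subtype := by
    rw [hN, normalClosure, closure_le]
    intro x hx
    rw [Group.mem_conjugatesOfSet_iff] at hx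
    obtain ⟨c, hcC, hcx⟩ := hx
    rw [isConj_iff] at hcx
    obtain ⟨k, rfl⟩ := hcx
    have hc' : (c : G) ∈ Cs φ := by
      have : ψ (ψ c) = c := hcC
      exact congrArg (fun t : ↥K => (t : G)) this
    exact hc c hc' k k.2
  have hNLF : LFs N := by
    apply LFs_of_map_subtype
    refine LFs.mono ?_ hL
    rintro _ ⟨x, hx, rfl⟩
    exact hNL hx
  have hcomm : ∀ x ∈ (⊤ : Subgroup ↥K).map (QuotientGroup.mk' N),
      ∀ y ∈ (⊤ : Subgroup ↥K).map (QuotientGroup.mk' N), Commute x y := by
    rintro _ ⟨x, _, rfl⟩ _ ⟨y, _, rfl⟩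
    obtain ⟨c, hc1, p, hp, hxp⟩ := hψC.decomp x
    obtain ⟨e, he1, q, hq, hyq⟩ := hψC.decomp y
    obtain ⟨z, hz, hs⟩ := hψC.swap hp hq
    have hC1 : ∀ t ∈ Cs ψ, (QuotientGroup.mk' N) t = 1 := by
      intro t ht
      exact (QuotientGroup.eq_one_iff t).2 (subset_normalClosure ht)
    have hx1 : (QuotientGroup.mk' N) x = (QuotientGroup.mk' N) p := by
      rw [hxp, map_mul, hC1 c hc1, one_mul]
    have hy1 : (QuotientGroup.mk' N) y = (QuotientGroup.mk' N) q := by
      rw [hyq, map_mul, hC1 e he1, one_mul]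
    rw [hx1, hy1]
    have := congrArg (QuotientGroup.mk' N) hs
    simp only [map_mul, hC1 z hz, one_mul, mul_one] at this
    exact this.symm
  have htop : LFs (⊤ : Subgroup ↥K) := by
    apply LFs_ext hNLF
    apply LFs_comm hcomm
    intro x
    induction x using QuotientGroup.induction_on with
    | H g =>
      obtain ⟨m, hm⟩ := hψC.odd g
      rw [isOfFinOrder_iff_pow_eq_one]
      exact ⟨2 * m + 1, by omega, by rw [← QuotientGroup.mk_pow, hm]; rfl⟩
  have := LFs_map_subtype htop
  rw [← MonoidHom.range_eq_map, K.range_subtype] at this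
  exact this

end Defs

section Core

variable {G : Type*} [Group G] {φ : G →* G}

/-- the flat attached to an inverted element -/
def Fl (φ : G →* G) (s : G) : Subgroup G :=
  closure {x | ∃ c ∈ Cs φ, x = c * s * c⁻¹ ∨ x = c * φ s * c⁻¹}

theorem Fl_conj {s c : G} (hc : c ∈ Cs φ) : ∀ x ∈ Fl φ s, c * x * c⁻¹ ∈ Fl φ s := by
  intro x hx
  have : Fl φ s ≤ (Fl φ s).comap (MulAut.conj c).toMonoidHom := by
    nth_rewrite 1 [Fl]
    rw [closure_le]
    rintro y ⟨d, hd, hy⟩
    change c * y * c⁻¹ ∈ Fl φ s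
    apply Subgroup.subset_closure
    refine ⟨c * d, mul_mem hc hd, ?_⟩
    rcases hy with rfl | rfl
    · left; group
    · right; group
  exact this hx

theorem mem_Fl {s : G} : s ∈ Fl φ s :=
  subset_closure ⟨1, one_mem _, Or.inl (by simp)⟩

theorem phi_mem_Fl {s : G} : φ s ∈ Fl φ s :=
  subset_closure ⟨1, one_mem _, Or.inr (by simp)⟩

theorem Fl_phi (h : Cls φ) {s : G} (hs : Inv φ s) : ∀ x ∈ Fl φ s, φ x ∈ Fl φ s := by
  have : Fl φ s ≤ (Fl φ s).comap φ := by
    nth_rewrite 1 [Fl]
    rw [closure_le]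
    rintro y ⟨d, hd, hy⟩
    change φ y ∈ Fl φ s
    rcases hy with rfl | rfl
    · simp only [map_mul, map_inv]
      exact Fl_conj (h.phi_mem_C hd) _ phi_mem_Fl
    · simp only [map_mul, map_inv]
      rw [show φ (φ s) = s⁻¹ from hs]
      exact Fl_conj (h.phi_mem_C hd) _ (inv_mem mem_Fl)
  exact this

/-- if `s` commutes with its conjugates under `C`, the flat is inverted -/
theorem Fl_inv (h : Cls φ) {s : G} (hs : Inv φ s)
    (hcs : ∀ c ∈ Cs φ, Commute s (c * s * c⁻¹)) : ∀ x ∈ Fl φ s, Inv φ x := by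
  have hgen : ∀ x ∈ {x | ∃ c ∈ Cs φ, x = c * s * c⁻¹ ∨ x = c * φ s * c⁻¹},
      ∀ y ∈ {x | ∃ c ∈ Cs φ, x = c * s * c⁻¹ ∨ x = c * φ s * c⁻¹}, x * y = y * x := by
    -- the four cases
    have hss : ∀ c ∈ Cs φ, ∀ d ∈ Cs φ, Commute (c * s * c⁻¹) (d * s * d⁻¹) := by
      intro c hc d hd
      have h1 := hcs (c⁻¹ * d) (mul_mem (inv_mem hc) hd)
      have h2 : Commute (c * s * c⁻¹) (c * (c⁻¹ * d * s * (c⁻¹ * d)⁻¹) * c⁻¹) :=
        (Commute.conj_iff c).2 h1
      have e : c * (c⁻¹ * d * s * (c⁻¹ * d)⁻¹) * c⁻¹ = d * s * d⁻¹ := by group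
      rwa [e] at h2
    have hst : ∀ c ∈ Cs φ, ∀ d ∈ Cs φ, Commute (c * s * c⁻¹) (d * φ s * d⁻¹) := by
      intro c hc d hd
      have h1 := h.L1 hs (mul_mem (inv_mem hc) hd)
      have h2 : Commute (c * s * c⁻¹) (c * (c⁻¹ * d * φ s * (c⁻¹ * d)⁻¹) * c⁻¹) :=
        (Commute.conj_iff c).2 h1
      have e : c * (c⁻¹ * d * φ s * (c⁻¹ * d)⁻¹) * c⁻¹ = d * φ s * d⁻¹ := by group
      rwa [e] at h2
    have htt : ∀ c ∈ Cs φ, ∀ d ∈ Cs φ, Commute (c * φ s * c⁻¹) (d * φ s * d⁻¹) := by
      intro c hc d hd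
      have h1 := (hss c⁻¹ (inv_mem hc) d⁻¹ (inv_mem hd)).map φ
      simp only [map_mul, map_inv, h.phi_C hc, h.phi_C hd, inv_inv] at h1
      exact h1
    rintro x ⟨c, hc, rfl | rfl⟩ y ⟨d, hd, rfl | rfl⟩
    · exact (hss c hc d hd).eq
    · exact (hst c hc d hd).eq
    · exact (hst d hd c hc).symm.eq
    · exact (htt c hc d hd).eq
  let cg : CommGroup ↥(Fl φ s) := Subgroup.closureCommGroupOfComm hgen
  have hcomm : ∀ x ∈ Fl φ s, ∀ y ∈ Fl φ s, x * y = y * x := by
    intro x hx y hy
    have := @mul_comm ↥(Fl φ s) cg.toCommMagma ⟨x, hx⟩ ⟨y, hy⟩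
    exact congrArg (fun t : ↥(Fl φ s) => (t : G)) this
  intro x hx
  rw [Fl] at hx
  induction hx using closure_induction with
  | mem x hx =>
    obtain ⟨c, hc, rfl | rfl⟩ := hx
    · exact Cls.inv_conj hs hc
    · exact Cls.inv_conj (Cls.inv_phi hs) hc
  | one => change φ (φ 1) = 1⁻¹; simp
  | mul x y hx hy hx' hy' =>
    change φ (φ (x * y)) = (x * y)⁻¹
    rw [map_mul, map_mul, show φ (φ x) = x⁻¹ from hx', show φ (φ y) = y⁻¹ from hy',
      hcomm x hx y hy, mul_inv_rev]
  | inv x hx hx' =>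
    change φ (φ x⁻¹) = x⁻¹⁻¹
    rw [map_inv, map_inv, show φ (φ x) = x⁻¹ from hx']

theorem core (h : Cls φ) (S : Set G) (hS : ∀ s ∈ S, Inv φ s) (hgen : Gen φ S = ⊤)
    (hrad : ∀ N : Subgroup G, N.Normal → (∀ x ∈ N, φ x ∈ N) → LFs N → N = ⊥)
    (hLF : ∀ s ∈ S, LFs (Gen φ (S \ {s}))) : ∀ s ∈ S, s = 1 := by
  classical
  -- factorisation
  have hfac : ∀ s ∈ S, ∀ g : G, ∃ k ∈ Gen φ (S \ {s}), ∃ a ∈ Gen φ {s}, g = k * a := by
    intro s hs g
    apply sup_eq_mul h (C_le_Gen _) (C_le_Gen _)
    have : (⊤ : Subgroup G) ≤ Gen φ (S \ {s}) ⊔ Gen φ {s} := by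
      rw [← hgen]
      apply Gen_le
      · exact (C_le_Gen _).trans le_sup_left
      · intro x hx
        by_cases hxs : x = s
        · rw [hxs]
          exact ⟨(le_sup_right : Gen φ {s} ≤ _) (mem_Gen rfl),
            (le_sup_right : Gen φ {s} ≤ _) (phi_mem_Gen rfl)⟩
        · exact ⟨(le_sup_left : Gen φ (S \ {s}) ≤ _) (mem_Gen ⟨hx, hxs⟩),
            (le_sup_left : Gen φ (S \ {s}) ≤ _) (phi_mem_Gen ⟨hx, hxs⟩)⟩
    exact this (mem_top g)
  have hSd : ∀ s : G, ∀ x ∈ S \ {s}, Inv φ x := fun s x hx => hS x hx.1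
  -- centralizers
  have hcen : ∀ s ∈ S, ∀ c ∈ Cs φ, Commute c s → c = 1 := by
    intro s hs c hc hcs
    have hcs' : Commute c (φ s) := by
      have := hcs.map φ
      rw [h.phi_C hc] at this
      have h2 := this.inv_left
      rwa [inv_inv] at h2
    have hcH : ∀ a ∈ Gen φ {s}, Commute c a := by
      have hle : Gen φ {s} ≤ Subgroup.centralizer {c} := by
        apply Gen_le
        · intro x hx
          rw [Subgroup.mem_centralizer_singleton_iff]
          exact (h.comm_C hx hc).eq
        · intro x hx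
          rw [Set.mem_singleton_iff] at hx
          rw [hx]
          exact ⟨Subgroup.mem_centralizer_singleton_iff.2 hcs.symm.eq,
            Subgroup.mem_centralizer_singleton_iff.2 hcs'.symm.eq⟩
      intro a ha
      exact (Subgroup.mem_centralizer_singleton_iff.1 (hle ha) : a * c = c * a).symm
    have hN : normalClosure {c} = ⊥ := by
      apply hrad _ inferInstance
      · have : normalClosure {c} ≤ (normalClosure {c}).comap φ := by
          apply normalClosure_le_normal
          rw [Set.singleton_subset_iff]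
          change φ c ∈ normalClosure {c}
          rw [h.phi_C hc]
          exact inv_mem (subset_normalClosure rfl)
        exact this
      · refine LFs.mono ?_ (hLF s hs)
        rw [normalClosure, closure_le]
        intro x hx
        rw [Group.mem_conjugatesOfSet_iff] at hx
        obtain ⟨y, hy, hyx⟩ := hx
        rw [Set.mem_singleton_iff] at hy
        rw [hy, isConj_iff] at hyx
        obtain ⟨g, rfl⟩ := hyx
        obtain ⟨k, hk, a, ha, rfl⟩ := hfac s hs g
        have e : k * a * c * (k * a)⁻¹ = k * c * k⁻¹ := by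
          calc k * a * c * (k * a)⁻¹ = k * (a * c) * a⁻¹ * k⁻¹ := by group
            _ = k * (c * a) * a⁻¹ * k⁻¹ := by rw [(hcH a ha).eq]
            _ = k * c * k⁻¹ := by group
        rw [e]
        exact mul_mem (mul_mem hk (C_le_Gen _ hc)) (inv_mem hk)
    have : c ∈ normalClosure {c} := subset_normalClosure rfl
    rw [hN, Subgroup.mem_bot] at this
    exact this
  -- the flats are inverted
  have hflat : ∀ s ∈ S, ∀ x ∈ Fl φ s, Inv φ x := by
    intro s hs
    apply Fl_inv h (hS s hs)
    intro c hc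
    obtain ⟨z, hz, hzs⟩ := h.swap (hS s hs) (Cls.inv_conj (hS s hs) hc)
    have hzc : Commute z s := by
      apply h.L2 (hS s hs) (Cls.inv_conj (hS s hs) hc) ?_ ?_ hz hzs
      · intro d hd
        have h1 := h.L1 (hS s hs) (mul_mem hd (inv_mem hc))
        have e : d * φ (c * s * c⁻¹) * d⁻¹ = d * c⁻¹ * φ s * (d * c⁻¹)⁻¹ := by
          simp only [map_mul, map_inv, h.phi_C hc]; group
        rw [e]; exact h1
      · intro d hd
        have h1 := h.L1 (hS s hs) (mul_mem (inv_mem hc) hd)
        have h2 : Commute (c * s * c⁻¹) (c * (c⁻¹ * d * φ s * (c⁻¹ * d)⁻¹) * c⁻¹) :=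
          (Commute.conj_iff c).2 h1
        have e : c * (c⁻¹ * d * φ s * (c⁻¹ * d)⁻¹) * c⁻¹ = d * φ s * d⁻¹ := by group
        rwa [e] at h2
    have hz1 := hcen s hs z hz hzc
    rw [hz1, one_mul, mul_one] at hzs
    exact hzs.symm
  -- elements of the flat centralised by `C` vanish
  have htriv : ∀ s ∈ S, ∀ t ∈ Fl φ s, (∀ x ∈ Cs φ, Commute x t) → t = 1 := by
    intro s hs t ht htc
    have htI : Inv φ t := hflat s hs t ht
    have ht' : φ t ∈ Fl φ s := Fl_phi h (hS s hs) t ht
    have htc' : ∀ x ∈ Cs φ, Commute x (φ t) := by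
      intro x hx
      have := (htc x hx).map φ
      rw [h.phi_C hx] at this
      have h2 := this.inv_left
      rwa [inv_inv] at h2
    -- the larger invariant subgroup
    set K := Gen φ (insert t (S \ {s})) with hK
    have hKI : ∀ x ∈ insert t (S \ {s}), Inv φ x := by
      intro x hx
      rcases Set.mem_insert_iff.1 hx with rfl | hx
      · exact htI
      · exact hS x hx.1
    have hGK : Gen φ (S \ {s}) ≤ K := by
      apply Gen_le (C_le_Gen _)
      intro x hx
      exact ⟨mem_Gen (Set.mem_insert_of_mem _ hx), phi_mem_Gen (Set.mem_insert_of_mem _ hx)⟩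
    have hKfac : ∀ g ∈ K, ∃ k ∈ Gen φ (S \ {s}), ∃ a ∈ Gen φ {t}, g = k * a := by
      intro g hg
      apply sup_eq_mul h (C_le_Gen _) (C_le_Gen _)
      have : K ≤ Gen φ (S \ {s}) ⊔ Gen φ {t} := by
        apply Gen_le
        · exact (C_le_Gen _).trans le_sup_left
        · intro x hx
          rcases Set.mem_insert_iff.1 hx with rfl | hx
          · exact ⟨(le_sup_right : Gen φ {x} ≤ _) (mem_Gen rfl),
              (le_sup_right : Gen φ {x} ≤ _) (phi_mem_Gen rfl)⟩
          · exact ⟨(le_sup_left : Gen φ (S \ {s}) ≤ _) (mem_Gen hx),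
              (le_sup_left : Gen φ (S \ {s}) ≤ _) (phi_mem_Gen hx)⟩
      exact this hg
    have hKLF : LFs K := by
      apply LFs_of_conj h (Gen_inv h hKI) (hLF s hs)
      intro c hc g hg
      obtain ⟨k, hk, a, ha, rfl⟩ := hKfac g hg
      have hca : Commute a c := by
        have hle : Gen φ {t} ≤ Subgroup.centralizer {c} := by
          apply Gen_le
          · intro x hx
            rw [Subgroup.mem_centralizer_singleton_iff]
            exact (h.comm_C hx hc).eq
          · intro x hx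
            rw [Set.mem_singleton_iff] at hx
            rw [hx]
            exact ⟨Subgroup.mem_centralizer_singleton_iff.2 (htc c hc).symm.eq,
              Subgroup.mem_centralizer_singleton_iff.2 (htc' c hc).symm.eq⟩
        exact (Subgroup.mem_centralizer_singleton_iff.1 (hle ha) : a * c = c * a)
      have e : k * a * c * (k * a)⁻¹ = k * c * k⁻¹ := by
        calc k * a * c * (k * a)⁻¹ = k * (a * c) * a⁻¹ * k⁻¹ := by group
          _ = k * (c * a) * a⁻¹ * k⁻¹ := by rw [hca.eq]
          _ = k * c * k⁻¹ := by group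
      rw [e]
      exact mul_mem (mul_mem hk (C_le_Gen _ hc)) (inv_mem hk)
    -- `t` and its image commute with `Gen φ {s}`
    have hcomH : ∀ u ∈ Fl φ s, (∀ x ∈ Cs φ, Commute x u) → ∀ a ∈ Gen φ {s}, Commute a u := by
      intro u hu huc a ha
      have hle : Gen φ {s} ≤ Subgroup.centralizer {u} := by
        apply Gen_le
        · intro x hx
          rw [Subgroup.mem_centralizer_singleton_iff]
          exact (huc x hx).eq
        · intro x hx
          rw [Set.mem_singleton_iff] at hx
          rw [hx]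
          exact ⟨Subgroup.mem_centralizer_singleton_iff.2
              (Cls.commute_of_Inv (hflat s hs) mem_Fl hu).eq,
            Subgroup.mem_centralizer_singleton_iff.2
              (Cls.commute_of_Inv (hflat s hs) phi_mem_Fl hu).eq⟩
      exact (Subgroup.mem_centralizer_singleton_iff.1 (hle ha) : a * u = u * a)
    have hconj : ∀ u ∈ Fl φ s, (∀ x ∈ Cs φ, Commute x u) → u ∈ K → ∀ g : G, g * u * g⁻¹ ∈ K := by
      intro u hu huc huK g
      obtain ⟨k, hk, a, ha, rfl⟩ := hfac s hs g
      have e : k * a * u * (k * a)⁻¹ = k * u * k⁻¹ := by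
        calc k * a * u * (k * a)⁻¹ = k * (a * u) * a⁻¹ * k⁻¹ := by group
          _ = k * (u * a) * a⁻¹ * k⁻¹ := by rw [(hcomH u hu huc a ha).eq]
          _ = k * u * k⁻¹ := by group
      rw [e]
      exact mul_mem (mul_mem (hGK hk) huK) (inv_mem (hGK hk))
    have hN : normalClosure {t, φ t} = ⊥ := by
      apply hrad _ inferInstance
      · have : normalClosure {t, φ t} ≤ (normalClosure {t, φ t}).comap φ := by
          apply normalClosure_le_normal
          intro x hx
          change φ x ∈ normalClosure {t, φ t}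
          rcases hx with rfl | hx
          · exact subset_normalClosure (Or.inr rfl)
          · rw [Set.mem_singleton_iff] at hx
            rw [hx, show φ (φ t) = t⁻¹ from htI]
            exact inv_mem (subset_normalClosure (Or.inl rfl))
        exact this
      · refine LFs.mono ?_ hKLF
        rw [normalClosure, closure_le]
        intro x hx
        rw [Group.mem_conjugatesOfSet_iff] at hx
        obtain ⟨y, hy, hyx⟩ := hx
        rw [isConj_iff] at hyx
        obtain ⟨g, rfl⟩ := hyx
        rcases hy with rfl | hy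
        · exact hconj y ht htc (mem_Gen (Set.mem_insert _ _)) g
        · rw [Set.mem_singleton_iff] at hy
          rw [hy]
          exact hconj _ ht' htc' (phi_mem_Gen (Set.mem_insert _ _)) g
    have : t ∈ normalClosure {t, φ t} := subset_normalClosure (Or.inl rfl)
    rw [hN, Subgroup.mem_bot] at this
    exact this
  -- different flats commute
  have hcomm : ∀ s ∈ S, ∀ r ∈ S, ∀ q ∈ Fl φ r, Commute s q := by
    intro s hs r hr q hq
    obtain ⟨z, hz, hzs⟩ := h.swap (hS s hs) (hflat r hr q hq)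
    have ht := h.key_fixed (hflat s hs) (hflat r hr) (fun c hc => Fl_conj hc)
      (fun c hc => Fl_conj hc) (mem_Fl) (phi_mem_Fl) hq hz hzs
    have hmem : φ s * (z * φ s * z⁻¹)⁻¹ ∈ Fl φ s :=
      mul_mem phi_mem_Fl (inv_mem (Fl_conj hz _ phi_mem_Fl))
    have h1 := htriv s hs _ hmem ht
    have h2 : φ s = z * φ s * z⁻¹ := mul_inv_eq_one.1 h1
    have h3 : Commute z (φ s) := by
      have : z * φ s = φ s * z := by
        nth_rewrite 2 [h2]; group
      exact this
    have h4 : Commute z s := by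
      have := h3.map φ
      rw [h.phi_C hz, show φ (φ s) = s⁻¹ from hS s hs] at this
      have h5 := this.inv_left.inv_right
      rwa [inv_inv, inv_inv] at h5
    have h6 := hcen s hs z hz h4
    rw [h6, one_mul, mul_one] at hzs
    exact hzs.symm
  -- the flat is normal
  intro s hs
  have hFlcomm : ∀ r ∈ S, ∀ q ∈ Fl φ s, ∀ y ∈ Fl φ r, Commute q y := by
    intro r hr q hq
    have hle : Fl φ s ≤ Subgroup.centralizer (Fl φ r : Set G) := by
      rw [Fl, closure_le]
      rintro x ⟨c, hc, rfl | rfl⟩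
      · change _ ∈ Subgroup.centralizer (Fl φ r : Set G)
        rw [Subgroup.mem_centralizer_iff]
        intro y hy
        have h1 := hcomm s hs r hr (c⁻¹ * y * c) (by
          have := Fl_conj (φ := φ) (s := r) (inv_mem hc) y hy
          rwa [inv_inv] at this)
        have h2 := (Commute.conj_iff c).2 h1
        have e : c * (c⁻¹ * y * c) * c⁻¹ = y := by group
        rw [e] at h2
        exact h2.symm.eq
      · change _ ∈ Subgroup.centralizer (Fl φ r : Set G)
        rw [Subgroup.mem_centralizer_iff]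
        intro y hy
        have hy3 : φ (φ (φ (c⁻¹ * y * c))) ∈ Fl φ r := by
          apply Fl_phi h (hS r hr)
          apply Fl_phi h (hS r hr)
          apply Fl_phi h (hS r hr)
          have := Fl_conj (φ := φ) (s := r) (inv_mem hc) y hy
          rwa [inv_inv] at this
        have h1 := (hcomm s hs r hr _ hy3).map φ
        rw [h.four] at h1
        have h2 := (Commute.conj_iff c).2 h1
        have e : c * (c⁻¹ * y * c) * c⁻¹ = y := by group
        rw [e] at h2
        exact h2.symm.eq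
    intro y hy
    exact ((Subgroup.mem_centralizer_iff.1 (hle hq)) y hy).symm
  have hnorm : (Fl φ s).Normal := by
    have hle : (⊤ : Subgroup G) ≤ Subgroup.normalizer (Fl φ s : Set G) := by
      rw [← hgen]
      apply Gen_le
      · intro c hc
        rw [Subgroup.mem_normalizer_iff]
        intro x
        constructor
        · exact fun hx => Fl_conj hc x hx
        · intro hx
          have := Fl_conj (φ := φ) (s := s) (inv_mem hc) _ hx
          have e : c⁻¹ * (c * x * c⁻¹) * c⁻¹⁻¹ = x := by group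
          rwa [e] at this
      · intro r hr
        have key : ∀ y ∈ Fl φ r, y ∈ Subgroup.normalizer (Fl φ s : Set G) := by
          intro y hy
          rw [Subgroup.mem_normalizer_iff]
          intro x
          constructor
          · intro hx
            have : y * x * y⁻¹ = x := by
              rw [← (hFlcomm r hr x hx y hy).eq]; group
            rwa [this]
          · intro hx
            have h1 := (hFlcomm r hr _ hx y hy).eq
            have : x = y * x * y⁻¹ := by
              calc x = y⁻¹ * (y * x * y⁻¹ * y) := by group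
                _ = y⁻¹ * (y * (y * x * y⁻¹)) := by rw [h1]
                _ = y * x * y⁻¹ := by group
            rw [this]; exact hx
        exact ⟨key r mem_Fl, key (φ r) phi_mem_Fl⟩
    rw [← Subgroup.normalizer_eq_top_iff]
    exact top_le_iff.1 hle
  have hbot : Fl φ s = ⊥ := by
    apply hrad _ hnorm (Fl_phi h (hS s hs))
    apply LFs_comm ?_ h.tors
    intro x hx y hy
    exact Cls.commute_of_Inv (hflat s hs) hx hy
  have : s ∈ Fl φ s := mem_Fl
  rw [hbot, Subgroup.mem_bot] at this
  exact this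

end Core

end H868.RegFour
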