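import Mathlib
import Pool.Agent.Helper868.RegFour5

set_option autoImplicit false

namespace H868.RegFour

open Subgroup

universe u

theorem Gen_res_top {G : Type*} [Group G] {φ : G →* G} (X : Finset G) (K : Subgroup G)
    (hKX : K = Gen φ (X : Set G)) (hK : ∀ x ∈ K, φ x ∈ K)
    (X' : Finset ↥K) (hX' : ∀ x : ↥K, x ∈ X' ↔ (x : G) ∈ X) :
    Gen (resHom φ K hK) (X' : Set ↥K) = ⊤ := by
  set ψ := resHom φ K hK with hψ
  have hCK : Cs φ ≤ K := by rw [hKX]; exact C_le_Gen _
  have hXK : ∀ x ∈ X, x ∈ K := by
    intro x hx; rw [hKX]; exact mem_Gen hx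
  have hle : K ≤ (Gen ψ (X' : Set ↥K)).map K.subtype := by
    nth_rewrite 1 [hKX]
    apply Gen_le
    · intro c hc
      refine ⟨⟨c, hCK hc⟩, ?_, rfl⟩
      apply C_le_Gen
      change ψ (ψ ⟨c, _⟩) = ⟨c, _⟩
      exact Subtype.ext hc
    · intro x hx
      have hx' : (⟨x, hXK x hx⟩ : ↥K) ∈ (X' : Set ↥K) := (hX' _).2 hx
      exact ⟨⟨⟨x, hXK x hx⟩, mem_Gen hx', rfl⟩, ⟨ψ ⟨x, hXK x hx⟩, phi_mem_Gen hx', rfl⟩⟩
  rw [eq_top_iff]
  intro x _
  obtain ⟨y, hy, hyx⟩ := hle x.2
  have : y = x := Subtype.ext hyx
  rw [← this]; exact hy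

theorem main_induct (n : ℕ) : ∀ (G : Type u) [Group G] (φ : G →* G), Cls φ →
    ∀ S : Finset G, S.card = n → (∀ s ∈ S, Inv φ s) → Gen φ (S : Set G) = ⊤ →
    LFs (⊤ : Subgroup G) := by
  induction n using Nat.strong_induction_on with
  | _ n ih =>
    intro G _ φ h S hcard hS hgen
    classical
    obtain ⟨R, hRn, hRφ, hRLF, hRmax⟩ := exists_radical φ
    have hRc : R ≤ R.comap φ := hRφ
    set ψ := QuotientGroup.map R R φ hRc with hψ
    have hψC : Cls ψ := h.quot R hRc
    have hψmk : ∀ g : G, ψ (QuotientGroup.mk' R g) = QuotientGroup.mk' R (φ g) := by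
      intro g; rfl
    -- trivial radical in the quotient
    have hrad : ∀ N : Subgroup (G ⧸ R), N.Normal → (∀ x ∈ N, ψ x ∈ N) → LFs N → N = ⊥ := by
      intro N hN hNψ hNLF
      have hM : N.comap (QuotientGroup.mk' R) = R := by
        apply hRmax
        · exact hN.comap _
        · intro x hx
          rw [mem_comap] at hx ⊢
          rw [← hψmk]
          exact hNψ _ hx
        · apply LFs_ext hRLF
          rw [Subgroup.map_comap_eq_self_of_surjective (QuotientGroup.mk'_surjective R)]
          exact hNLF
        · intro x hx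
          rw [mem_comap]
          have : QuotientGroup.mk' R x = 1 := (QuotientGroup.eq_one_iff x).2 hx
          rw [this]; exact one_mem _
      rw [eq_bot_iff]
      intro x hx
      obtain ⟨g, rfl⟩ := QuotientGroup.mk'_surjective R x
      have hg : g ∈ N.comap (QuotientGroup.mk' R) := hx
      rw [hM] at hg
      rw [Subgroup.mem_bot]
      exact (QuotientGroup.eq_one_iff g).2 hg
    -- generators of the quotient
    set T : Finset (G ⧸ R) := S.image (QuotientGroup.mk' R) with hT
    have hTcard : T.card ≤ n := by rw [← hcard]; exact Finset.card_image_le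
    have hTinv : ∀ t ∈ T, Inv ψ t := by
      intro t ht
      rw [hT, Finset.mem_image] at ht
      obtain ⟨s, hs, rfl⟩ := ht
      change ψ (ψ _) = _
      rw [hψmk, hψmk, show φ (φ s) = s⁻¹ from hS s hs, map_inv]
    have hTgen : Gen ψ (T : Set (G ⧸ R)) = ⊤ := by
      rw [eq_top_iff]
      intro x _
      obtain ⟨g, rfl⟩ := QuotientGroup.mk'_surjective R x
      have hg : g ∈ Gen φ (S : Set G) := by rw [hgen]; exact mem_top g
      have hle : Gen φ (S : Set G) ≤ (Gen ψ (T : Set (G ⧸ R))).comap (QuotientGroup.mk' R) := by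
        apply Gen_le
        · intro c hc
          rw [mem_comap]
          apply C_le_Gen
          change ψ (ψ _) = _
          rw [hψmk, hψmk, show φ (φ c) = c from hc]
        · intro s hs
          have hsT : QuotientGroup.mk' R s ∈ (T : Set (G ⧸ R)) := by
            rw [hT]; exact Finset.mem_coe.2 (Finset.mem_image_of_mem _ hs)
          refine ⟨mem_Gen hsT, ?_⟩
          rw [mem_comap, ← hψmk]
          exact phi_mem_Gen hsT
      exact hle hg
    -- it suffices to treat the quotient
    suffices htop : LFs (⊤ : Subgroup (G ⧸ R)) by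
      apply LFs_ext hRLF
      exact LFs.mono le_top htop
    rcases T.eq_empty_or_nonempty with hTe | ⟨t, ht⟩
    · -- the quotient is commutative
      have hCtop : ∀ x : G ⧸ R, x ∈ Cs ψ := by
        intro x
        have hx : x ∈ Gen ψ (T : Set (G ⧸ R)) := by rw [hTgen]; exact mem_top x
        have hle : Gen ψ (T : Set (G ⧸ R)) ≤ Cs ψ := by
          apply Gen_le le_rfl
          intro y hy
          rw [hTe] at hy
          simp at hy
        exact hle hx
      apply LFs_comm ?_ hψC.tors
      intro x _ y _
      exact hψC.comm_C (hCtop x) (hCtop y)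
    · have hsub : ∀ r ∈ T, LFs (Gen ψ ((T : Set (G ⧸ R)) \ {r})) := by
        intro r hr
        have hEr : ((T : Set (G ⧸ R)) \ {r}) = ((T.erase r : Finset (G ⧸ R)) : Set (G ⧸ R)) := by
          rw [Finset.coe_erase]
        rw [hEr]
        set X := T.erase r with hX
        have hXinv : ∀ x ∈ (X : Set (G ⧸ R)), Inv ψ x := by
          intro x hx
          exact hTinv x (Finset.mem_of_mem_erase hx)
        have hK := Gen_inv hψC hXinv
        set K := Gen ψ (X : Set (G ⧸ R)) with hKdef
        set X' : Finset ↥K := X.subtype (· ∈ K) with hX'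
        have hmemX' : ∀ x : ↥K, x ∈ X' ↔ (x : G ⧸ R) ∈ X := by
          intro x; rw [hX', Finset.mem_subtype]
        have hcardX' : X'.card < n := by
          have h1 : X'.card ≤ X.card := by
            have : X'.card = (X'.image (fun x : ↥K => (x : G ⧸ R))).card :=
              (Finset.card_image_of_injective _ Subtype.val_injective).symm
            rw [this]
            apply Finset.card_le_card
            intro y hy
            rw [Finset.mem_image] at hy
            obtain ⟨x, hx, rfl⟩ := hy
            exact (hmemX' x).1 hx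
          have h2 : X.card < T.card := Finset.card_erase_lt_of_mem hr
          omega
        have h3 := ih X'.card hcardX' ↥K (resHom ψ K hK) (hψC.res K hK) X' rfl
          (by
            intro s hs
            exact Subtype.ext (hXinv _ ((hmemX' s).1 hs)))
          (Gen_res_top X K hKdef hK X' hmemX')
        have h4 := LFs_map_subtype h3
        rw [← MonoidHom.range_eq_map, K.range_subtype] at h4
        exact h4
      have hone := core hψC (T : Set (G ⧸ R)) hTinv hTgen hrad hsub t ht
      have hle : Gen ψ (T : Set (G ⧸ R)) ≤ Gen ψ ((T : Set (G ⧸ R)) \ {t}) := by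
        apply Gen_le (C_le_Gen _)
        intro x hx
        by_cases hxt : x = t
        · rw [hxt, hone, map_one]
          exact ⟨one_mem _, one_mem _⟩
        · exact ⟨mem_Gen ⟨hx, hxt⟩, phi_mem_Gen ⟨hx, hxt⟩⟩
      rw [hTgen] at hle
      exact LFs.mono hle (hsub t ht)

/-- groups in the class are locally finite -/
theorem Cls.locallyFinite {G : Type u} [Group G] {φ : G →* G} (h : Cls φ) :
    LFs (⊤ : Subgroup G) := by
  classical
  intro s _
  choose c hc d hd hcd using h.decomp
  set D : Finset G := s.image d with hD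
  have hDinv : ∀ x ∈ (D : Set G), Inv φ x := by
    intro x hx
    rw [hD, Finset.mem_coe, Finset.mem_image] at hx
    obtain ⟨y, _, rfl⟩ := hx
    exact hd y
  have hK := Gen_inv h hDinv
  set K := Gen φ (D : Set G) with hKdef
  set D' : Finset ↥K := D.subtype (· ∈ K) with hD'
  have hmem : ∀ x : ↥K, x ∈ D' ↔ (x : G) ∈ D := by
    intro x; rw [hD', Finset.mem_subtype]
  have h3 := main_induct D'.card ↥K (resHom φ K hK) (h.res K hK) D' rfl
    (by
      intro x hx
      exact Subtype.ext (hDinv _ ((hmem x).1 hx)))
    (Gen_res_top D K hKdef hK D' hmem)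
  have h4 := LFs_map_subtype h3
  rw [← MonoidHom.range_eq_map, K.range_subtype] at h4
  apply h4
  intro x hx
  rw [hcd x]
  apply mul_mem
  · exact C_le_Gen _ (hc x)
  · apply mem_Gen
    rw [hD]
    exact Finset.mem_coe.2 (Finset.mem_image_of_mem _ hx)

/-- periodic groups with a regular operator of order dividing four are locally finite -/
theorem regular_four {G : Type u} [Group G] (φ : G →* G)
    (tors : ∀ g : G, IsOfFinOrder g) (four : ∀ g : G, φ (φ (φ (φ g))) = g)
    (reg : ∀ g : G, φ g = g → g = 1) (H : Subgroup G) (hH : H.FG) : Finite H := by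
  obtain ⟨s, rfl⟩ := hH
  exact (cls_of_regular φ tors four reg).locallyFinite s (fun x _ => mem_top x)

end H868.RegFour
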