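import Pool.Agent.Helper868.DHJ

namespace Pool.Agent.Helper868.STS

open Function Pool.Agent.Helper868.DHJ
open scoped BigOperators

/-- A 2-(v,3,1) design (Steiner triple system) with point set `X` and blocks `B`:
all blocks are 3-subsets of `X` and every two distinct points lie in exactly one block. -/
def IsSTS {V : Type} [DecidableEq V] (X : Finset V) (B : Finset (Finset V)) : Prop :=
  (∀ b ∈ B, b ⊆ X ∧ b.card = 3) ∧ ∀ x ∈ X, ∀ y ∈ X, x ≠ y → ∃! b, b ∈ B ∧ x ∈ b ∧ y ∈ b

/-- `S` is a defining set of the design with point set `X` and blocks `D`: it consists of blocks of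
`D`, and `D` is the only Steiner triple system on `X` whose blocks contain `S`. -/
def IsDefiningSet {V : Type} [DecidableEq V] (X : Finset V) (D S : Finset (Finset V)) : Prop :=
  S ⊆ D ∧ ∀ B, IsSTS X B → S ⊆ B → B = D

/-- The 3-subsets of `X` with sum zero. -/
def zeroTriples {G : Type} [AddCommGroup G] [DecidableEq G] (X : Finset G) : Finset (Finset G) :=
  (X.powersetCard 3).filter fun b => ∑ x ∈ b, x = 0

/-- Closure property of the point set. -/
def Closed {G : Type} [AddCommGroup G] (X : Finset G) : Prop :=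
  ∀ x ∈ X, ∀ y ∈ X, x ≠ y → -(x + y) ∈ X ∧ -(x + y) ≠ x ∧ -(x + y) ≠ y

section Gen

variable {G : Type} [AddCommGroup G] [DecidableEq G] {X : Finset G}

lemma mem_zeroTriples {b : Finset G} : b ∈ zeroTriples X ↔ b ⊆ X ∧ b.card = 3 ∧ ∑ x ∈ b, x = 0 := by
  simp [zeroTriples, Finset.mem_powersetCard, and_assoc]

/-- A 3-set containing two given distinct points. -/
lemma third_point {b : Finset G} (hb : b.card = 3) {x y : G} (hx : x ∈ b) (hy : y ∈ b) (hxy : x ≠ y) :
    ∃ z, z ≠ x ∧ z ≠ y ∧ b = {x, y, z} ∧ ∑ w ∈ b, w = x + y + z := by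
  have h1 : ((b.erase x).erase y).card = 1 := by
    rw [Finset.card_erase_of_mem (Finset.mem_erase.2 ⟨hxy.symm, hy⟩), Finset.card_erase_of_mem hx, hb]
  obtain ⟨z, hz⟩ := Finset.card_eq_one.1 h1
  have hzm : z ∈ (b.erase x).erase y := by rw [hz]; simp
  simp only [Finset.mem_erase] at hzm
  obtain ⟨hzy, hzx, hzb⟩ := hzm
  have h2 : b = {x, y, z} := by
    rw [← Finset.insert_erase hx, ← Finset.insert_erase (Finset.mem_erase.2 ⟨hxy.symm, hy⟩), hz]
  refine ⟨z, hzx, hzy, h2, ?_⟩
  rw [h2, Finset.sum_insert (by simp [hxy, Ne.symm hzx]), Finset.sum_insert (by simp [Ne.symm hzy]),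
    Finset.sum_singleton, add_assoc]

lemma triple_sum {x y z : G} (hxy : x ≠ y) (hzx : z ≠ x) (hzy : z ≠ y) :
    ({x, y, z} : Finset G).card = 3 ∧ ∑ w ∈ ({x, y, z} : Finset G), w = x + y + z := by
  constructor
  · rw [Finset.card_eq_three]
    exact ⟨x, y, z, hxy, hzx.symm, hzy.symm, rfl⟩
  · rw [Finset.sum_insert (by simp [hxy, Ne.symm hzx]), Finset.sum_insert (by simp [Ne.symm hzy]),
      Finset.sum_singleton, add_assoc]

lemma zero_triple_of_pair (hX : Closed X) {x y : G} (hx : x ∈ X) (hy : y ∈ X) (hxy : x ≠ y) :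
    ({x, y, -(x + y)} : Finset G) ∈ zeroTriples X := by
  obtain ⟨h1, h2, h3⟩ := hX x hx y hy hxy
  obtain ⟨h4, h5⟩ := triple_sum hxy h2 h3
  refine mem_zeroTriples.2 ⟨?_, h4, by rw [h5]; abel⟩
  intro w hw
  simp only [Finset.mem_insert, Finset.mem_singleton] at hw
  rcases hw with rfl | rfl | rfl
  · exact hx
  · exact hy
  · exact h1

lemma zero_triple_eq {b : Finset G} (hb : b ∈ zeroTriples X) {x y : G} (hx : x ∈ b) (hy : y ∈ b)
    (hxy : x ≠ y) : b = {x, y, -(x + y)} := by
  obtain ⟨-, h2, h3⟩ := mem_zeroTriples.1 hb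
  obtain ⟨z, -, -, h4, h5⟩ := third_point h2 hx hy hxy
  have : z = -(x + y) := by
    rw [h3] at h5
    rw [eq_neg_iff_add_eq_zero, add_comm]
    exact h5.symm
  rw [h4, this]

/-- The zero-sum triples form a Steiner triple system. -/
lemma zeroTriples_isSTS (hX : Closed X) : IsSTS X (zeroTriples X) := by
  refine ⟨fun b hb => ⟨(mem_zeroTriples.1 hb).1, (mem_zeroTriples.1 hb).2.1⟩, ?_⟩
  intro x hx y hy hxy
  refine ⟨{x, y, -(x + y)}, ⟨zero_triple_of_pair hX hx hy hxy, by simp, by simp⟩, ?_⟩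
  rintro b ⟨hb, hxb, hyb⟩
  exact zero_triple_eq hb hxb hyb hxy

/-- Ordered pairs of distinct points spanning a block of `T`. -/
def pairsOf (T : Finset (Finset G)) : Finset (G × G) := T.biUnion fun b => b.offDiag

lemma card_pairsOf {T : Finset (Finset G)} (hT : T ⊆ zeroTriples X) :
    (pairsOf T).card = 6 * T.card := by
  unfold pairsOf
  rw [Finset.card_biUnion]
  · rw [Finset.sum_congr rfl (g := fun _ => 6)]
    · simp [mul_comm]
    · intro b hb
      rw [Finset.offDiag_card, (mem_zeroTriples.1 (hT hb)).2.1]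
  · intro b hb c hc hbc
    change Disjoint b.offDiag c.offDiag
    rw [Finset.disjoint_left]
    rintro ⟨x, y⟩ h1 h2
    simp only [Finset.mem_offDiag] at h1 h2
    apply hbc
    rw [zero_triple_eq (hT hb) h1.1 h1.2.1 h1.2.2, zero_triple_eq (hT hc) h2.1 h2.2.1 h2.2.2]

lemma pairsOf_all (hX : Closed X) : pairsOf (zeroTriples X) = X.offDiag := by
  ext ⟨x, y⟩
  simp only [pairsOf, Finset.mem_biUnion, Finset.mem_offDiag]
  constructor
  · rintro ⟨b, hb, hx, hy, hxy⟩
    have := (mem_zeroTriples.1 hb).1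
    exact ⟨this hx, this hy, hxy⟩
  · rintro ⟨hx, hy, hxy⟩
    exact ⟨_, zero_triple_of_pair hX hx hy hxy, by simp, by simp, hxy⟩

lemma six_card (hX : Closed X) : 6 * (zeroTriples X).card = X.card * X.card - X.card := by
  rw [← card_pairsOf (Finset.Subset.refl (zeroTriples X)), pairsOf_all hX, Finset.offDiag_card]

/-- The trade: if all zero-sum transversals of three cosets lie outside `S`, then `S` is not a
defining set. -/
lemma not_defining (hX : Closed X) {S : Finset (Finset G)} (Λ : AddSubgroup G) {p x0 y0 : G}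
    (hp : p ∈ Λ) (hp0 : p ≠ 0)
    (h : ∀ a b, a - x0 ∈ Λ → b - y0 ∈ Λ → a ∈ X ∧ b ∈ X ∧ a ≠ b ∧ {a, b, -(a + b)} ∉ S) :
    ¬ IsDefiningSet X (zeroTriples X) S := by
  classical
  rintro ⟨hS1, hS2⟩
  -- the three classes
  let O1 : G → Prop := fun g => g - x0 ∈ Λ
  let O2 : G → Prop := fun g => g - y0 ∈ Λ
  let O3 : G → Prop := fun g => g + x0 + y0 ∈ Λ
  have h12 : ∀ a b, O1 a → O2 b → O3 (-(a + b)) := by
    intro a b ha hb
    have e : -(a + b) + x0 + y0 = -((a - x0) + (b - y0)) := by abel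
    change -(a + b) + x0 + y0 ∈ Λ
    rw [e]
    exact Λ.neg_mem (Λ.add_mem ha hb)
  have h13 : ∀ a c, O1 a → O3 c → O2 (-(a + c)) := by
    intro a c ha hc
    have e : -(a + c) - y0 = -((a - x0) + (c + x0 + y0)) := by abel
    change -(a + c) - y0 ∈ Λ
    rw [e]
    exact Λ.neg_mem (Λ.add_mem ha hc)
  have h23 : ∀ b c, O2 b → O3 c → O1 (-(b + c)) := by
    intro b c hb hc
    have e : -(b + c) - x0 = -((b - y0) + (c + x0 + y0)) := by abel
    change -(b + c) - x0 ∈ Λ
    rw [e]
    exact Λ.neg_mem (Λ.add_mem hb hc)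
  have hp1 : ∀ a, O1 a → O1 (a + p) := by
    intro a ha
    have e : a + p - x0 = (a - x0) + p := by abel
    change a + p - x0 ∈ Λ
    rw [e]; exact Λ.add_mem ha hp
  have hp2 : ∀ a, O2 a → O2 (a + p) := by
    intro a ha
    have e : a + p - y0 = (a - y0) + p := by abel
    change a + p - y0 ∈ Λ
    rw [e]; exact Λ.add_mem ha hp
  have hp3 : ∀ a, O3 a → O3 (a + p) := by
    intro a ha
    have e : a + p + x0 + y0 = (a + x0 + y0) + p := by abel
    change a + p + x0 + y0 ∈ Λ
    rw [e]; exact Λ.add_mem ha hp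
  have X1 : ∀ a, O1 a → a ∈ X := fun a ha => (h a y0 ha (by simp)).1
  have X2 : ∀ b, O2 b → b ∈ X := fun b hb => (h x0 b (by simp) hb).2.1
  have d12 : ∀ g, O1 g → ¬ O2 g := fun g h1 h2 => (h g g h1 h2).2.2.1 rfl
  have hfull : ∀ a c, O1 a → O3 c → c ≠ a ∧ c ∈ X := by
    intro a c ha hc
    obtain ⟨q1, q2, q3, -⟩ := h a (-(a + c)) ha (h13 a c ha hc)
    obtain ⟨r1, r2, -⟩ := hX _ q1 _ q2 q3
    have e : -(a + -(a + c)) = c := by abel
    rw [e] at r1 r2
    exact ⟨r2, r1⟩
  have hfull2 : ∀ b c, O2 b → O3 c → c ≠ b := by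
    intro b c hb hc
    obtain ⟨q1, q2, q3, -⟩ := h (-(b + c)) b (h23 b c hb hc) hb
    obtain ⟨-, -, r3⟩ := hX _ q1 _ q2 q3
    have e : -(-(b + c) + b) = c := by abel
    rw [e] at r3
    exact r3
  have X3 : ∀ c, O3 c → c ∈ X := fun c hc => (hfull x0 c (by simp [O1]) hc).2
  have d13 : ∀ g, O1 g → ¬ O3 g := fun g h1 h3 => (hfull g g h1 h3).1 rfl
  have d23 : ∀ g, O2 g → ¬ O3 g := fun g h2 h3 => hfull2 g g h2 h3 rfl
  -- transversality
  let O : Fin 3 → G → Prop := ![O1, O2, O3]
  have hOX : ∀ i g, O i g → g ∈ X := by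
    intro i g hg
    fin_cases i
    · exact X1 g hg
    · exact X2 g hg
    · exact X3 g hg
  have hOd : ∀ i j g, O i g → O j g → i = j := by
    intro i j g hi hj
    fin_cases i <;> fin_cases j
    · rfl
    · exact absurd hj (d12 g hi)
    · exact absurd hj (d13 g hi)
    · exact absurd hi (d12 g hj)
    · rfl
    · exact absurd hj (d23 g hi)
    · exact absurd hi (d13 g hj)
    · exact absurd hi (d23 g hj)
    · rfl
  have hO3 : ∀ i j k x y, i ≠ j → i ≠ k → j ≠ k → O i x → O j y → O k (-(x + y)) := by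
    intro i j k x y hij hik hjk hi hj
    fin_cases i <;> fin_cases j <;> fin_cases k <;>
      first
      | exact absurd rfl hij
      | exact absurd rfl hik
      | exact absurd rfl hjk
      | skip
    · exact h12 x y hi hj
    · exact h13 x y hi hj
    · rw [add_comm]; exact h12 y x hj hi
    · exact h23 x y hi hj
    · rw [add_comm]; exact h13 y x hj hi
    · rw [add_comm]; exact h23 y x hj hi
  have hOp : ∀ i g, O i g → O i (g + p) := by
    intro i g hg
    fin_cases i
    · exact hp1 g hg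
    · exact hp2 g hg
    · exact hp3 g hg
  have hthird : ∀ i j : Fin 3, i ≠ j → ∃ k, i ≠ k ∧ j ≠ k ∧ ∀ l, l = i ∨ l = j ∨ l = k := by decide
  let Tr : Finset G → Prop := fun b => ∀ i, ∃ a ∈ b, O i a
  let B' : Finset (Finset G) := (X.powersetCard 3).filter
    fun b => (Tr b → ∑ x ∈ b, x = p) ∧ (¬ Tr b → ∑ x ∈ b, x = 0)
  have memB' : ∀ b, b ∈ B' ↔ b ⊆ X ∧ b.card = 3 ∧ (Tr b → ∑ x ∈ b, x = p) ∧ (¬ Tr b → ∑ x ∈ b, x = 0) := by
    intro b
    simp [B', Finset.mem_powersetCard, and_assoc]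
  let Diff : G → G → Prop := fun x y => ∃ i j, i ≠ j ∧ O i x ∧ O j y
  have tr_diff : ∀ b : Finset G, b.card = 3 → Tr b → ∀ x ∈ b, ∀ y ∈ b, x ≠ y → Diff x y := by
    intro b hb htr x hx y hy hxy
    choose a ha1 ha2 using htr
    have hinj : Injective a := by
      intro i j hij
      exact hOd i j (a i) (ha2 i) (by rw [hij]; exact ha2 j)
    have himg : Finset.univ.image a = b := by
      apply Finset.eq_of_subset_of_card_le
      · intro w hw
        obtain ⟨i, -, rfl⟩ := Finset.mem_image.1 hw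
        exact ha1 i
      · rw [Finset.card_image_of_injective _ hinj, hb]
        simp
    rw [← himg] at hx hy
    obtain ⟨i, -, rfl⟩ := Finset.mem_image.1 hx
    obtain ⟨j, -, rfl⟩ := Finset.mem_image.1 hy
    exact ⟨i, j, fun h => hxy (by rw [h]), ha2 i, ha2 j⟩
  have tr_of : ∀ i j k x y z, i ≠ j → (∀ l : Fin 3, l = i ∨ l = j ∨ l = k) → O i x → O j y → O k z →
      Tr {x, y, z} := by
    intro i j k x y z _ hl hx hy hz l
    rcases hl l with rfl | rfl | rfl
    · exact ⟨x, by simp, hx⟩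
    · exact ⟨y, by simp, hy⟩
    · exact ⟨z, by simp, hz⟩
  have hB'sts : IsSTS X B' := by
    refine ⟨fun b hb => ⟨((memB' b).1 hb).1, ((memB' b).1 hb).2.1⟩, ?_⟩
    intro x hx y hy hxy
    by_cases hd : Diff x y
    · obtain ⟨i, j, hij, hi, hj⟩ := hd
      obtain ⟨k, hik, hjk, hl⟩ := hthird i j hij
      have hk := hO3 i j k x y hij hik hjk hi hj
      have hkp := hOp k _ hk
      have hzx : -(x + y) + p ≠ x := fun e => hik (hOd i k x hi (e ▸ hkp))
      have hzy : -(x + y) + p ≠ y := fun e => hjk (hOd j k y hj (e ▸ hkp))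
      obtain ⟨t1, t2⟩ := triple_sum hxy hzx hzy
      have htr := tr_of i j k x y _ hij hl hi hj hkp
      refine ⟨{x, y, -(x + y) + p}, ⟨(memB' _).2 ⟨?_, t1, fun _ => by rw [t2]; abel, fun h => absurd htr h⟩,
        by simp, by simp⟩, ?_⟩
      · intro w hw
        simp only [Finset.mem_insert, Finset.mem_singleton] at hw
        rcases hw with rfl | rfl | rfl
        · exact hx
        · exact hy
        · exact hOX k _ hkp
      · rintro b ⟨hb, hxb, hyb⟩
        obtain ⟨b1, b2, b3, b4⟩ := (memB' b).1 hb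
        obtain ⟨z, hzx', hzy', hbe, hsum⟩ := third_point b2 hxb hyb hxy
        by_cases htb : Tr b
        · have hs := b3 htb
          rw [hsum] at hs
          have : z = -(x + y) + p := by rw [← hs]; abel
          rw [hbe, this]
        · exfalso
          have hs := b4 htb
          rw [hsum] at hs
          have : z = -(x + y) := by
            rw [eq_neg_iff_add_eq_zero, add_comm]
            exact hs
          apply htb
          rw [hbe, this]
          exact tr_of i j k x y _ hij hl hi hj hk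
    · refine ⟨{x, y, -(x + y)}, ⟨?_, by simp, by simp⟩, ?_⟩
      · have hz := zero_triple_of_pair hX hx hy hxy
        obtain ⟨z1, z2, z3⟩ := mem_zeroTriples.1 hz
        refine (memB' _).2 ⟨z1, z2, fun htr => ?_, fun _ => z3⟩
        exact absurd (tr_diff _ z2 htr x (by simp) y (by simp) hxy) hd
      · rintro b ⟨hb, hxb, hyb⟩
        obtain ⟨b1, b2, b3, b4⟩ := (memB' b).1 hb
        have hntr : ¬ Tr b := fun htr => hd (tr_diff b b2 htr x hxb y hyb hxy)
        exact zero_triple_eq (mem_zeroTriples.2 ⟨b1, b2, b4 hntr⟩) hxb hyb hxy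
  have hx0 : O 0 x0 := by change x0 - x0 ∈ Λ; simp
  have hy0 : O 1 y0 := by change y0 - y0 ∈ Λ; simp
  have hSB : S ⊆ B' := by
    intro b hb
    obtain ⟨z1, z2, z3⟩ := mem_zeroTriples.1 (hS1 hb)
    refine (memB' _).2 ⟨z1, z2, fun htr => ?_, fun _ => z3⟩
    exfalso
    obtain ⟨a1, ha1, hA1⟩ := htr 0
    obtain ⟨a2, ha2, hA2⟩ := htr 1
    obtain ⟨-, -, q3, q4⟩ := h a1 a2 hA1 hA2
    apply q4
    rw [← zero_triple_eq (hS1 hb) ha1 ha2 q3]
    exact hb
  have hBB := hS2 B' hB'sts hSB
  have hne : x0 ≠ y0 := fun e => by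
    have := hOd 0 1 x0 hx0 (by rw [e]; exact hy0)
    exact absurd this (by decide)
  have hmem : ({x0, y0, -(x0 + y0)} : Finset G) ∈ zeroTriples X :=
    zero_triple_of_pair hX (hOX 0 _ hx0) (hOX 1 _ hy0) hne
  have h3 : O 2 (-(x0 + y0)) := hO3 0 1 2 x0 y0 (by decide) (by decide) (by decide) hx0 hy0
  have htr : Tr {x0, y0, -(x0 + y0)} := tr_of 0 1 2 x0 y0 _ (by decide) (by decide) hx0 hy0 h3
  have hs0 := (mem_zeroTriples.1 hmem).2.2
  rw [← hBB] at hmem
  have hsp := ((memB' _).1 hmem).2.2.1 htr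
  exact hp0 (by rw [← hsp, hs0])

end Gen

lemma dens_finset {Y : Type} [Fintype Y] (P : Finset Y) :
    dens (P : Set Y) = (P.card : ℝ) / Fintype.card Y := by
  classical
  unfold dens
  rw [av_eq_sum]
  congr 1
  have h : ∀ x, ind (P : Set Y) x = if x ∈ P then 1 else 0 := by
    intro x
    by_cases hx : x ∈ P
    · rw [ind_mem (by exact_mod_cast hx), if_pos hx]
    · rw [ind_not_mem (by exact_mod_cast hx), if_neg hx]
  simp_rw [h]
  simp

/-- In high dimension the complement of a defining set has small density. -/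
theorem defining_large (q : ℕ) [NeZero q] (hq : 1 < q) (δ : ℝ) (hδ : 0 < δ) :
    ∃ N : ℕ, ∀ n, N ≤ n → ∀ X : Finset (Fin n → ZMod q), Closed X →
      ∀ S, IsDefiningSet X (zeroTriples X) S →
        6 * ((zeroTriples X \ S).card : ℝ) < δ * (q:ℝ) ^ (2 * n) := by
  obtain ⟨N, hN⟩ := density_hales_jewett (ZMod q × ZMod q) δ hδ
  refine ⟨N, fun n hn X hX S hS => ?_⟩
  set T := zeroTriples X \ S with hT
  have hTsub : T ⊆ zeroTriples X := Finset.sdiff_subset
  let e : (Fin n → ZMod q × ZMod q) ≃ (Fin n → ZMod q) × (Fin n → ZMod q) :=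
    Equiv.arrowProdEquivProdArrow (Fin n) (fun _ => ZMod q) (fun _ => ZMod q)
  let A : Set (Fin n → ZMod q × ZMod q) := {f | e f ∈ ((pairsOf T : Finset _) : Set _)}
  have hdA : dens A = 6 * (T.card : ℝ) / (q:ℝ) ^ (2 * n) := by
    rw [dens_congr_equiv e, dens_finset, card_pairsOf hTsub]
    push_cast
    congr 1
    rw [Fintype.card_prod, Fintype.card_fun, ZMod.card, Fintype.card_fin]
    push_cast
    ring
  have hfree : LineFree A := by
    intro u hu
    by_contra hcon
    push Not at hcon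
    obtain ⟨i0, hi0⟩ := hu
    let x0 : Fin n → ZMod q := fun i => ((u i).getD (0, 0)).1
    let y0 : Fin n → ZMod q := fun i => ((u i).getD (0, 0)).2
    let p : Fin n → ZMod q := fun i => if u i = none then 1 else 0
    have hp0 : p ≠ 0 := by
      intro h
      have h1 := congrFun h i0
      simp only [p, hi0, if_true, Pi.zero_apply] at h1
      have : Nontrivial (ZMod q) := ZMod.nontrivial_iff.2 (by omega)
      exact one_ne_zero h1
    refine not_defining hX (AddSubgroup.zmultiples p) (AddSubgroup.mem_zmultiples p) hp0 (x0 := x0)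
      (y0 := y0) ?_ hS
    intro a b ha hb
    obtain ⟨k, hk⟩ := AddSubgroup.mem_zmultiples_iff.1 ha
    obtain ⟨l, hl⟩ := AddSubgroup.mem_zmultiples_iff.1 hb
    have ha' : a = x0 + k • p := by rw [hk]; abel
    have hb' : b = y0 + l • p := by rw [hl]; abel
    have hmem := hcon ((k : ZMod q), (l : ZMod q))
    have hev : e (pt u ((k : ZMod q), (l : ZMod q))) = (a, b) := by
      rw [ha', hb']
      apply Prod.ext
      · funext i
        change (pt u ((k : ZMod q), (l : ZMod q)) i).1 = (x0 + k • p) i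
        simp only [pt, x0, p, Pi.add_apply, Pi.smul_apply]
        cases hi : u i <;> simp
      · funext i
        change (pt u ((k : ZMod q), (l : ZMod q)) i).2 = (y0 + l • p) i
        simp only [pt, y0, p, Pi.add_apply, Pi.smul_apply]
        cases hi : u i <;> simp
    have hmem2 : (a, b) ∈ pairsOf T := by
      have h1 : e (pt u ((k : ZMod q), (l : ZMod q))) ∈ ((pairsOf T : Finset _) : Set _) := hmem
      rw [hev] at h1
      exact_mod_cast h1
    simp only [pairsOf, Finset.mem_biUnion, Finset.mem_offDiag] at hmem2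
    obtain ⟨c, hc, hac, hbc, hab⟩ := hmem2
    have hcz := hTsub hc
    have hcX := (mem_zeroTriples.1 hcz).1
    refine ⟨hcX hac, hcX hbc, hab, ?_⟩
    rw [← zero_triple_eq hcz hac hbc hab]
    exact (Finset.mem_sdiff.1 hc).2
  have := hN (Fin n) (by simpa using hn) A hfree
  rw [hdA, div_lt_iff₀ (by positivity)] at this
  exact this

end Pool.Agent.Helper868.STS
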